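import Mathlib

/-!
# The number of integers composed of the primes dividing `R`, the number of divisors
-/

set_option autoImplicit false

open Finset

namespace Pool.Agent.Poonen40

/-- the positive integers up to `Y` all of whose prime factors divide `R` -/
noncomputable def fac (R Y : ℕ) : Finset ℕ :=
  (Icc 1 Y).filter (fun m => m ∈ Nat.factoredNumbers R.primeFactors)

theorem mem_fac {R Y m : ℕ} (hR : R ≠ 0) :
    m ∈ fac R Y ↔ 1 ≤ m ∧ m ≤ Y ∧ ∀ p : ℕ, p.Prime → p ∣ m → p ∣ R := by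
  unfold fac
  rw [mem_filter, mem_Icc, Nat.mem_factoredNumbers]
  constructor
  · rintro ⟨⟨h1, h2⟩, h3, h4⟩
    refine ⟨h1, h2, fun p hp hpm => ?_⟩
    exact Nat.dvd_of_mem_primeFactors (h4 p ((Nat.mem_primeFactorsList h3).mpr ⟨hp, hpm⟩))
  · rintro ⟨h1, h2, h3⟩
    refine ⟨⟨h1, h2⟩, by omega, fun p hp => ?_⟩
    rw [Nat.mem_primeFactorsList (by omega)] at hp
    exact Nat.mem_primeFactors.mpr ⟨hp.1, h3 p hp.1 hp.2, hR⟩

/-- `m ↦ m ^ (-ε)` -/
noncomputable def fe (ε : ℝ) : ℕ →* ℝ where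
  toFun m := (m : ℝ) ^ (-ε)
  map_one' := by simp
  map_mul' a b := by
    push_cast
    exact Real.mul_rpow (Nat.cast_nonneg a) (Nat.cast_nonneg b)

theorem fe_apply (ε : ℝ) (m : ℕ) : fe ε m = (m : ℝ) ^ (-ε) := rfl

theorem fe_lt_one {ε : ℝ} (hε : 0 < ε) {p : ℕ} (hp : p.Prime) : ‖fe ε p‖ < 1 := by
  rw [fe_apply, Real.norm_of_nonneg (by positivity)]
  exact Real.rpow_lt_one_of_one_lt_of_neg (by exact_mod_cast hp.one_lt) (by linarith)

theorem card_fac_le_prod {ε : ℝ} (hε : 0 < ε) (R Y : ℕ) :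
    ((fac R Y).card : ℝ) ≤ (Y : ℝ) ^ ε * ∏ p ∈ R.primeFactors, (1 - (p : ℝ) ^ (-ε))⁻¹ := by
  have hs := (EulerProduct.summable_and_hasSum_factoredNumbers_prod_filter_prime_geometric
    (f := fe ε) (fun hp => fe_lt_one hε hp) R.primeFactors).2
  have hfil : R.primeFactors.filter Nat.Prime = R.primeFactors := by
    apply filter_true_of_mem
    intro p hp
    exact Nat.prime_of_mem_primeFactors hp
  rw [hfil] at hs
  set T := (fac R Y).subtype (· ∈ Nat.factoredNumbers R.primeFactors) with hT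
  have h1 : ∑ m ∈ T, fe ε m ≤ ∏ p ∈ R.primeFactors, (1 - fe ε p)⁻¹ :=
    sum_le_hasSum T (fun m _ => by rw [fe_apply]; positivity) hs
  have h2 : ∑ m ∈ T, fe ε (m : ℕ) = ∑ m ∈ fac R Y, fe ε m := by
    rw [hT]
    apply Finset.sum_subtype_of_mem (f := fun m => fe ε m)
    intro m hm
    exact (mem_filter.mp hm).2
  rw [h2] at h1
  have h3 : ((fac R Y).card : ℝ) ≤ (Y : ℝ) ^ ε * ∑ m ∈ fac R Y, fe ε m := by
    rw [mul_sum, card_eq_sum_ones, Nat.cast_sum]
    refine sum_le_sum fun m hm => ?_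
    have hm' := mem_Icc.mp (mem_filter.mp hm).1
    have hm0 : (0 : ℝ) < m := by
      have : 0 < m := hm'.1
      exact_mod_cast this
    have hmY : (m : ℝ) ≤ Y := by exact_mod_cast hm'.2
    rw [fe_apply, Real.rpow_neg hm0.le, ← div_eq_mul_inv, ← Real.div_rpow (by positivity) hm0.le]
    push_cast
    exact Real.one_le_rpow ((one_le_div hm0).mpr hmY) hε.le
  refine h3.trans ?_
  exact mul_le_mul_of_nonneg_left h1 (by positivity)

theorem prod_le {ε : ℝ} (hε : 0 < ε) : ∃ C : ℝ, 0 < C ∧ ∀ R : ℕ, R ≠ 0 →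
    ∏ p ∈ R.primeFactors, (1 - (p : ℝ) ^ (-ε))⁻¹ ≤ C * (R : ℝ) ^ ε := by
  set K : ℝ := (1 - (2 : ℝ) ^ (-ε))⁻¹ with hK
  set M : ℕ := ⌈(2 : ℝ) ^ (1 / ε)⌉₊ with hM
  have h2 : (2 : ℝ) ^ (-ε) < 1 := Real.rpow_lt_one_of_one_lt_of_neg (by norm_num) (by linarith)
  have h20 : (0 : ℝ) < (2 : ℝ) ^ (-ε) := by positivity
  have hK1 : 1 ≤ K := by
    rw [hK]
    exact (one_le_inv₀ (by linarith)).mpr (by linarith)
  refine ⟨K ^ M, by positivity, fun R hR => ?_⟩
  have hfac : ∀ p ∈ R.primeFactors, (1 - (p : ℝ) ^ (-ε))⁻¹ ≤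
      (p : ℝ) ^ ε * (if p < M then K else 1) := by
    intro p hp
    have hpp := Nat.prime_of_mem_primeFactors hp
    have hp2 : (2 : ℝ) ≤ p := by exact_mod_cast hpp.two_le
    have hp0 : (0 : ℝ) < p := by linarith
    have hle : (p : ℝ) ^ (-ε) ≤ (2 : ℝ) ^ (-ε) :=
      Real.rpow_le_rpow_of_nonpos (by norm_num) hp2 (by linarith)
    have hpe : 1 ≤ (p : ℝ) ^ ε := Real.one_le_rpow (by linarith) hε.le
    split_ifs with hpM
    · have h3 : (1 - (p : ℝ) ^ (-ε))⁻¹ ≤ K := by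
        rw [hK]
        exact inv_anti₀ (by linarith) (by linarith)
      have hK0 : 0 ≤ K := by linarith
      nlinarith
    · rw [mul_one]
      push Not at hpM
      have h4 : (2 : ℝ) ≤ (p : ℝ) ^ ε := by
        have h5 : (2 : ℝ) ^ (1 / ε) ≤ p := by
          calc (2 : ℝ) ^ (1 / ε) ≤ (M : ℝ) := Nat.le_ceil _
            _ ≤ p := by exact_mod_cast hpM
        calc (2 : ℝ) = ((2 : ℝ) ^ (1 / ε)) ^ ε := by
              rw [← Real.rpow_mul (by norm_num), one_div_mul_cancel hε.ne', Real.rpow_one]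
          _ ≤ (p : ℝ) ^ ε := Real.rpow_le_rpow (by positivity) h5 hε.le
      have h6 : (p : ℝ) ^ (-ε) = ((p : ℝ) ^ ε)⁻¹ := Real.rpow_neg hp0.le ε
      have h7 : ((p : ℝ) ^ ε)⁻¹ ≤ 1 / 2 := by
        rw [one_div]
        exact inv_anti₀ (by norm_num) h4
      rw [h6]
      have h8 : (1 / 2 : ℝ) ≤ 1 - ((p : ℝ) ^ ε)⁻¹ := by linarith
      calc (1 - ((p : ℝ) ^ ε)⁻¹)⁻¹ ≤ (1 / 2 : ℝ)⁻¹ := inv_anti₀ (by norm_num) h8
        _ = 2 := by norm_num
        _ ≤ (p : ℝ) ^ ε := h4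
  calc ∏ p ∈ R.primeFactors, (1 - (p : ℝ) ^ (-ε))⁻¹
      ≤ ∏ p ∈ R.primeFactors, ((p : ℝ) ^ ε * (if p < M then K else 1)) := by
        refine prod_le_prod (fun p hp => ?_) hfac
        have hpp := Nat.prime_of_mem_primeFactors hp
        have := fe_lt_one hε hpp
        rw [fe_apply, Real.norm_of_nonneg (by positivity)] at this
        exact inv_nonneg.mpr (by linarith)
    _ = (∏ p ∈ R.primeFactors, (p : ℝ) ^ ε) * ∏ p ∈ R.primeFactors, (if p < M then K else 1) :=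
        prod_mul_distrib
    _ ≤ (R : ℝ) ^ ε * K ^ M := by
        apply mul_le_mul
        · rw [Real.finsetProd_rpow _ _ (fun p _ => Nat.cast_nonneg p)]
          apply Real.rpow_le_rpow (prod_nonneg fun p _ => Nat.cast_nonneg p) _ hε.le
          have h5 : ∏ p ∈ R.primeFactors, p ≤ R :=
            Nat.le_of_dvd (Nat.pos_of_ne_zero hR) (Nat.prod_primeFactors_dvd R)
          have h6 : ((∏ p ∈ R.primeFactors, p : ℕ) : ℝ) ≤ (R : ℝ) := Nat.cast_le.mpr h5
          rw [Nat.cast_prod] at h6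
          exact h6
        · rw [prod_ite, prod_const, prod_const_one, mul_one]
          apply pow_le_pow_right₀ hK1
          calc (R.primeFactors.filter (fun p => p < M)).card ≤ (range M).card := by
                apply card_le_card
                intro p hp
                exact mem_range.mpr (mem_filter.mp hp).2
            _ = M := card_range M
        · refine prod_nonneg fun p _ => ?_
          split_ifs
          · linarith
          · norm_num
        · positivity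
    _ = K ^ M * (R : ℝ) ^ ε := by ring

theorem card_fac_le {ε : ℝ} (hε : 0 < ε) : ∃ C : ℝ, 0 < C ∧ ∀ R Y : ℕ, R ≠ 0 →
    ((fac R Y).card : ℝ) ≤ C * ((R : ℝ) ^ ε * (Y : ℝ) ^ ε) := by
  obtain ⟨C, hC, h⟩ := prod_le hε
  refine ⟨C, hC, fun R Y hR => ?_⟩
  calc ((fac R Y).card : ℝ) ≤ (Y : ℝ) ^ ε * ∏ p ∈ R.primeFactors, (1 - (p : ℝ) ^ (-ε))⁻¹ :=
        card_fac_le_prod hε R Y
    _ ≤ (Y : ℝ) ^ ε * (C * (R : ℝ) ^ ε) := mul_le_mul_of_nonneg_left (h R hR) (by positivity)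
    _ = C * ((R : ℝ) ^ ε * (Y : ℝ) ^ ε) := by ring

theorem card_divisors_le {ε : ℝ} (hε : 0 < ε) : ∃ C : ℝ, 0 < C ∧ ∀ m : ℕ, m ≠ 0 →
    ((m.divisors).card : ℝ) ≤ C * (m : ℝ) ^ ε := by
  obtain ⟨C, hC, h⟩ := card_fac_le (show (0 : ℝ) < ε / 2 by linarith)
  refine ⟨C, hC, fun m hm => ?_⟩
  have hm0 : (0 : ℝ) < m := by exact_mod_cast Nat.pos_of_ne_zero hm
  have h1 : m.divisors ⊆ fac m m := by
    intro d hd
    rw [Nat.mem_divisors] at hd
    rw [mem_fac hm]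
    exact ⟨Nat.pos_of_dvd_of_pos hd.1 (by omega), Nat.le_of_dvd (by omega) hd.1,
      fun p _ hp => hp.trans hd.1⟩
  calc ((m.divisors).card : ℝ) ≤ ((fac m m).card : ℝ) := by exact_mod_cast card_le_card h1
    _ ≤ C * ((m : ℝ) ^ (ε / 2) * (m : ℝ) ^ (ε / 2)) := h m m hm
    _ = C * (m : ℝ) ^ ε := by
        rw [← Real.rpow_add hm0]
        congr 2
        ring

end Pool.Agent.Poonen40
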