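import Pool.Agent.Poonen40.Sets

/-!
# Relative approximation and the evaluation of the sums by windows of signs
-/

set_option autoImplicit false

namespace Pool.Agent.Poonen40

/-! ### relative approximation -/

/-- `z` is `w` up to a relative error of size at most `1 / b` -/
def Ap (r : ℕ) (b z w : ℚ) : Prop := w ≠ 0 ∧ padicNorm r (z - w) * b ≤ padicNorm r w

namespace Ap

variable {r : ℕ} [hr : Fact r.Prime] {b z w z' w' : ℚ}

theorem norm_eq (hb : 1 < b) (h : Ap r b z w) : padicNorm r z = padicNorm r w := by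
  have h0 : 0 < padicNorm r w := lt_of_le_of_ne (padicNorm.nonneg _) (Ne.symm (padicNorm.nonzero h.1))
  have h1 : padicNorm r (z - w) < padicNorm r w := by
    have h2 := padicNorm.nonneg (p := r) (z - w)
    have h3 := h.2
    by_contra hcon
    push Not at hcon
    nlinarith
  have e : z = (z - w) + w := by ring
  rw [e, padicNorm.add_eq_max_of_ne h1.ne, max_eq_right h1.le]

theorem ne_zero (hb : 1 < b) (h : Ap r b z w) : z ≠ 0 := by
  rintro rfl
  have h1 := h.norm_eq hb
  rw [padicNorm.zero] at h1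
  exact padicNorm.nonzero h.1 h1.symm

theorem refl (hw : w ≠ 0) : Ap r b w w := by
  refine ⟨hw, ?_⟩
  rw [sub_self, padicNorm.zero, zero_mul]
  exact padicNorm.nonneg _

theorem mul (hb : 1 < b) (h : Ap r b z w) (h' : Ap r b z' w') : Ap r b (z * z') (w * w') := by
  refine ⟨mul_ne_zero h.1 h'.1, ?_⟩
  have hb0 : (0 : ℚ) < b := by linarith
  have e : z * z' - w * w' = (z - w) * z' + w * (z' - w') := by ring
  rw [e, ← le_div_iff₀ hb0]
  apply norm_add_le
  · rw [padicNorm.mul, h'.norm_eq hb, padicNorm.mul, le_div_iff₀ hb0]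
    have h1 := h.2
    have h2 := padicNorm.nonneg (p := r) w'
    nlinarith
  · rw [padicNorm.mul, padicNorm.mul, le_div_iff₀ hb0]
    have h1 := h'.2
    have h2 := padicNorm.nonneg (p := r) w
    nlinarith

theorem inv (hb : 1 < b) (h : Ap r b z w) : Ap r b z⁻¹ w⁻¹ := by
  have hz := h.ne_zero hb
  have hw := h.1
  refine ⟨inv_ne_zero hw, ?_⟩
  have h0 : 0 < padicNorm r w := lt_of_le_of_ne (padicNorm.nonneg _) (Ne.symm (padicNorm.nonzero h.1))
  have e : z⁻¹ - w⁻¹ = -(z - w) / (z * w) := by
    field_simp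
    ring
  have e2 : padicNorm r w⁻¹ = padicNorm r w / (padicNorm r w * padicNorm r w) := by
    rw [← one_div, padicNorm.div, padicNorm.one]
    field_simp
  rw [e, padicNorm.div, padicNorm.neg, padicNorm.mul, h.norm_eq hb, e2, div_mul_eq_mul_div]
  apply div_le_div_of_nonneg_right h.2
  positivity

theorem pow (hb : 1 < b) (h : Ap r b z w) (m : ℕ) : Ap r b (z ^ m) (w ^ m) := by
  induction m with
  | zero => simpa using refl (r := r) (b := b) one_ne_zero
  | succ m ih => rw [pow_succ, pow_succ]; exact ih.mul hb h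

theorem zpow (hb : 1 < b) (h : Ap r b z w) (m : ℤ) : Ap r b (z ^ m) (w ^ m) := by
  obtain ⟨k, rfl | rfl⟩ := m.eq_nat_or_neg
  · rw [zpow_natCast, zpow_natCast]
    exact h.pow hb k
  · rw [zpow_neg, zpow_neg, zpow_natCast, zpow_natCast]
    exact (h.pow hb k).inv hb

end Ap

/-! ### signs and monomials in `y` -/

/-- the sign -/
def sg (s : Bool) : ℚ := if s then -1 else 1

theorem sg_ne (s : Bool) : sg s ≠ 0 := by cases s <;> simp [sg]

theorem sg_xor (s t : Bool) : sg (xor s t) = sg s * sg t := by cases s <;> cases t <;> simp [sg]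

theorem sg_inv (s : Bool) : (sg s)⁻¹ = sg s := by cases s <;> simp [sg]

theorem sg_sq (s : Bool) : sg s ^ 2 = 1 := by cases s <;> simp [sg]

theorem sg_not (s : Bool) : sg (!s) = - sg s := by cases s <;> simp [sg]

theorem norm_sg (r : ℕ) [hr : Fact r.Prime] (s : Bool) : padicNorm r (sg s) = 1 := by
  cases s
  · simp [sg]
  · simp only [sg, if_true]
    rw [padicNorm.neg, padicNorm.one]

/-- the value `± y ^ e` -/
def vl (y : ℚ) (v : ℤ × Bool) : ℚ := sg v.2 * y ^ v.1

theorem vl_ne {y : ℚ} (hy : y ≠ 0) (v : ℤ × Bool) : vl y v ≠ 0 :=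
  mul_ne_zero (sg_ne _) (zpow_ne_zero _ hy)

theorem vl_mul {y : ℚ} (hy : y ≠ 0) (v w : ℤ × Bool) :
    vl y v * vl y w = vl y (v.1 + w.1, xor v.2 w.2) := by
  simp only [vl, sg_xor, zpow_add₀ hy]
  ring

theorem vl_inv (y : ℚ) (v : ℤ × Bool) : (vl y v)⁻¹ = vl y (-v.1, v.2) := by
  simp only [vl, mul_inv, sg_inv, zpow_neg]

theorem sg_zpow (s : Bool) (m : ℤ) : sg s ^ m = sg (decide (m % 2 = 1) && s) := by
  cases s
  · simp [sg]
  · simp only [sg, if_true, Bool.and_true, decide_eq_true_eq]
    split_ifs with h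
    · exact Odd.neg_one_zpow (Int.odd_iff.mpr h)
    · exact Even.neg_one_zpow (Int.even_iff.mpr (by omega))

theorem vl_zpow (y : ℚ) (v : ℤ × Bool) (m : ℤ) :
    (vl y v) ^ m = vl y (m * v.1, decide (m % 2 = 1) && v.2) := by
  simp only [vl, mul_zpow, sg_zpow, ← zpow_mul]
  rw [mul_comm v.1 m]

theorem norm_vl {r : ℕ} [hr : Fact r.Prime] (y : ℚ) (v : ℤ × Bool) :
    padicNorm r (vl y v) = (padicNorm r y) ^ v.1 := by
  rw [vl, padicNorm.mul, norm_sg, one_mul, norm_zpow]

/-! ### the evaluation in a window of signs -/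

/-- the value of `x_i - x_j`, as `± y ^ e` -/
def dif (L : ℕ) (c : ℕ → Bool) : ℕ → ℕ → ℕ → Option (ℤ × Bool)
  | 0, _, _ => none
  | k + 1, i, j =>
    if i ≤ L ∧ j ≤ L then
      if c i = c j then
        match dif L c k (i + 1) (j + 1) with
        | none => none
        | some v => some (v.1 - 1, xor v.2 (c i))
      else some (1, c i)
    else none

/-- the value of `x_i + x_j`, as `± y ^ e` -/
def sm (L : ℕ) (c : ℕ → Bool) (i j : ℕ) : Option (ℤ × Bool) :=
  if i ≤ L ∧ j ≤ L then
    if c i = c j then some (1, c i)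
    else
      match dif L c L (i + 1) (j + 1) with
      | none => none
      | some v => some (v.1 - 1, xor v.2 (c i))
  else none

/-- monomials in the sums: the list of the triples `(i, j, m)` stands for the product of the
`(x_i + x_j) ^ m` -/
abbrev Mon := List (ℕ × ℕ × ℤ)

/-- the value of a monomial at the position `p` -/
def mv (x : ℕ → ℚ) (p : ℕ) (f : Mon) : ℚ :=
  (f.map fun t => (x (p + t.1) + x (p + t.2.1)) ^ t.2.2).prod

/-- the evaluation of a monomial -/
def ev (L : ℕ) (c : ℕ → Bool) : Mon → Option (ℤ × Bool)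
  | [] => some (0, false)
  | t :: f =>
    match sm L c t.1 t.2.1 with
    | none => none
    | some v =>
      match ev L c f with
      | none => none
      | some w => some (t.2.2 * v.1 + w.1, xor (decide (t.2.2 % 2 = 1) && v.2) w.2)

/-- the sign of a point: whether it is not near `x_0` -/
noncomputable def cl (r : ℕ) (x : ℕ → ℚ) (i : ℕ) : Bool := decide (¬ padicNorm r (x i - x 0) ≤ 1)

namespace Cyc

variable {c : ℚ} {n : ℕ} {x : ℕ → ℚ} {D : ℕ}

section eval

variable (h : Cyc c n x) (hn : 3 ≤ n) (hc : c.den = D ^ 2) (hD : D ≠ 0)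

include h hn hc hD

theorem near {r : ℕ} [hr : Fact r.Prime] (hrD : r ∣ D) (i : ℕ) :
    padicNorm r (x i - sg (cl r x i) * x 0) ≤ 1 := by
  unfold cl
  by_cases hi : padicNorm r (x i - x 0) ≤ 1
  · simp only [hi, not_true_eq_false, decide_false, sg, Bool.false_eq_true, if_false, one_mul]
  · have h0 : ¬ i ≡ 0 [MOD n] := by
      intro e
      rw [h.congr e, sub_self, padicNorm.zero] at hi
      exact hi zero_le_one
    have h1 := (h.sub_or_add_le (by omega) hc hD hrD h0).resolve_left hi
    simp only [hi, not_false_eq_true, decide_true, sg, if_true, neg_mul, one_mul, sub_neg_eq_add]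
    exact h1

theorem norm_y {r : ℕ} [hr : Fact r.Prime] (hrD : r ∣ D) : padicNorm r (2 * x 0) = B D r := by
  rw [padicNorm.mul, h.B_eq (by omega) hc hD hrD]

theorem y_ne {r : ℕ} [hr : Fact r.Prime] (hrD : r ∣ D) : 2 * x 0 ≠ 0 := by
  intro h0
  have h1 := h.norm_y hn hc hD hrD
  rw [h0, padicNorm.zero] at h1
  exact (B_pos D hr.out).ne h1

theorem ap_add {r : ℕ} [hr : Fact r.Prime] (hrD : r ∣ D) {i j : ℕ}
    (hij : cl r x i = cl r x j) : Ap r (B D r) (x i + x j) (sg (cl r x i) * (2 * x 0)) := by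
  refine ⟨mul_ne_zero (sg_ne _) (h.y_ne hn hc hD hrD), ?_⟩
  rw [padicNorm.mul, norm_sg, one_mul, h.norm_y hn hc hD hrD]
  have e : x i + x j - sg (cl r x i) * (2 * x 0) =
      (x i - sg (cl r x i) * x 0) + (x j - sg (cl r x j) * x 0) := by
    rw [hij]
    ring
  have h1 : padicNorm r (x i + x j - sg (cl r x i) * (2 * x 0)) ≤ 1 := by
    rw [e]
    exact norm_add_le _ _ (h.near hn hc hD hrD i) (h.near hn hc hD hrD j)
  have := B_pos D hr.out
  nlinarith

theorem ap_sub {r : ℕ} [hr : Fact r.Prime] (hrD : r ∣ D) {i j : ℕ}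
    (hij : cl r x i ≠ cl r x j) : Ap r (B D r) (x i - x j) (sg (cl r x i) * (2 * x 0)) := by
  refine ⟨mul_ne_zero (sg_ne _) (h.y_ne hn hc hD hrD), ?_⟩
  rw [padicNorm.mul, norm_sg, one_mul, h.norm_y hn hc hD hrD]
  have e : x i - x j - sg (cl r x i) * (2 * x 0) =
      (x i - sg (cl r x i) * x 0) - (x j - sg (cl r x j) * x 0) := by
    have h2 : cl r x j = !(cl r x i) := by
      cases h3 : cl r x i <;> cases h4 : cl r x j <;> simp_all
    rw [h2, sg_not]
    ring
  have h1 : padicNorm r (x i - x j - sg (cl r x i) * (2 * x 0)) ≤ 1 := by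
    rw [e]
    exact norm_sub_le _ _ (h.near hn hc hD hrD i) (h.near hn hc hD hrD j)
  have := B_pos D hr.out
  nlinarith

theorem ap_dif {r : ℕ} [hr : Fact r.Prime] (hrD : r ∣ D) (hB : 1 < B D r) {L : ℕ} {w : ℕ → Bool}
    {p : ℕ} (hw : ∀ t ≤ L, w t = cl r x (p + t)) (k : ℕ) : ∀ (i j : ℕ) (v : ℤ × Bool),
    dif L w k i j = some v → Ap r (B D r) (x (p + i) - x (p + j)) (vl (2 * x 0) v) := by
  have hy := h.y_ne hn hc hD hrD
  induction k with
  | zero => intro i j v hv; simp [dif] at hv
  | succ k ih =>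
    intro i j v hv
    simp only [dif] at hv
    split_ifs at hv with h1 h2
    · have h3 : cl r x (p + i) = cl r x (p + j) := by rw [← hw i h1.1, ← hw j h1.2, h2]
      cases h4 : dif L w k (i + 1) (j + 1) with
      | none => rw [h4] at hv; simp at hv
      | some u =>
        rw [h4] at hv
        simp only [Option.some.injEq] at hv
        have h5 := ih _ _ _ h4
        have h6 := h.ap_add hn hc hD hrD h3
        have h7 := h5.mul hB (h6.inv hB)
        have h8 : x (p + (i + 1)) - x (p + (j + 1)) =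
            (x (p + i) + x (p + j)) * (x (p + i) - x (p + j)) := by
          rw [h.mul_eq]
          rfl
        have h9 := h6.ne_zero hB
        have h10 : (x (p + (i + 1)) - x (p + (j + 1))) * (x (p + i) + x (p + j))⁻¹ =
            x (p + i) - x (p + j) := by
          rw [h8]
          field_simp
        rw [h10] at h7
        have h11 : vl (2 * x 0) u * (sg (cl r x (p + i)) * (2 * x 0))⁻¹ = vl (2 * x 0) v := by
          have h12 : sg (cl r x (p + i)) * (2 * x 0) = vl (2 * x 0) (1, cl r x (p + i)) := by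
            simp [vl]
          rw [h12, vl_inv, vl_mul hy, ← hv, hw i h1.1]
          rfl
        rwa [h11] at h7
    · have h3 : cl r x (p + i) ≠ cl r x (p + j) := by rw [← hw i h1.1, ← hw j h1.2]; exact h2
      simp only [Option.some.injEq] at hv
      have h6 := h.ap_sub hn hc hD hrD h3
      have h12 : sg (cl r x (p + i)) * (2 * x 0) = vl (2 * x 0) v := by
        rw [← hv, ← hw i h1.1]
        simp [vl]
      rwa [h12] at h6

theorem ap_sm {r : ℕ} [hr : Fact r.Prime] (hrD : r ∣ D) (hB : 1 < B D r) {L : ℕ} {w : ℕ → Bool}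
    {p : ℕ} (hw : ∀ t ≤ L, w t = cl r x (p + t)) (i j : ℕ) (v : ℤ × Bool)
    (hv : sm L w i j = some v) : Ap r (B D r) (x (p + i) + x (p + j)) (vl (2 * x 0) v) := by
  have hy := h.y_ne hn hc hD hrD
  simp only [sm] at hv
  split_ifs at hv with h1 h2
  · have h3 : cl r x (p + i) = cl r x (p + j) := by rw [← hw i h1.1, ← hw j h1.2, h2]
    simp only [Option.some.injEq] at hv
    have h6 := h.ap_add hn hc hD hrD h3
    have h12 : sg (cl r x (p + i)) * (2 * x 0) = vl (2 * x 0) v := by
      rw [← hv, ← hw i h1.1]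
      simp [vl]
    rwa [h12] at h6
  · have h3 : cl r x (p + i) ≠ cl r x (p + j) := by rw [← hw i h1.1, ← hw j h1.2]; exact h2
    cases h4 : dif L w L (i + 1) (j + 1) with
    | none => rw [h4] at hv; simp at hv
    | some u =>
      rw [h4] at hv
      simp only [Option.some.injEq] at hv
      have h5 := h.ap_dif hn hc hD hrD hB hw L _ _ _ h4
      have h6 := h.ap_sub hn hc hD hrD h3
      have h7 := h5.mul hB (h6.inv hB)
      have h8 : x (p + (i + 1)) - x (p + (j + 1)) =
          (x (p + i) + x (p + j)) * (x (p + i) - x (p + j)) := by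
        rw [h.mul_eq]
        rfl
      have h9 := h6.ne_zero hB
      have h10 : (x (p + (i + 1)) - x (p + (j + 1))) * (x (p + i) - x (p + j))⁻¹ =
          x (p + i) + x (p + j) := by
        rw [h8]
        field_simp
      rw [h10] at h7
      have h11 : vl (2 * x 0) u * (sg (cl r x (p + i)) * (2 * x 0))⁻¹ = vl (2 * x 0) v := by
        have h12 : sg (cl r x (p + i)) * (2 * x 0) = vl (2 * x 0) (1, cl r x (p + i)) := by
          simp [vl]
        rw [h12, vl_inv, vl_mul hy, ← hv, hw i h1.1]
        rfl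
      rwa [h11] at h7

theorem ap_ev {r : ℕ} [hr : Fact r.Prime] (hrD : r ∣ D) (hB : 1 < B D r) {L : ℕ} {w : ℕ → Bool}
    {p : ℕ} (hw : ∀ t ≤ L, w t = cl r x (p + t)) (f : Mon) : ∀ (v : ℤ × Bool),
    ev L w f = some v → Ap r (B D r) (mv x p f) (vl (2 * x 0) v) := by
  have hy := h.y_ne hn hc hD hrD
  induction f with
  | nil =>
    intro v hv
    simp only [ev, Option.some.injEq] at hv
    have e1 : mv x p [] = 1 := by simp [mv]
    have e2 : vl (2 * x 0) v = 1 := by
      rw [← hv]
      simp [vl, sg]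
    rw [e1, e2]
    exact Ap.refl one_ne_zero
  | cons t f ih =>
    intro v hv
    simp only [ev] at hv
    cases h1 : sm L w t.1 t.2.1 with
    | none => rw [h1] at hv; simp at hv
    | some u =>
      rw [h1] at hv
      simp only at hv
      cases h2 : ev L w f with
      | none => rw [h2] at hv; simp at hv
      | some u' =>
        rw [h2] at hv
        simp only [Option.some.injEq] at hv
        have h3 := (h.ap_sm hn hc hD hrD hB hw _ _ _ h1).zpow hB t.2.2
        have h4 := ih _ h2
        have h5 := h3.mul hB h4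
        rw [vl_zpow, vl_mul hy] at h5
        have e1 : mv x p (t :: f) = (x (p + t.1) + x (p + t.2.1)) ^ t.2.2 * mv x p f := by
          simp [mv]
        rw [e1, ← hv]
        exact h5

end eval

end Cyc

end Pool.Agent.Poonen40
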