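import Pool.Agent.Poonen40.Cover

/-!
# The averaging argument, and cycles of length `3`
-/

set_option autoImplicit false

open scoped Classical

namespace Pool.Agent.Poonen40

/-- a telescoping sum along a cycle -/
theorem sum_window {n : ℕ} {w ψ : ℕ → ℕ} {a : ℕ} (h : ∀ p, a + ψ (p + 1) ≤ w p + ψ p)
    (hper : ψ n = ψ 0) : a * n ≤ ∑ p ∈ Finset.range n, w p := by
  have key : ∀ m, a * m + ψ m ≤ ∑ p ∈ Finset.range m, w p + ψ 0 := by
    intro m
    induction m with
    | zero => simp
    | succ m ih =>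
      rw [Finset.sum_range_succ]
      have := h m
      have e : a * (m + 1) = a * m + a := by ring
      omega
  have := key n
  omega

namespace Cyc

variable {c : ℚ} {n : ℕ} {x : ℕ → ℚ} {D : ℕ}

theorem sum_wt (h : Cyc c n x) (r : ℕ) :
    5 * n ≤ ∑ p ∈ Finset.range n, wt (wd r x p) := by
  apply sum_window (ψ := fun p => ph (cl r x p) (cl r x (p + 1)) (cl r x (p + 2)) (cl r x (p + 3))
    (cl r x (p + 4)) (cl r x (p + 5)) (cl r x (p + 6)))
  · intro p
    exact chk_avg (cl r x p) (cl r x (p + 1)) (cl r x (p + 2)) (cl r x (p + 3)) (cl r x (p + 4))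
      (cl r x (p + 5)) (cl r x (p + 6)) (cl r x (p + 7))
  · have e : ∀ i, cl r x (n + i) = cl r x (0 + i) := by
      intro i
      rw [Nat.add_comm n i, cl_per h, Nat.zero_add]
    have e0 : cl r x n = cl r x 0 := e 0
    show ph (cl r x n) (cl r x (n + 1)) (cl r x (n + 2)) (cl r x (n + 3)) (cl r x (n + 4))
      (cl r x (n + 5)) (cl r x (n + 6)) = ph (cl r x 0) (cl r x (0 + 1)) (cl r x (0 + 2))
      (cl r x (0 + 3)) (cl r x (0 + 4)) (cl r x (0 + 5)) (cl r x (0 + 6))
    rw [e0, e 1, e 2, e 3, e 4, e 5, e 6]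

section avg

variable (h : Cyc c n x) (hn : 5 ≤ n) (hc : c.den = D ^ 2) (hD : D ≠ 0)

include h hn hc hD

theorem rl_mon {p : ℕ} {f : Mon} (hf : ∀ t ∈ f, ¬ p + t.1 ≡ p + t.2.1 [MOD n])
    (hdeg : mdeg f ≤ 4) (h1 : mv x p f ≠ 1) (h2 : mv x p f ≠ -1) :
    Rl D ((At D).filter fun r => zr (ev 7 (wd r x p) f) = true) :=
  h.rl_of (by omega) hc hD hf hdeg h1 h2 (Finset.filter_subset _ _)
    fun _ hr => (Finset.mem_filter.mp hr).2

/-- cycles of length at least `5` -/
theorem exists_group5 (hA : (At D).Nonempty) :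
    ∃ S ⊆ At D, Rl D S ∧ 5 * mu D (At D) ≤ 14 * mu D S := by
  have hpos := mu_pos hD (At_subset D) hA
  by_contra hcon
  push Not at hcon
  have hno : ¬ ∃ S ⊆ At D, Rl D S ∧ mu D (At D) ≤ 2 * mu D S := by
    rintro ⟨S, hS, h1, h2⟩
    have := hcon S hS h1
    linarith
  have hq : ∀ p i j, nr i j = true → ¬ p + i ≡ p + j [MOD n] :=
    fun p i j hij => not_modEq_of_nr hn hij
  -- the four groups at a position
  set S1 : ℕ → Finset ℕ := fun p => (At D).filter fun r => zr (ev 7 (wd r x p) f1) = true with hS1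
  set S2 : ℕ → Finset ℕ := fun p => (At D).filter fun r => zr (ev 7 (wd r x p) f2) = true with hS2
  set S3 : ℕ → Finset ℕ := fun p => (At D).filter fun r => zp (ev 7 (wd r x p) f3) = true with hS3
  set S5 : ℕ → Finset ℕ := fun p => (At D).filter fun r => zr (ev 7 (wd r x p) f5) = true with hS5
  have b1 : ∀ p, 14 * mu D (S1 p) < 5 * mu D (At D) := by
    intro p
    apply hcon (S1 p) (Finset.filter_subset _ _)
    apply h.rl_mon hn hc hD
    · intro t ht
      simp only [f1, List.mem_cons, List.not_mem_nil, or_false] at ht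
      rcases ht with rfl | rfl | rfl <;> exact hq _ _ _ (by decide)
    · simp [mdeg, f1]
    · intro h1
      exact hno (h.exc_f1_pos hn hc hD hA h1)
    · intro h1
      exact hno (h.exc_neg hn hc hD hA (Or.inl h1))
  have b2 : ∀ p, 14 * mu D (S2 p) < 5 * mu D (At D) := by
    intro p
    apply hcon (S2 p) (Finset.filter_subset _ _)
    apply h.rl_mon hn hc hD
    · intro t ht
      simp only [f2, List.mem_cons, List.not_mem_nil, or_false] at ht
      rcases ht with rfl | rfl | rfl <;> exact hq _ _ _ (by decide)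
    · simp [mdeg, f2]
    · intro h1
      exact hno (h.exc_f2_pos hn hc hD hA h1)
    · intro h1
      exact hno (h.exc_neg hn hc hD hA (Or.inr (Or.inl h1)))
  have b5 : ∀ p, 14 * mu D (S5 p) < 5 * mu D (At D) := by
    intro p
    apply hcon (S5 p) (Finset.filter_subset _ _)
    apply h.rl_mon hn hc hD
    · intro t ht
      simp only [f5, List.mem_cons, List.not_mem_nil, or_false] at ht
      rcases ht with rfl | rfl | rfl <;> exact hq _ _ _ (by decide)
    · simp [mdeg, f5]
    · intro h1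
      exact hno (h.exc_f5_pos hn hc hD hA h1)
    · intro h1
      exact hno (h.exc_neg hn hc hD hA (Or.inr (Or.inr h1)))
  have b3 : ∀ p, 14 * mu D (S3 p) < 5 * mu D (At D) := by
    intro p
    by_cases hne : (S3 p).Nonempty
    · exact hcon (S3 p) (Finset.filter_subset _ _)
        (h.rl_rt hn hc hD (p := p) (by decide) (Finset.filter_subset _ _) hne
          fun _ hr => (Finset.mem_filter.mp hr).2)
    · rw [Finset.not_nonempty_iff_eq_empty] at hne
      rw [hne]
      simp only [mu, Finset.sum_empty, mul_zero]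
      exact mul_pos (by norm_num) hpos
  -- the sum over the positions
  have key : ∀ p, 6 * mu D (S1 p) + 3 * mu D (S2 p) + 4 * mu D (S3 p) + mu D (S5 p) =
      ∑ r ∈ At D, Real.log (Bn D r) * (wt (wd r x p) : ℝ) := by
    intro p
    simp only [mu, hS1, hS2, hS3, hS5, Finset.sum_filter, Finset.mul_sum]
    rw [← Finset.sum_add_distrib, ← Finset.sum_add_distrib, ← Finset.sum_add_distrib]
    apply Finset.sum_congr rfl
    intro r _
    unfold wt
    push_cast
    split_ifs <;> ring
  have hsum : ∑ p ∈ Finset.range n, (6 * mu D (S1 p) + 3 * mu D (S2 p) + 4 * mu D (S3 p) +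
      mu D (S5 p)) = ∑ r ∈ At D, Real.log (Bn D r) *
        ((∑ p ∈ Finset.range n, wt (wd r x p) : ℕ) : ℝ) := by
    simp only [key]
    rw [Finset.sum_comm]
    apply Finset.sum_congr rfl
    intro r _
    push_cast
    rw [Finset.mul_sum]
  have hge : 5 * n * mu D (At D) ≤ ∑ p ∈ Finset.range n, (6 * mu D (S1 p) + 3 * mu D (S2 p) +
      4 * mu D (S3 p) + mu D (S5 p)) := by
    rw [hsum, mu, Finset.mul_sum]
    apply Finset.sum_le_sum
    intro r hr
    have h1 := log_Bn_pos hD (At_subset D hr)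
    have h2 : ((5 * n : ℕ) : ℝ) ≤ ((∑ p ∈ Finset.range n, wt (wd r x p) : ℕ) : ℝ) := by
      exact_mod_cast h.sum_wt r
    rw [mul_comm]
    apply mul_le_mul_of_nonneg_left _ h1.le
    push_cast at h2 ⊢
    exact h2
  have hlt : ∑ p ∈ Finset.range n, (6 * mu D (S1 p) + 3 * mu D (S2 p) +
      4 * mu D (S3 p) + mu D (S5 p)) < ∑ p ∈ Finset.range n, 5 * mu D (At D) := by
    apply Finset.sum_lt_sum_of_nonempty
    · rw [Finset.nonempty_range_iff]
      omega
    · intro p _
      have := b1 p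
      have := b2 p
      have := b3 p
      have := b5 p
      linarith
  rw [Finset.sum_const, Finset.card_range, nsmul_eq_mul] at hlt
  linarith

end avg

/-! ### cycles of length `3` -/

theorem chk_three : ∀ b0 b1 b2 : Bool, ¬ (b0 = b1 ∧ b1 = b2) →
    (ev 7 (c8 b0 b1 b2 b0 b1 b2 b0 b1) [(0, 1, 1)] = some (0, true) ∨
      ev 7 (c8 b1 b2 b0 b1 b2 b0 b1 b2) [(0, 1, 1)] = some (0, true) ∨
      ev 7 (c8 b2 b0 b1 b2 b0 b1 b2 b0) [(0, 1, 1)] = some (0, true)) := by decide +kernel

section three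

variable (h : Cyc c 3 x) (hc : c.den = D ^ 2) (hD : D ≠ 0)

include h hc hD

theorem not_all_eq {r : ℕ} (hrA : r ∈ At D) :
    ¬ (cl r x 0 = cl r x 1 ∧ cl r x 1 = cl r x 2) := by
  rintro ⟨h1, h2⟩
  obtain ⟨k1, k2, k3, k4⟩ := mem_At hD hrA
  have hr : Fact r.Prime := ⟨k1⟩
  have a1 := (h.ap_add le_rfl hc hD k2 h1).norm_eq k3
  have a2 := (h.ap_add le_rfl hc hD k2 h2).norm_eq k3
  have a3 := (h.ap_add le_rfl hc hD k2 (h2.symm.trans h1.symm)).norm_eq k3
  rw [padicNorm.mul, norm_sg, one_mul, h.norm_y le_rfl hc hD k2] at a1 a2 a3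
  have e1 : (x 0 + x 1) * (x 0 - x 1) = x 1 - x 2 := h.mul_eq 0 1
  have e2 : (x 1 + x 2) * (x 1 - x 2) = x 2 - x 0 := by
    have h3 := h.mul_eq 1 2
    have h4 : x (2 + 1) = x 0 := h.per 0
    rw [h4] at h3
    exact h3
  have e3 : (x 2 + x 0) * (x 2 - x 0) = x 0 - x 1 := by
    have h3 := h.mul_eq 2 0
    have h4 : x (2 + 1) = x 0 := h.per 0
    rw [h4] at h3
    exact h3
  have hne : x 0 - x 1 ≠ 0 := h.sub_ne_zero' (by decide)
  have e4 : (x 0 + x 1) * (x 1 + x 2) * (x 2 + x 0) = 1 := by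
    have e5 : ((x 0 + x 1) * (x 1 + x 2) * (x 2 + x 0) - 1) * (x 0 - x 1) = 0 := by
      linear_combination ((x 1 + x 2) * (x 2 + x 0)) * e1 + (x 2 + x 0) * e2 + e3
    rcases mul_eq_zero.mp e5 with e6 | e6
    · linarith
    · exact absurd e6 hne
  have e5 := congrArg (padicNorm r) e4
  rw [padicNorm.mul, padicNorm.mul, a1, a2, a3, padicNorm.one] at e5
  nlinarith [mul_pos (show (0 : ℚ) < B D r by linarith) (show (0 : ℚ) < B D r by linarith)]

/-- cycles of length `3` -/
theorem exists_group3 (hA : (At D).Nonempty) :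
    ∃ S ⊆ At D, Rl D S ∧ mu D (At D) ≤ 3 * mu D S := by
  have hpos := mu_pos hD (At_subset D) hA
  set F : Mon := [(0, 1, 1)] with hF
  set S : ℕ → Finset ℕ := fun i => (At D).filter fun r => ev 7 (wd r x i) F = some (0, true) with hS
  have hsub : ∀ i, S i ⊆ At D := fun i => Finset.filter_subset _ _
  have hcov : At D = S 0 ∪ (S 1 ∪ S 2) := by
    apply subset_antisymm _ (Finset.union_subset (hsub 0) (Finset.union_subset (hsub 1) (hsub 2)))
    intro r hr
    have h1 := chk_three _ _ _ (h.not_all_eq hc hD hr)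
    have p3 : ∀ i, cl r x (i + 3) = cl r x i := fun i => cl_per h r i
    have w0 : wd r x 0 = c8 (cl r x 0) (cl r x 1) (cl r x 2) (cl r x 0) (cl r x 1) (cl r x 2)
        (cl r x 0) (cl r x 1) := by
      unfold wd
      simp only [Nat.zero_add]
      rw [show cl r x 3 = cl r x 0 from p3 0, show cl r x 4 = cl r x 1 from p3 1,
        show cl r x 5 = cl r x 2 from p3 2, show cl r x 6 = cl r x 3 from p3 3,
        show cl r x 7 = cl r x 4 from p3 4, show cl r x 3 = cl r x 0 from p3 0,
        show cl r x 4 = cl r x 1 from p3 1]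
    have w1 : wd r x 1 = c8 (cl r x 1) (cl r x 2) (cl r x 0) (cl r x 1) (cl r x 2) (cl r x 0)
        (cl r x 1) (cl r x 2) := by
      unfold wd
      simp only [Nat.reduceAdd]
      rw [show cl r x 8 = cl r x 5 from p3 5, show cl r x 7 = cl r x 4 from p3 4,
        show cl r x 6 = cl r x 3 from p3 3, show cl r x 5 = cl r x 2 from p3 2,
        show cl r x 4 = cl r x 1 from p3 1, show cl r x 3 = cl r x 0 from p3 0]
    have w2 : wd r x 2 = c8 (cl r x 2) (cl r x 0) (cl r x 1) (cl r x 2) (cl r x 0) (cl r x 1)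
        (cl r x 2) (cl r x 0) := by
      unfold wd
      simp only [Nat.reduceAdd]
      rw [show cl r x 9 = cl r x 6 from p3 6, show cl r x 8 = cl r x 5 from p3 5,
        show cl r x 7 = cl r x 4 from p3 4, show cl r x 6 = cl r x 3 from p3 3,
        show cl r x 5 = cl r x 2 from p3 2, show cl r x 4 = cl r x 1 from p3 1,
        show cl r x 3 = cl r x 0 from p3 0]
    rw [← w0, ← w1, ← w2] at h1
    simp only [Finset.mem_union, hS, Finset.mem_filter, hr, true_and]
    exact h1
  have hrl : ∀ i, (S i).Nonempty → Rl D (S i) := by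
    intro i hne
    have hmod : ¬ i + 0 ≡ i + 1 [MOD 3] := by
      intro e
      have e2 : 0 ≡ 1 [MOD 3] := Nat.ModEq.add_left_cancel' i e
      exact absurd e2 (by decide)
    have e1 : mv x i F = x i + x (i + 1) := by simp [mv, hF]
    refine h.rl_of le_rfl hc hD (f := F) (p := i) ?_ (by simp [mdeg, hF]) ?_ ?_ (hsub i) ?_
    · intro t ht
      simp only [hF, List.mem_cons, List.not_mem_nil, or_false] at ht
      subst ht
      exact hmod
    · intro h1
      obtain ⟨r, hr⟩ := hne
      have h2 := (Finset.mem_filter.mp hr).2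
      have h3 := h.okv_of_eq le_rfl hc hD (hsub i hr) (p := i) (f := F) (s := false)
        (by simpa [sg] using h1)
      rw [h2] at h3
      simp [okv] at h3
    · rw [e1]
      intro h1
      have h2 := (h.shift i).a_ne le_rfl
      apply h2
      rw [Nat.zero_add, Nat.add_comm 1 i, h1]
      norm_num
    · intro r hr
      have h2 := (Finset.mem_filter.mp hr).2
      rw [h2]
      rfl
  have hle : mu D (At D) ≤ mu D (S 0) + (mu D (S 1) + mu D (S 2)) := by
    have h1 : mu D (S 0 ∪ (S 1 ∪ S 2)) ≤ mu D (S 0) + mu D (S 1 ∪ S 2) :=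
      mu_union_le hD ((hsub 0).trans (At_subset D))
    have h2 : mu D (S 1 ∪ S 2) ≤ mu D (S 1) + mu D (S 2) :=
      mu_union_le hD ((hsub 1).trans (At_subset D))
    rw [← hcov] at h1
    linarith
  by_contra hcon
  push Not at hcon
  have hb : ∀ i, 3 * mu D (S i) < mu D (At D) := by
    intro i
    by_cases hne : (S i).Nonempty
    · exact hcon (S i) (hsub i) (hrl i hne)
    · rw [Finset.not_nonempty_iff_eq_empty] at hne
      rw [hne]
      simpa [mu] using hpos
  have := hb 0
  have := hb 1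
  have := hb 2
  linarith

end three

end Cyc

end Pool.Agent.Poonen40
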