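import Pool.Agent.Poonen40.Exc

/-!
# Counting the exceptional denominators
-/

set_option autoImplicit false

open scoped Classical
open Finset

namespace Pool.Agent.Poonen40

theorem card_rootsOf_le {R n K : ℕ} (hω : R.primeFactors.card ≤ K) (hn : n ≤ 2 ^ (K + 1)) :
    (rootsOf R n).card ≤ 2 ^ (3 * K ^ 2 + 8 * K + 6) := by
  have h1 : n + 1 ≤ 2 ^ (K + 2) := by
    have h2 : 2 ^ (K + 2) = 2 * 2 ^ (K + 1) := by ring
    have h3 : 1 ≤ 2 ^ (K + 1) := Nat.one_le_two_pow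
    omega
  have hU : (U R n).card ≤ 2 ^ (K * (K + 2) + 1) := by
    calc (U R n).card ≤ (n + 1) ^ R.primeFactors.card * 2 := card_U R n
      _ ≤ (n + 1) ^ K * 2 := Nat.mul_le_mul_right _ (Nat.pow_le_pow_right (by omega) hω)
      _ ≤ (2 ^ (K + 2)) ^ K * 2 := Nat.mul_le_mul_right _ (Nat.pow_le_pow_left h1 K)
      _ = 2 ^ (K * (K + 2) + 1) := by
        rw [← pow_mul, pow_succ, mul_comm (K + 2) K]
  have h2 : 2 + n * n ≤ 2 ^ (2 * K + 3) := by
    have h3 : n * n ≤ 2 ^ (K + 1) * 2 ^ (K + 1) := Nat.mul_le_mul hn hn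
    have h4 : 2 ^ (2 * K + 3) = 2 ^ (K + 1) * 2 ^ (K + 1) + 2 ^ (K + 1) * 2 ^ (K + 1) := by ring
    have h5 : 2 ≤ 2 ^ (K + 1) := by
      calc 2 = 2 ^ 1 := (pow_one 2).symm
        _ ≤ 2 ^ (K + 1) := Nat.pow_le_pow_right (by norm_num) (by omega)
    have h6 : 2 * 1 ≤ 2 ^ (K + 1) * 2 ^ (K + 1) := Nat.mul_le_mul h5 (by omega)
    omega
  calc (rootsOf R n).card ≤ (U R n).card ^ 3 * (2 + n * n) := card_rootsOf R n
    _ ≤ (2 ^ (K * (K + 2) + 1)) ^ 3 * 2 ^ (2 * K + 3) :=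
        Nat.mul_le_mul (Nat.pow_le_pow_left hU 3) h2
    _ = 2 ^ (3 * K ^ 2 + 8 * K + 6) := by
        rw [← pow_mul, ← pow_add]
        congr 1
        ring

/-- the possible exceptional denominators coming from `R` -/
noncomputable def cand (K R : ℕ) : Finset ℚ :=
  (range (2 ^ (K + 1) + 1)).biUnion fun n =>
    (rootsOf R n).biUnion fun b => {(R : ℚ) * b, (R : ℚ) * (2 * b)}

theorem card_cand {K R : ℕ} (hω : R.primeFactors.card ≤ K) :
    (cand K R).card ≤ 2 ^ (3 * K ^ 2 + 9 * K + 9) := by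
  unfold cand
  refine (card_biUnion_le_card_mul _ _ (2 ^ (3 * K ^ 2 + 8 * K + 6) * 2) ?_).trans ?_
  · intro n hn
    have hn' : n ≤ 2 ^ (K + 1) := by
      have := mem_range.mp hn
      omega
    refine (card_biUnion_le_card_mul _ _ 2 ?_).trans ?_
    · intro b _
      exact card_le_two
    · exact Nat.mul_le_mul_right _ (card_rootsOf_le hω hn')
  · rw [card_range]
    have h1 : 2 ^ (K + 1) + 1 ≤ 2 ^ (K + 2) := by
      have h2 : 2 ^ (K + 2) = 2 * 2 ^ (K + 1) := by ring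
      have h3 : 1 ≤ 2 ^ (K + 1) := Nat.one_le_two_pow
      omega
    calc (2 ^ (K + 1) + 1) * (2 ^ (3 * K ^ 2 + 8 * K + 6) * 2)
        ≤ 2 ^ (K + 2) * (2 ^ (3 * K ^ 2 + 8 * K + 6) * 2) := Nat.mul_le_mul_right _ h1
      _ = 2 ^ (3 * K ^ 2 + 9 * K + 9) := by ring

theorem card_small (N : ℕ) {K : ℕ} (hK : 1 ≤ K) :
    ((Icc 1 N).filter (fun D => 3 ≤ D ∧ Exc D ∧ D.primeFactors.card ≤ K)).card ≤
      ((Icc 1 N).filter (fun R => R ^ K ≤ N ^ (K - 1))).card * 2 ^ (3 * K ^ 2 + 9 * K + 9) := by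
  set S := (Icc 1 N).filter (fun D => 3 ≤ D ∧ Exc D ∧ D.primeFactors.card ≤ K) with hS
  set T := (Icc 1 N).filter (fun R => R ^ K ≤ N ^ (K - 1) ∧ R.primeFactors.card ≤ K) with hT
  have h1 : S.card = (S.image (fun D : ℕ => (D : ℚ))).card :=
    (card_image_of_injective _ Nat.cast_injective).symm
  have h2 : S.image (fun D : ℕ => (D : ℚ)) ⊆ T.biUnion (cand K) := by
    intro z hz
    rw [mem_image] at hz
    obtain ⟨D, hD, rfl⟩ := hz
    rw [hS, mem_filter, mem_Icc] at hD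
    obtain ⟨⟨_, hDN⟩, h3, hE, hω⟩ := hD
    obtain ⟨R, n, hR1, hRK, hRω, hRD, hn, b, hb, hor⟩ := exc_structure h3 hE hK hω
    rw [mem_biUnion]
    refine ⟨R, ?_, ?_⟩
    · rw [hT, mem_filter, mem_Icc]
      exact ⟨⟨hR1, hRD.trans hDN⟩, hRK.trans (Nat.pow_le_pow_left hDN _), hRω⟩
    · unfold cand
      rw [mem_biUnion]
      refine ⟨n, mem_range.mpr (by omega), ?_⟩
      rw [mem_biUnion]
      refine ⟨b, hb, ?_⟩
      rw [mem_insert, mem_singleton]
      exact hor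
  have h3 : (T.biUnion (cand K)).card ≤ T.card * 2 ^ (3 * K ^ 2 + 9 * K + 9) := by
    apply card_biUnion_le_card_mul
    intro R hR
    rw [hT, mem_filter] at hR
    exact card_cand hR.2.2
  have h4 : T.card ≤ ((Icc 1 N).filter (fun R => R ^ K ≤ N ^ (K - 1))).card := by
    apply card_le_card
    intro R hR
    rw [hT, mem_filter] at hR
    rw [mem_filter]
    exact ⟨hR.1, hR.2.1⟩
  calc S.card = (S.image (fun D : ℕ => (D : ℚ))).card := h1
    _ ≤ (T.biUnion (cand K)).card := card_le_card h2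
    _ ≤ T.card * 2 ^ (3 * K ^ 2 + 9 * K + 9) := h3
    _ ≤ _ := Nat.mul_le_mul_right _ h4

theorem card_root (N : ℕ) {K : ℕ} (hK : 1 ≤ K) :
    (((Icc 1 N).filter (fun R => R ^ K ≤ N ^ (K - 1))).card : ℝ) ≤ (N : ℝ) ^ (1 - 1 / (K : ℝ)) := by
  have hK0 : (0 : ℝ) < K := by exact_mod_cast hK
  have h1 : (Icc 1 N).filter (fun R => R ^ K ≤ N ^ (K - 1)) ⊆
      Icc 1 ⌊(N : ℝ) ^ (1 - 1 / (K : ℝ))⌋₊ := by
    intro R hR
    rw [mem_filter, mem_Icc] at hR
    obtain ⟨⟨hR1, _⟩, hRK⟩ := hR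
    rw [mem_Icc]
    refine ⟨hR1, Nat.le_floor ?_⟩
    have h2 : ((R : ℝ)) ^ K ≤ (N : ℝ) ^ (K - 1) := by exact_mod_cast hRK
    have h3 : (R : ℝ) = ((R : ℝ) ^ K) ^ (1 / (K : ℝ)) := by
      rw [← Real.rpow_natCast, ← Real.rpow_mul (Nat.cast_nonneg R), mul_one_div_cancel hK0.ne',
        Real.rpow_one]
    rw [h3]
    calc ((R : ℝ) ^ K) ^ (1 / (K : ℝ)) ≤ ((N : ℝ) ^ (K - 1)) ^ (1 / (K : ℝ)) :=
          Real.rpow_le_rpow (by positivity) h2 (by positivity)
      _ = (N : ℝ) ^ (1 - 1 / (K : ℝ)) := by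
          rw [← Real.rpow_natCast, ← Real.rpow_mul (Nat.cast_nonneg N)]
          congr 1
          rw [Nat.cast_sub hK]
          field_simp
          push_cast
          ring
  calc (((Icc 1 N).filter (fun R => R ^ K ≤ N ^ (K - 1))).card : ℝ)
      ≤ ((Icc 1 ⌊(N : ℝ) ^ (1 - 1 / (K : ℝ))⌋₊).card : ℝ) := by exact_mod_cast card_le_card h1
    _ = (⌊(N : ℝ) ^ (1 - 1 / (K : ℝ))⌋₊ : ℝ) := by rw [Nat.card_Icc]; simp
    _ ≤ (N : ℝ) ^ (1 - 1 / (K : ℝ)) := Nat.floor_le (by positivity)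

/-! ### integers with many prime factors -/

theorem two_pow_le_card_divisors {D : ℕ} (hD : D ≠ 0) :
    2 ^ D.primeFactors.card ≤ D.divisors.card := by
  rw [Nat.card_divisors hD]
  apply Finset.pow_card_le_prod
  intro p hp
  have := (Nat.prime_of_mem_primeFactors hp).factorization_pos_of_dvd hD
    (Nat.dvd_of_mem_primeFactors hp)
  omega

theorem sum_card_divisors (N : ℕ) :
    ((∑ D ∈ Icc 1 N, D.divisors.card : ℕ) : ℝ) ≤ N * (1 + Real.log N) := by
  have h1 : ∑ D ∈ Icc 1 N, D.divisors.card = ∑ d ∈ Icc 1 N, N / d := by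
    have h2 : ∀ D ∈ Icc 1 N, D.divisors.card = ∑ d ∈ Icc 1 N, if d ∣ D then 1 else 0 := by
      intro D hD
      rw [mem_Icc] at hD
      rw [← card_filter]
      congr 1
      ext d
      rw [Nat.mem_divisors, mem_filter, mem_Icc]
      constructor
      · rintro ⟨h1, h2⟩
        exact ⟨⟨Nat.pos_of_dvd_of_pos h1 (by omega), (Nat.le_of_dvd (by omega) h1).trans hD.2⟩, h1⟩
      · rintro ⟨_, h1⟩
        exact ⟨h1, by omega⟩
    rw [sum_congr rfl h2, sum_comm]
    refine sum_congr rfl fun d hd => ?_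
    rw [← card_filter]
    have h3 := Nat.card_multiples N d
    rw [← h3]
    symm
    apply card_bij (fun e _ => e + 1)
    · intro e he
      rw [mem_filter, mem_range] at he
      rw [mem_filter, mem_Icc]
      exact ⟨⟨by omega, by omega⟩, he.2⟩
    · intro a _ b _ hab
      omega
    · intro D hD
      rw [mem_filter, mem_Icc] at hD
      refine ⟨D - 1, ?_, by omega⟩
      rw [mem_filter, mem_range]
      refine ⟨by omega, ?_⟩
      have : D - 1 + 1 = D := by omega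
      rw [this]
      exact hD.2
  rw [h1]
  have h2 : ((∑ d ∈ Icc 1 N, N / d : ℕ) : ℝ) ≤ ∑ d ∈ Icc 1 N, (N : ℝ) * (d : ℝ)⁻¹ := by
    push_cast
    refine sum_le_sum fun d _ => ?_
    rw [← div_eq_mul_inv]
    exact Nat.cast_div_le
  refine h2.trans ?_
  rw [← mul_sum]
  apply mul_le_mul_of_nonneg_left _ (Nat.cast_nonneg N)
  have h3 := harmonic_le_one_add_log N
  have h4 : ((harmonic N : ℚ) : ℝ) = ∑ d ∈ Icc 1 N, (d : ℝ)⁻¹ := by
    rw [harmonic_eq_sum_Icc]
    push_cast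
    rfl
  rw [← h4]
  exact h3

theorem card_tail (N K : ℕ) :
    (((Icc 1 N).filter (fun D => K < D.primeFactors.card)).card : ℝ) * 2 ^ (K + 1) ≤
      N * (1 + Real.log N) := by
  refine le_trans ?_ (sum_card_divisors N)
  have h1 : ((Icc 1 N).filter (fun D => K < D.primeFactors.card)).card * 2 ^ (K + 1) ≤
      ∑ D ∈ Icc 1 N, D.divisors.card := by
    calc ((Icc 1 N).filter (fun D => K < D.primeFactors.card)).card * 2 ^ (K + 1)
        = ∑ D ∈ (Icc 1 N).filter (fun D => K < D.primeFactors.card), 2 ^ (K + 1) := by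
          rw [sum_const, smul_eq_mul]
      _ ≤ ∑ D ∈ (Icc 1 N).filter (fun D => K < D.primeFactors.card), D.divisors.card := by
          refine sum_le_sum fun D hD => ?_
          rw [mem_filter, mem_Icc] at hD
          exact (Nat.pow_le_pow_right (by norm_num) hD.2).trans
            (two_pow_le_card_divisors (by omega))
      _ ≤ ∑ D ∈ Icc 1 N, D.divisors.card :=
          sum_le_sum_of_subset (filter_subset _ _)
  exact_mod_cast h1

/-- the number of exceptional denominators -/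
theorem count_le {N K : ℕ} (hK : 1 ≤ K) :
    (((Icc 1 N).filter Exc).card : ℝ) ≤
      2 + (N : ℝ) ^ (1 - 1 / (K : ℝ)) * 2 ^ (3 * K ^ 2 + 9 * K + 9) +
        N * (1 + Real.log N) / 2 ^ (K + 1) := by
  have h1 : (Icc 1 N).filter Exc ⊆
      (Icc 1 2 ∪ (Icc 1 N).filter (fun D => 3 ≤ D ∧ Exc D ∧ D.primeFactors.card ≤ K)) ∪
        (Icc 1 N).filter (fun D => K < D.primeFactors.card) := by
    intro D hD
    rw [mem_filter, mem_Icc] at hD
    rw [mem_union, mem_union, mem_Icc, mem_filter, mem_filter, mem_Icc]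
    by_cases h2 : D ≤ 2
    · left; left
      exact ⟨hD.1.1, h2⟩
    · by_cases h3 : D.primeFactors.card ≤ K
      · left; right
        exact ⟨hD.1, by omega, hD.2, h3⟩
      · right
        exact ⟨hD.1, by omega⟩
  have h2 := (card_le_card h1).trans ((card_union_le _ _).trans
    (Nat.add_le_add_right (card_union_le _ _) _))
  have h3 : (((Icc 1 N).filter Exc).card : ℝ) ≤
      ((Icc 1 2 : Finset ℕ).card : ℝ) +
      (((Icc 1 N).filter (fun D => 3 ≤ D ∧ Exc D ∧ D.primeFactors.card ≤ K)).card : ℝ) +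
      (((Icc 1 N).filter (fun D => K < D.primeFactors.card)).card : ℝ) := by
    exact_mod_cast h2
  refine h3.trans ?_
  have h4 : ((Icc 1 2 : Finset ℕ).card : ℝ) = 2 := by simp
  have h5 : (((Icc 1 N).filter (fun D => 3 ≤ D ∧ Exc D ∧ D.primeFactors.card ≤ K)).card : ℝ) ≤
      (N : ℝ) ^ (1 - 1 / (K : ℝ)) * 2 ^ (3 * K ^ 2 + 9 * K + 9) := by
    have h6 : (((Icc 1 N).filter (fun D => 3 ≤ D ∧ Exc D ∧ D.primeFactors.card ≤ K)).card : ℝ) ≤
        (((Icc 1 N).filter (fun R => R ^ K ≤ N ^ (K - 1))).card : ℝ) *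
          2 ^ (3 * K ^ 2 + 9 * K + 9) := by
      exact_mod_cast card_small N hK
    exact h6.trans (mul_le_mul_of_nonneg_right (card_root N hK) (by positivity))
  have h7 : (((Icc 1 N).filter (fun D => K < D.primeFactors.card)).card : ℝ) ≤
      N * (1 + Real.log N) / 2 ^ (K + 1) := by
    rw [le_div_iff₀ (by positivity)]
    exact card_tail N K
  linarith

end Pool.Agent.Poonen40
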