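import Pool.Agent.Poonen40.Window

/-!
# Cycles of length at least `5`: a group of large measure
-/

set_option autoImplicit false

open scoped Classical

namespace Pool.Agent.Poonen40

/-- the ratio `(x_a + x_b) / (x_a + x_d)` -/
def rt (a b d : ℕ) : Mon := [(a, b, 1), (a, d, -1)]

/-- the indices are different and near -/
def nr (i j : ℕ) : Bool := decide (i ≠ j ∧ i ≤ j + 4 ∧ j ≤ i + 4)

/-- the indices of a ratio are different and near -/
def nr3 (a b d : ℕ) : Bool := nr a b && nr a d && nr b d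

theorem not_modEq_of_nr {n p i j : ℕ} (hn : 5 ≤ n) (h : nr i j = true) :
    ¬ p + i ≡ p + j [MOD n] := by
  unfold nr at h
  rw [decide_eq_true_eq] at h
  obtain ⟨h1, h2, h3⟩ := h
  intro e
  have e2 : i ≡ j [MOD n] := Nat.ModEq.add_left_cancel' p e
  rw [Nat.modEq_iff_dvd] at e2
  have h4 : |(j : ℤ) - i| < n := by
    rw [abs_lt]
    constructor <;> omega
  have h5 := Int.eq_zero_of_abs_lt_dvd e2 h4
  omega

/-- the windows compatible with the exact values are covered by two ratios -/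
def Chk (cond : List (Mon × Bool)) (g g' : Mon) : Prop :=
  ∀ b0 b1 b2 b3 b4 b5 b6 b7 : Bool,
    (cond.all fun q => okv (ev 7 (c8 b0 b1 b2 b3 b4 b5 b6 b7) q.1) q.2) = true →
    (zp (ev 7 (c8 b0 b1 b2 b3 b4 b5 b6 b7) g) || zp (ev 7 (c8 b0 b1 b2 b3 b4 b5 b6 b7) g')) = true

instance (cond : List (Mon × Bool)) (g g' : Mon) : Decidable (Chk cond g g') := by
  unfold Chk
  infer_instance

/-- the first function -/
def f1 : Mon := [(0, 1, 1), (1, 2, 2), (0, 3, -1)]
/-- the second function -/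
def f2 : Mon := [(0, 1, 1), (1, 2, 1), (0, 2, -2)]
/-- the third function -/
def f3 : Mon := rt 1 0 2
/-- the fourth function -/
def f5 : Mon := [(0, 1, 1), (1, 3, 1), (0, 2, -1)]

theorem chk_s02 : Chk [([(0, 2, 1)], false)] (rt 3 2 4) (rt 0 1 4) := by decide +kernel

theorem chk_s03 : Chk [([(0, 3, 1)], false), ([(0, 4, 1), (1, 3, -1)], false)]
    (rt 2 3 4) (rt 0 1 2) := by decide +kernel

theorem chk_f1_pos : Chk [(f1, false), ([(0, 1, 1), (1, 2, 1)], false),
    ([(1, 2, 1), (0, 3, -1)], false)] (rt 3 1 4) (rt 0 2 4) := by decide +kernel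

theorem chk_f1_neg : Chk [(f1, true)] (rt 2 3 5) (rt 0 1 4) := by decide +kernel

theorem chk_f2_neg : Chk [(f2, true)] (rt 1 2 4) (rt 0 3 4) := by decide +kernel

theorem chk_f5_neg : Chk [(f5, true)] (rt 3 2 4) (rt 3 2 4) := by decide +kernel

/-- the weight of a window -/
def wt (w : ℕ → Bool) : ℕ :=
  (if zr (ev 7 w f1) = true then 6 else 0) + (if zr (ev 7 w f2) = true then 3 else 0) +
    (if zp (ev 7 w f3) = true then 4 else 0) + (if zr (ev 7 w f5) = true then 1 else 0)

/-- the potential -/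
def ph (b0 b1 b2 b3 b4 b5 b6 : Bool) : ℕ :=
  if b0 = b1 then
    if b1 = b2 then
      if b2 = b3 then
        if b3 = b4 then
          if b4 = b5 then
            if b5 = b6 then 0 else 2
          else 4
        else 6
      else 8
    else 10
  else
    if b1 = b2 then
      if b2 = b3 ∧ b3 = b4 then 5 else 6
    else 11

theorem chk_avg : ∀ b0 b1 b2 b3 b4 b5 b6 b7 : Bool,
    5 + ph b1 b2 b3 b4 b5 b6 b7 ≤ wt (c8 b0 b1 b2 b3 b4 b5 b6 b7) + ph b0 b1 b2 b3 b4 b5 b6 := by
  decide +kernel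

theorem cl_per {c : ℚ} {n : ℕ} {x : ℕ → ℚ} (h : Cyc c n x) (r i : ℕ) :
    cl r x (i + n) = cl r x i := by
  unfold cl
  rw [h.per]

namespace Cyc

variable {c : ℚ} {n : ℕ} {x : ℕ → ℚ} {D : ℕ}

section cover

variable (h : Cyc c n x) (hn : 5 ≤ n) (hc : c.den = D ^ 2) (hD : D ≠ 0)

include h hn hc hD

/-- the relation from a ratio -/
theorem rl_rt {p a b d : ℕ} (hnr : nr3 a b d = true) {S : Finset ℕ} (hS : S ⊆ At D)
    (hne : S.Nonempty) (hz : ∀ r ∈ S, zp (ev 7 (wd r x p) (rt a b d)) = true) : Rl D S := by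
  have hn3 : 3 ≤ n := by omega
  simp only [nr3, Bool.and_eq_true] at hnr
  obtain ⟨⟨h1, h2⟩, h3⟩ := hnr
  have e : mv x p (rt a b d) = (x (p + a) + x (p + b)) / (x (p + a) + x (p + d)) := by
    simp [mv, rt, div_eq_mul_inv]
  have hne2 := h.add_ne_zero (not_modEq_of_nr (p := p) hn h2)
  have hf : ∀ t ∈ rt a b d, ¬ p + t.1 ≡ p + t.2.1 [MOD n] := by
    intro t ht
    simp only [rt, List.mem_cons, List.not_mem_nil, or_false] at ht
    rcases ht with rfl | rfl
    · exact not_modEq_of_nr hn h1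
    · exact not_modEq_of_nr hn h2
  refine h.rl_of hn3 hc hD (f := rt a b d) (p := p) hf (by simp [mdeg, rt]) ?_ ?_ hS ?_
  · rw [e, Ne, div_eq_one_iff_eq hne2]
    intro h4
    exact h.ne_of (not_modEq_of_nr (p := p) hn h3) (by linarith)
  · intro h4
    obtain ⟨r, hr⟩ := hne
    obtain ⟨k1, k2, k3, k4⟩ := mem_At hD (hS hr)
    have hr' : Fact r.Prime := ⟨k1⟩
    have h5 := h.ap_of_zp hn3 hc hD (hS hr) (hz r hr)
    rw [h4, show (-1 : ℚ) - 1 = -2 by norm_num, padicNorm.neg] at h5
    have h6 := half_le_norm_two r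
    nlinarith
  · intro r hr
    have h5 := hz r hr
    unfold zp at h5
    unfold zr
    cases h6 : ev 7 (wd r x p) (rt a b d) with
    | none => rw [h6] at h5; simp at h5
    | some v =>
      rw [h6] at h5
      simp only [Bool.and_eq_true] at h5
      exact h5.1

/-- two ratios that cover all the components -/
theorem cover_two (hA : (At D).Nonempty) {p : ℕ} {cond : List (Mon × Bool)}
    (hcond : ∀ q ∈ cond, mv x p q.1 = sg q.2) {a b d a' b' d' : ℕ} (hnr : nr3 a b d = true)
    (hnr' : nr3 a' b' d' = true) (hchk : Chk cond (rt a b d) (rt a' b' d')) :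
    ∃ S ⊆ At D, Rl D S ∧ mu D (At D) ≤ 2 * mu D S := by
  have hn3 : 3 ≤ n := by omega
  set S1 := (At D).filter fun r => zp (ev 7 (wd r x p) (rt a b d)) = true with hS1
  set S2 := (At D).filter fun r => zp (ev 7 (wd r x p) (rt a' b' d')) = true with hS2
  have s1 : S1 ⊆ At D := Finset.filter_subset _ _
  have s2 : S2 ⊆ At D := Finset.filter_subset _ _
  have hcov : At D = S1 ∪ S2 := by
    apply subset_antisymm _ (Finset.union_subset s1 s2)
    intro r hr
    have h1 := hchk (cl r x p) (cl r x (p + 1)) (cl r x (p + 2)) (cl r x (p + 3)) (cl r x (p + 4))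
      (cl r x (p + 5)) (cl r x (p + 6)) (cl r x (p + 7)) (by
        rw [List.all_eq_true]
        intro q hq
        exact h.okv_of_eq hn3 hc hD hr (hcond q hq))
    rw [Bool.or_eq_true] at h1
    rw [Finset.mem_union]
    rcases h1 with h1 | h1
    · exact Or.inl (Finset.mem_filter.mpr ⟨hr, h1⟩)
    · exact Or.inr (Finset.mem_filter.mpr ⟨hr, h1⟩)
  have hpos := mu_pos hD (At_subset D) hA
  have hle : mu D (At D) ≤ mu D S1 + mu D S2 := by
    conv_lhs => rw [hcov]
    exact mu_union_le hD (s1.trans (At_subset D))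
  rcases le_total (mu D S1) (mu D S2) with h1 | h1
  · refine ⟨S2, s2, ?_, by linarith⟩
    refine h.rl_rt hn hc hD (p := p) hnr' s2 (nonempty_of_mu_pos (by linarith)) ?_
    intro r hr
    exact (Finset.mem_filter.mp hr).2
  · refine ⟨S1, s1, ?_, by linarith⟩
    refine h.rl_rt hn hc hD (p := p) hnr s1 (nonempty_of_mu_pos (by linarith)) ?_
    intro r hr
    exact (Finset.mem_filter.mp hr).2

/-! ### the exceptional values -/

theorem rel_eq' (p : ℕ) : (x p + x (p + 2)) * (1 + (x p + x (p + 1))) =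
    (x p + x (p + 1)) * (1 + (x (p + 1) + x (p + 2))) := by
  have h1 := h.mul_eq p (p + 1)
  have h4 : x (p + 1) - x (p + 1 + 1) = x (p + 1) - x (p + 2) := rfl
  rw [h4] at h1
  linear_combination h1

theorem exc_s02 (hA : (At D).Nonempty) {p : ℕ} (h1 : x p + x (p + 2) = 1) :
    ∃ S ⊆ At D, Rl D S ∧ mu D (At D) ≤ 2 * mu D S := by
  refine h.cover_two hn hc hD hA (p := p) ?_ (by decide) (by decide) chk_s02
  intro q hq
  simp only [List.mem_cons, List.not_mem_nil, or_false] at hq
  subst hq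
  simpa [mv, sg] using h1

theorem exc_s03 (hA : (At D).Nonempty) {p : ℕ} (h1 : x p + x (p + 3) = 1) :
    ∃ S ⊆ At D, Rl D S ∧ mu D (At D) ≤ 2 * mu D S := by
  refine h.cover_two hn hc hD hA (p := p) ?_ (by decide) (by decide) chk_s03
  intro q hq
  simp only [List.mem_cons, List.not_mem_nil, or_false] at hq
  rcases hq with rfl | rfl
  · simpa [mv, sg] using h1
  · have h2 := h.mul_eq p (p + 3)
    have h3 : x (p + 3 + 1) = x (p + 4) := rfl
    rw [h1, h3, one_mul] at h2
    have h4 : x (p + 1) + x (p + 3) ≠ 0 :=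
      h.add_ne_zero (not_modEq_of_nr (p := p) hn (by decide))
    have h5 : x p + x (p + 4) = x (p + 1) + x (p + 3) := by linarith
    simp [mv, sg]
    rw [h5]
    exact mul_inv_cancel₀ h4

theorem exc_f1_pos (hA : (At D).Nonempty) {p : ℕ} (h1 : mv x p f1 = 1) :
    ∃ S ⊆ At D, Rl D S ∧ mu D (At D) ≤ 2 * mu D S := by
  have n01 : x p + x (p + 1) ≠ 0 := h.add_ne_zero (not_modEq_of_nr (i := 0) (p := p) hn (by decide))
  have n02 : x p + x (p + 2) ≠ 0 := h.add_ne_zero (not_modEq_of_nr (i := 0) (p := p) hn (by decide))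
  have n03 : x p + x (p + 3) ≠ 0 := h.add_ne_zero (not_modEq_of_nr (i := 0) (p := p) hn (by decide))
  have e1 : (x p + x (p + 1)) * (x (p + 1) + x (p + 2)) ^ 2 = x p + x (p + 3) := by
    have h2 : (x p + x (p + 1)) * ((x (p + 1) + x (p + 2)) ^ 2 * (x p + x (p + 3))⁻¹) = 1 := by
      simpa [mv, f1] using h1
    field_simp at h2
    linarith
  have h2 := h.rel_eq' hn hc hD p
  have h3 := h.mul_eq p (p + 2)
  have h4 : x (p + 2 + 1) = x (p + 3) := rfl
  rw [h4] at h3
  have e2 : x p + x (p + 3) = (x p + x (p + 2)) * (1 - (x p + x (p + 1)) * (x (p + 1) + x (p + 2))) +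
      (x p + x (p + 1)) * (x (p + 1) + x (p + 2)) ^ 2 := by
    linear_combination (x (p + 1) + x (p + 2) - 1) * h2 + h3
  have e3 : (x p + x (p + 1)) * (x (p + 1) + x (p + 2)) = 1 := by
    rw [e1] at e2
    have e4 : (x p + x (p + 2)) * (1 - (x p + x (p + 1)) * (x (p + 1) + x (p + 2))) = 0 := by
      linarith
    rcases mul_eq_zero.mp e4 with e5 | e5
    · exact absurd e5 n02
    · linarith
  have e4 : x (p + 1) + x (p + 2) = x p + x (p + 3) := by
    rw [← e1]
    linear_combination (-(x (p + 1) + x (p + 2))) * e3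
  refine h.cover_two hn hc hD hA (p := p) ?_ (by decide) (by decide) chk_f1_pos
  intro q hq
  simp only [List.mem_cons, List.not_mem_nil, or_false] at hq
  rcases hq with rfl | rfl | rfl
  · simpa [sg] using h1
  · simpa [mv, sg] using e3
  · simp [mv, sg]
    rw [e4]
    exact mul_inv_cancel₀ n03

theorem exc_f2_pos (hA : (At D).Nonempty) {p : ℕ} (h1 : mv x p f2 = 1) :
    ∃ S ⊆ At D, Rl D S ∧ mu D (At D) ≤ 2 * mu D S := by
  have n02 : x p + x (p + 2) ≠ 0 := h.add_ne_zero (not_modEq_of_nr (i := 0) (p := p) hn (by decide))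
  have n12 : x (p + 1) ≠ x (p + 2) := h.ne_of (not_modEq_of_nr (p := p) hn (by decide))
  have e1 : (x p + x (p + 1)) * (x (p + 1) + x (p + 2)) = (x p + x (p + 2)) ^ 2 := by
    have h2 : (x p + x (p + 1)) * ((x (p + 1) + x (p + 2)) * (x p + x (p + 2)) ^ (-2 : ℤ)) = 1 := by
      simpa [mv, f2] using h1
    rw [zpow_neg] at h2
    have h3 : (x p + x (p + 2)) ^ (2 : ℤ) = (x p + x (p + 2)) ^ 2 := by
      exact_mod_cast zpow_natCast (x p + x (p + 2)) 2
    rw [h3] at h2
    field_simp at h2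
    linarith
  have h2 := h.rel_eq' hn hc hD p
  have e2 : (1 - (x p + x (p + 2))) * (x (p + 2) - x (p + 1)) = 0 := by
    linear_combination h2 + e1
  rcases mul_eq_zero.mp e2 with e3 | e3
  · exact h.exc_s02 hn hc hD hA (p := p) (by linarith)
  · exact absurd (by linarith) n12

theorem exc_f5_pos (hA : (At D).Nonempty) {p : ℕ} (h1 : mv x p f5 = 1) :
    ∃ S ⊆ At D, Rl D S ∧ mu D (At D) ≤ 2 * mu D S := by
  have n01 : x p + x (p + 1) ≠ 0 := h.add_ne_zero (not_modEq_of_nr (i := 0) (p := p) hn (by decide))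
  have n02 : x p + x (p + 2) ≠ 0 := h.add_ne_zero (not_modEq_of_nr (i := 0) (p := p) hn (by decide))
  have e1 : (x p + x (p + 1)) * (x (p + 1) + x (p + 3)) = x p + x (p + 2) := by
    have h2 : (x p + x (p + 1)) * ((x (p + 1) + x (p + 3)) * (x p + x (p + 2))⁻¹) = 1 := by
      simpa [mv, f5] using h1
    field_simp at h2
    linarith
  have h2 := h.rel_eq' hn hc hD p
  have e2 : (x p + x (p + 1)) * (x p + x (p + 3) - 1) = 0 := by
    linear_combination h2 + e1
  rcases mul_eq_zero.mp e2 with e3 | e3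
  · exact absurd e3 n01
  · exact h.exc_s03 hn hc hD hA (p := p) (by linarith)

theorem exc_neg (hA : (At D).Nonempty) {p : ℕ}
    (h1 : mv x p f1 = -1 ∨ mv x p f2 = -1 ∨ mv x p f5 = -1) :
    ∃ S ⊆ At D, Rl D S ∧ mu D (At D) ≤ 2 * mu D S := by
  rcases h1 with h1 | h1 | h1
  · refine h.cover_two hn hc hD hA (p := p) ?_ (by decide) (by decide) chk_f1_neg
    intro q hq
    simp only [List.mem_cons, List.not_mem_nil, or_false] at hq
    subst hq
    simpa [sg] using h1
  · refine h.cover_two hn hc hD hA (p := p) ?_ (by decide) (by decide) chk_f2_neg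
    intro q hq
    simp only [List.mem_cons, List.not_mem_nil, or_false] at hq
    subst hq
    simpa [sg] using h1
  · refine h.cover_two hn hc hD hA (p := p) ?_ (by decide) (by decide) chk_f5_neg
    intro q hq
    simp only [List.mem_cons, List.not_mem_nil, or_false] at hq
    subst hq
    simpa [sg] using h1

end cover

end Cyc

end Pool.Agent.Poonen40
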