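import Pool.Agent.Poonen40.Count

/-!
# The final estimate
-/

set_option autoImplicit false

open scoped Classical
open Finset Filter Topology

namespace Pool.Agent.Poonen40

theorem term_two {N K : ℕ} (hN : 1 ≤ N) (hK : 1 ≤ K) {t : ℝ} (ht : 2 * (K : ℝ) ≤ t)
    (hKt : t ≤ 2 * K + 2) (htN : t ^ 3 = Real.log N) :
    (N : ℝ) ^ (1 - 1 / (K : ℝ)) * 2 ^ (3 * K ^ 2 + 9 * K + 9) ≤
      Real.exp 15 * (N * Real.exp (-t / 4)) := by
  have hK1 : (1 : ℝ) ≤ K := by exact_mod_cast hK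
  have hK0 : (0 : ℝ) < K := by linarith
  have hN0 : (0 : ℝ) < N := by exact_mod_cast hN
  have ht0 : 0 ≤ t := by linarith
  have h1 : (N : ℝ) ^ (1 - 1 / (K : ℝ)) = N * Real.exp (-(t ^ 3 / K)) := by
    rw [sub_eq_add_neg, Real.rpow_add hN0, Real.rpow_one, Real.rpow_def_of_pos hN0, ← htN]
    congr 2
    ring
  have h2 : (2 : ℝ) ^ (3 * K ^ 2 + 9 * K + 9) ≤ Real.exp (3 * K ^ 2 + 9 * K + 9) := by
    have h3 : (2 : ℝ) ≤ Real.exp 1 := by
      have := Real.exp_one_gt_d9
      linarith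
    calc (2 : ℝ) ^ (3 * K ^ 2 + 9 * K + 9) ≤ (Real.exp 1) ^ (3 * K ^ 2 + 9 * K + 9) :=
          pow_le_pow_left₀ (by norm_num) h3 _
      _ = Real.exp (3 * K ^ 2 + 9 * K + 9) := by
          rw [← Real.exp_nat_mul]
          congr 1
          push_cast
          ring
  have h3 : 8 * (K : ℝ) ^ 2 ≤ t ^ 3 / K := by
    rw [le_div_iff₀ hK0]
    have : (2 * (K : ℝ)) ^ 3 ≤ t ^ 3 := pow_le_pow_left₀ (by linarith) ht 3
    nlinarith
  rw [h1]
  calc (N : ℝ) * Real.exp (-(t ^ 3 / K)) * 2 ^ (3 * K ^ 2 + 9 * K + 9)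
      ≤ (N : ℝ) * Real.exp (-(8 * (K : ℝ) ^ 2)) * Real.exp (3 * K ^ 2 + 9 * K + 9) := by
        gcongr
    _ = N * Real.exp (-(8 * (K : ℝ) ^ 2) + (3 * K ^ 2 + 9 * K + 9)) := by
        rw [mul_assoc, ← Real.exp_add]
    _ ≤ N * Real.exp (15 + -t / 4) := by
        apply mul_le_mul_of_nonneg_left _ hN0.le
        apply Real.exp_le_exp.mpr
        nlinarith
    _ = Real.exp 15 * (N * Real.exp (-t / 4)) := by
        rw [Real.exp_add]
        ring

theorem term_three {N K : ℕ} {t : ℝ} (ht0 : 0 ≤ t)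
    (hKt : t ≤ 2 * K + 2) (htN : t ^ 3 = Real.log N) :
    (N : ℝ) * (1 + Real.log N) / 2 ^ (K + 1) ≤ 8232 * (N * Real.exp (-t / 4)) := by
  have hN0 : (0 : ℝ) ≤ N := Nat.cast_nonneg N
  rw [← htN]
  have h1 : Real.exp (0.345 * t) ≤ 2 ^ (K + 1) := by
    have h2 : (2 : ℝ) ^ (K + 1) = Real.exp (Real.log 2 * ((K + 1 : ℕ) : ℝ)) := by
      rw [← Real.rpow_natCast, Real.rpow_def_of_pos (by norm_num)]
    rw [h2]
    apply Real.exp_le_exp.mpr
    have := Real.log_two_gt_d9
    push_cast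
    nlinarith
  have h2 : 1 + t ^ 3 ≤ 8232 * Real.exp (0.09 * t) := by
    have h3 := Real.pow_div_factorial_le_exp (x := 0.09 * t) (by positivity) 3
    have h4 : (1 : ℝ) ≤ Real.exp (0.09 * t) := Real.one_le_exp (by positivity)
    have h5 : (0.09 * t) ^ 3 / (Nat.factorial 3 : ℝ) = 0.000729 * t ^ 3 / 6 := by
      rw [show Nat.factorial 3 = 6 by decide]
      push_cast
      ring
    rw [h5] at h3
    linarith
  rw [div_le_iff₀ (by positivity)]
  have h3 : 1 + t ^ 3 ≤ 8232 * Real.exp (-t / 4) * 2 ^ (K + 1) := by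
    calc 1 + t ^ 3 ≤ 8232 * Real.exp (0.09 * t) := h2
      _ ≤ 8232 * Real.exp (-t / 4 + 0.345 * t) := by
          apply mul_le_mul_of_nonneg_left _ (by norm_num)
          apply Real.exp_le_exp.mpr
          linarith
      _ = 8232 * Real.exp (-t / 4) * Real.exp (0.345 * t) := by
          rw [Real.exp_add]
          ring
      _ ≤ 8232 * Real.exp (-t / 4) * 2 ^ (K + 1) :=
          mul_le_mul_of_nonneg_left h1 (by positivity)
  calc (N : ℝ) * (1 + t ^ 3) ≤ N * (8232 * Real.exp (-t / 4) * 2 ^ (K + 1)) :=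
        mul_le_mul_of_nonneg_left h3 hN0
    _ = 8232 * (N * Real.exp (-t / 4)) * 2 ^ (K + 1) := by ring

/-- the number of exceptional denominators up to `N` -/
theorem count_exp {N : ℕ} (hN : 1 ≤ N) :
    (((Icc 1 N).filter Exc).card : ℝ) ≤
      (Real.exp 15 + 8234) * N * Real.exp (-(Real.log N) ^ (1 / 3 : ℝ) / 4) := by
  set t := (Real.log N) ^ (1 / 3 : ℝ) with ht
  have hN1 : (1 : ℝ) ≤ N := by exact_mod_cast hN
  have hlog : 0 ≤ Real.log N := Real.log_nonneg hN1
  have ht0 : 0 ≤ t := Real.rpow_nonneg hlog _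
  have htN : t ^ 3 = Real.log N := by
    rw [ht, ← Real.rpow_natCast, ← Real.rpow_mul hlog]
    norm_num
  have hpos : 0 ≤ (N : ℝ) * Real.exp (-t / 4) := by positivity
  rcases lt_or_ge t 2 with h2 | h2
  · have h3 : (((Icc 1 N).filter Exc).card : ℝ) ≤ N := by
      have h4 := card_le_card (filter_subset Exc (Icc 1 N))
      rw [Nat.card_Icc] at h4
      have h5 : ((Icc 1 N).filter Exc).card ≤ N := by omega
      exact_mod_cast h5
    have h4 : (1 : ℝ) ≤ Real.exp 15 * Real.exp (-t / 4) := by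
      rw [← Real.exp_add]
      exact Real.one_le_exp (by linarith)
    have h5 : (N : ℝ) ≤ N * (Real.exp 15 * Real.exp (-t / 4)) := by
      nlinarith
    calc (((Icc 1 N).filter Exc).card : ℝ) ≤ N * (Real.exp 15 * Real.exp (-t / 4)) := h3.trans h5
      _ ≤ (Real.exp 15 + 8234) * N * Real.exp (-t / 4) := by nlinarith
  · set K := ⌊t / 2⌋₊ with hK
    have hK1 : 1 ≤ K := by
      rw [hK]
      apply Nat.le_floor
      push_cast
      linarith
    have hKt : 2 * (K : ℝ) ≤ t := by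
      have := Nat.floor_le (show 0 ≤ t / 2 by linarith)
      linarith
    have hKt2 : t ≤ 2 * K + 2 := by
      have := (Nat.lt_floor_add_one (t / 2)).le
      linarith
    have hc := count_le (N := N) hK1
    have e2 := term_two hN hK1 hKt hKt2 htN
    have e3 := term_three (N := N) ht0 hKt2 htN
    have e1 : (1 : ℝ) ≤ N * Real.exp (-t / 4) := by
      have h3 : (N : ℝ) = Real.exp (t ^ 3) := by
        rw [htN, Real.exp_log (by linarith)]
      rw [h3, ← Real.exp_add]
      apply Real.one_le_exp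
      nlinarith [mul_nonneg ht0 ht0, mul_nonneg (mul_nonneg ht0 ht0) ht0]
    calc (((Icc 1 N).filter Exc).card : ℝ) ≤ _ := hc
      _ ≤ 2 * (N * Real.exp (-t / 4)) + Real.exp 15 * (N * Real.exp (-t / 4)) +
          8232 * (N * Real.exp (-t / 4)) := by linarith
      _ = (Real.exp 15 + 8234) * N * Real.exp (-t / 4) := by ring

theorem tendsto_density :
    Tendsto (fun N : ℕ => (((Icc 1 N).filter Exc).card : ℝ) / N) atTop (𝓝 0) := by
  have h1 : Tendsto (fun N : ℕ => (Real.exp 15 + 8234) *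
      Real.exp (-(Real.log N) ^ (1 / 3 : ℝ) / 4)) atTop (𝓝 0) := by
    have h2 : Tendsto (fun N : ℕ => (Real.log (N : ℝ)) ^ (1 / 3 : ℝ)) atTop atTop :=
      (tendsto_rpow_atTop (by norm_num)).comp
        (Real.tendsto_log_atTop.comp tendsto_natCast_atTop_atTop)
    have h3 : Tendsto (fun N : ℕ => -(Real.log (N : ℝ)) ^ (1 / 3 : ℝ) / 4) atTop atBot := by
      have := (tendsto_neg_atTop_atBot.comp h2).atBot_div_const (show (0 : ℝ) < 4 by norm_num)
      exact this
    have h4 := (Real.tendsto_exp_atBot.comp h3).const_mul (Real.exp 15 + 8234)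
    rw [mul_zero] at h4
    exact h4
  refine squeeze_zero' ?_ ?_ h1
  · exact Filter.Eventually.of_forall fun N => by positivity
  · filter_upwards [eventually_ge_atTop 1] with N hN
    have hN0 : (0 : ℝ) < N := by exact_mod_cast hN
    rw [div_le_iff₀ hN0]
    calc (((Icc 1 N).filter Exc).card : ℝ) ≤ _ := count_exp hN
      _ = _ := by ring

end Pool.Agent.Poonen40
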