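import Pool.Agent.Poonen40.Length

/-!
# The denominators with a long cycle, and the largest component of the denominator
-/

set_option autoImplicit false

open Function

namespace Pool.Agent.Poonen40

/-- the map `y ↦ y ^ 2 + c` on `ℚ` -/
abbrev fc (c : ℚ) : ℚ → ℚ := fun y => y ^ 2 + c

/-- `D` is the square root of the denominator of some `c` for which `y ↦ y ^ 2 + c` has a rational
periodic point of exact period at least `3` -/
def Exc (D : ℕ) : Prop := ∃ c x : ℚ, c.den = D ^ 2 ∧ 3 ≤ minimalPeriod (fun y : ℚ => y ^ 2 + c) x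

theorem cyc_of (c x : ℚ) (h : 0 < minimalPeriod (fun y : ℚ => y ^ 2 + c) x) :
    Cyc c (minimalPeriod (fun y : ℚ => y ^ 2 + c) x) (fun i => (fun y : ℚ => y ^ 2 + c)^[i] x) where
  step i := by
    show (fun y : ℚ => y ^ 2 + c)^[i + 1] x = _
    rw [Function.iterate_succ_apply']
  per i := by
    show (fun y : ℚ => y ^ 2 + c)^[i + _] x = _
    rw [iterate_add_minimalPeriod_eq]
  inj i j hij := by
    have h1 : (fun y : ℚ => y ^ 2 + c)^[i % minimalPeriod (fun y : ℚ => y ^ 2 + c) x] x =
        (fun y : ℚ => y ^ 2 + c)^[j % minimalPeriod (fun y : ℚ => y ^ 2 + c) x] x := by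
      rw [iterate_mod_minimalPeriod_eq, iterate_mod_minimalPeriod_eq]
      exact hij
    exact iterate_injOn_Iio_minimalPeriod (Set.mem_Iio.mpr (Nat.mod_lt _ h))
      (Set.mem_Iio.mpr (Nat.mod_lt _ h)) h1

/-! ### the denominator is a square -/

theorem max_norm (z : ℚ) (p : ℕ) [hp : Fact p.Prime] :
    max 1 (padicNorm p z) = (p : ℚ) ^ (z.den.factorization p) := by
  have hden : (z.den : ℚ) ≠ 0 := by exact_mod_cast z.den_nz
  have h2 : padicNorm p (z.den : ℚ) = ((p : ℚ) ^ (z.den.factorization p))⁻¹ := by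
    rw [padicNorm.eq_zpow_of_nonzero hden, padicValRat.of_nat, Nat.factorization_def _ hp.out,
      zpow_neg, zpow_natCast]
  have h3 : padicNorm p z = padicNorm p (z.num : ℚ) * (p : ℚ) ^ (z.den.factorization p) := by
    conv_lhs => rw [← Rat.num_div_den z]
    rw [padicNorm.div, h2, div_inv_eq_mul]
  by_cases hpd : p ∣ z.den
  · have h1 : padicNorm p (z.num : ℚ) = 1 := by
      rw [padicNorm.int_eq_one_iff]
      intro h
      have h2 : p ∣ z.num.natAbs := Int.natCast_dvd.mp h
      have h3 := Nat.dvd_gcd h2 hpd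
      rw [z.reduced] at h3
      exact hp.out.one_lt.ne' (Nat.dvd_one.mp h3)
    rw [h3, h1, one_mul]
    apply max_eq_right
    have : (1 : ℚ) ≤ p := by exact_mod_cast hp.out.one_lt.le
    exact one_le_pow₀ this
  · have h4 : z.den.factorization p = 0 := Nat.factorization_eq_zero_of_not_dvd hpd
    rw [h4, pow_zero] at h3 ⊢
    rw [mul_one] at h3
    rw [h3]
    exact max_eq_left (padicNorm.of_int _)

theorem Cyc.den_eq {c : ℚ} {n : ℕ} {x : ℕ → ℚ} (h : Cyc c n x) (hn : 0 < n) :
    c.den = (x 0).den ^ 2 := by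
  apply Nat.eq_of_factorization_eq c.den_nz (pow_ne_zero _ (x 0).den_nz)
  intro p
  by_cases hp : p.Prime
  · have : Fact p.Prime := ⟨hp⟩
    have h1 := max_norm c p
    have h2 := max_norm (x 0) p
    have h3 : max 1 (padicNorm p c) = (max 1 (padicNorm p (x 0))) ^ 2 := by
      rcases le_or_gt (padicNorm p c) 1 with h3 | h3
      · have h4 := h.norm_le_one hn h3 0
        rw [max_eq_left h3, max_eq_left h4, one_pow]
      · have h4 := h.one_lt_norm hn h3 0
        rw [max_eq_right h3.le, max_eq_right h4.le, h.norm_sq_eq hn h3]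
    rw [h1, h2, ← pow_mul] at h3
    have hp1 : (1 : ℚ) < p := by exact_mod_cast hp.one_lt
    have h4 := pow_right_injective₀ (by linarith) hp1.ne' h3
    rw [Nat.factorization_pow]
    simp only [Finsupp.smul_apply, smul_eq_mul]
    rw [h4]
    ring
  · rw [Nat.factorization_eq_zero_of_not_prime _ hp, Nat.factorization_eq_zero_of_not_prime _ hp]

theorem den_eq_sq {c x : ℚ} (h : x ∈ periodicPts (fun y : ℚ => y ^ 2 + c)) :
    c.den = x.den ^ 2 := by
  have h1 := minimalPeriod_pos_of_mem_periodicPts h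
  exact (cyc_of c x h1).den_eq h1

/-! ### the largest component -/

theorem exists_component {D : ℕ} (hD : 3 ≤ D) : ∃ p : ℕ, p.Prime ∧ p ∣ D ∧
    3 ≤ p ^ D.factorization p ∧ D ≤ (p ^ D.factorization p) ^ D.primeFactors.card := by
  have hD0 : D ≠ 0 := by omega
  have hprod : ∏ r ∈ D.primeFactors, r ^ D.factorization r = D :=
    Nat.prod_factorization_pow_eq_self hD0
  have hne : D.primeFactors.Nonempty := Nat.nonempty_primeFactors.mpr (by omega)
  obtain ⟨p, hp, hmax⟩ := Finset.exists_max_image D.primeFactors (fun r => r ^ D.factorization r) hne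
  have hle : D ≤ (p ^ D.factorization p) ^ D.primeFactors.card := by
    conv_lhs => rw [← hprod]
    exact Finset.prod_le_pow_card _ _ _ hmax
  refine ⟨p, Nat.prime_of_mem_primeFactors hp, Nat.dvd_of_mem_primeFactors hp, ?_, hle⟩
  by_contra hcon
  push Not at hcon
  have h2 : ∀ r ∈ D.primeFactors, r = 2 := by
    intro r hr
    have h3 := hmax r hr
    have h4 := (Nat.prime_of_mem_primeFactors hr).two_le
    have h5 : D.factorization r ≠ 0 :=
      ((Nat.prime_of_mem_primeFactors hr).factorization_pos_of_dvd hD0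
        (Nat.dvd_of_mem_primeFactors hr)).ne'
    have h6 : r ≤ r ^ D.factorization r := Nat.le_self_pow h5 r
    omega
  have h7 : D.primeFactors ⊆ {2} := fun r hr => Finset.mem_singleton.mpr (h2 r hr)
  have h8 : D.primeFactors.card ≤ 1 := by
    have := Finset.card_le_card h7
    simpa using this
  have h9 : (p ^ D.factorization p) ^ D.primeFactors.card ≤ (p ^ D.factorization p) ^ 1 :=
    Nat.pow_le_pow_right (Nat.pos_of_ne_zero (pow_ne_zero _ (Nat.prime_of_mem_primeFactors hp).ne_zero)) h8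
  rw [pow_one] at h9
  omega

theorem B_of_component {D p : ℕ} (hp : p.Prime) (h3 : 3 ≤ p ^ D.factorization p) :
    1 < B D p ∧ (((p ^ D.factorization p : ℕ) : ℚ) = B D p ∨
      ((p ^ D.factorization p : ℕ) : ℚ) = 2 * B D p) := by
  unfold B
  by_cases h2 : p = 2
  · subst h2
    have hv : 2 ≤ D.factorization 2 := by
      by_contra hcon
      have : D.factorization 2 ≤ 1 := by omega
      have := Nat.pow_le_pow_right (n := 2) (by norm_num) this
      omega
    obtain ⟨m, hm⟩ : ∃ m, D.factorization 2 = m + 2 := ⟨D.factorization 2 - 2, by omega⟩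
    have e : ((D.factorization 2 : ℕ) : ℤ) - (if (2 : ℕ) = 2 then 1 else 0) = ((m + 1 : ℕ) : ℤ) := by
      rw [if_pos rfl, hm]
      push_cast
      ring
    rw [e, zpow_natCast]
    constructor
    · push_cast
      exact one_lt_pow₀ (by norm_num) (by omega)
    · right
      rw [hm]
      push_cast
      ring
  · rw [if_neg h2, sub_zero, zpow_natCast]
    constructor
    · have : (3 : ℚ) ≤ ((p ^ D.factorization p : ℕ) : ℚ) := by exact_mod_cast h3
      push_cast at this
      linarith
    · left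
      push_cast
      rfl

/-- the structure of an exceptional `D` -/
theorem exc_structure {D K : ℕ} (hD : 3 ≤ D) (h : Exc D) (hK : 1 ≤ K)
    (hω : D.primeFactors.card ≤ K) :
    ∃ R n : ℕ, 1 ≤ R ∧ R ^ K ≤ D ^ (K - 1) ∧ R.primeFactors.card ≤ K ∧ R ≤ D ∧
      n ≤ 2 ^ (K + 1) ∧ ∃ b ∈ rootsOf R n, (D : ℚ) = R * b ∨ (D : ℚ) = R * (2 * b) := by
  obtain ⟨c, x, hc, hn⟩ := h
  have hD0 : D ≠ 0 := by omega
  obtain ⟨p, hp, hpD, h3, hle⟩ := exists_component hD
  have : Fact p.Prime := ⟨hp⟩
  obtain ⟨hB1, hB2⟩ := B_of_component hp h3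
  have hcyc := cyc_of c x (by omega)
  have hkey := hcyc.key hn hc hD0 hpD hB1
  have hlen := hcyc.length_le (by omega) hc hD0 hpD hB1
  set q := p ^ D.factorization p with hq
  have hmul : q * (D / q) = D := Nat.ordProj_mul_ordCompl_eq_self D p
  have hqpos : 0 < q := by omega
  refine ⟨D / q, _, ?_, ?_, ?_, Nat.div_le_self _ _,
    hlen.trans (Nat.pow_le_pow_right (by norm_num) (by omega)), B D p, hkey, ?_⟩
  · exact Nat.ordCompl_pos p hD0
  · have h5 : D ≤ q ^ K := hle.trans (Nat.pow_le_pow_right hqpos hω)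
    have h6 : (D / q) ^ K * D ≤ D ^ (K - 1) * D := by
      calc (D / q) ^ K * D ≤ (D / q) ^ K * q ^ K := Nat.mul_le_mul_left _ h5
        _ = (q * (D / q)) ^ K := by rw [mul_pow, mul_comm]
        _ = D ^ K := by rw [hmul]
        _ = D ^ (K - 1) * D := by
          rw [← pow_succ]
          congr 1
          omega
    exact Nat.le_of_mul_le_mul_right h6 (by omega)
  · exact (Finset.card_le_card (Nat.primeFactors_mono (Nat.ordCompl_dvd D p) hD0)).trans hω
  · have h7 : (D : ℚ) = ((D / q : ℕ) : ℚ) * ((q : ℕ) : ℚ) := by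
      rw [← Nat.cast_mul, mul_comm, hmul]
    rcases hB2 with h8 | h8
    · left
      rw [h7, h8]
    · right
      rw [h7, h8]

end Pool.Agent.Poonen40
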