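import Pool.Agent.Poonen40.Height

/-!
# Groups of components

For four consecutive points of a cycle the active components of `D` are divided into six groups;
the product of the components of a group divides the numerator of a nonzero number which is
determined, up to few choices, by the other components.
-/

set_option autoImplicit false

open scoped Classical

namespace Pool.Agent.Poonen40

/-- the number `B` as a natural number -/
def Bn (D r : ℕ) : ℕ := r ^ (D.factorization r - if r = 2 then 1 else 0)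

theorem Bn_pos (D : ℕ) {r : ℕ} (hr : r.Prime) : 0 < Bn D r := pow_pos hr.pos _

theorem Bn_cast {D r : ℕ} (hr : r.Prime) (hD : D ≠ 0) (hrD : r ∣ D) : (Bn D r : ℚ) = B D r := by
  have h1 : 0 < D.factorization r := hr.factorization_pos_of_dvd hD hrD
  unfold Bn B
  push_cast
  rw [← zpow_natCast]
  congr 1
  split_ifs
  · omega
  · simp

/-- the active primes -/
noncomputable def Act (D : ℕ) : Finset ℕ := D.primeFactors.filter fun r => 1 < B D r

theorem mem_Act {D r : ℕ} (hD : D ≠ 0) : r ∈ Act D ↔ r.Prime ∧ r ∣ D ∧ 1 < B D r := by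
  unfold Act
  rw [Finset.mem_filter, Nat.mem_primeFactors]
  constructor
  · rintro ⟨⟨h1, h2, -⟩, h3⟩
    exact ⟨h1, h2, h3⟩
  · rintro ⟨h1, h2, h3⟩
    exact ⟨⟨h1, h2, hD⟩, h3⟩

/-- the product of the components of a group -/
def Gp (D : ℕ) (S : Finset ℕ) : ℕ := ∏ r ∈ S, Bn D r

theorem Gp_pos {D : ℕ} (hD : D ≠ 0) {S : Finset ℕ} (hS : S ⊆ Act D) : 0 < Gp D S :=
  Finset.prod_pos fun r hr => Bn_pos D ((mem_Act hD).mp (hS hr)).1

theorem Gp_union_le {D : ℕ} (hD : D ≠ 0) {S S' : Finset ℕ} (hS : S ⊆ Act D) :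
    Gp D (S ∪ S') ≤ Gp D S * Gp D S' := by
  have h1 : Gp D (S ∪ S') * Gp D (S ∩ S') = Gp D S * Gp D S' := Finset.prod_union_inter
  have h2 : 0 < Gp D (S ∩ S') := Gp_pos hD (Finset.inter_subset_left.trans hS)
  rw [← h1]
  exact Nat.le_mul_of_pos_right _ h2

theorem Gp_mul_sdiff {D : ℕ} {S : Finset ℕ} (hS : S ⊆ Act D) :
    Gp D S * Gp D (Act D \ S) = Gp D (Act D) := by
  rw [mul_comm]
  exact Finset.prod_sdiff hS

theorem Gp_Act (D : ℕ) (hD : D ≠ 0) : Gp D (Act D) = D ∨ 2 * Gp D (Act D) = D := by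
  have h1 : Gp D (Act D) = ∏ r ∈ D.primeFactors, Bn D r := by
    unfold Gp
    apply Finset.prod_subset (Finset.filter_subset _ _)
    intro r hr hr'
    have hr1 := Nat.prime_of_mem_primeFactors hr
    have hr2 := Nat.dvd_of_mem_primeFactors hr
    have h2 : ¬ 1 < B D r := fun h => hr' ((mem_Act hD).mpr ⟨hr1, hr2, h⟩)
    rw [← Bn_cast hr1 hD hr2] at h2
    have h3 := Bn_pos D hr1
    have h4 : ¬ 1 < Bn D r := by
      intro h
      exact h2 (by exact_mod_cast h)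
    omega
  have h2 : ∏ r ∈ D.primeFactors, r ^ D.factorization r = D :=
    Nat.prod_factorization_pow_eq_self hD
  have h3 : (∏ r ∈ D.primeFactors, Bn D r) * (∏ r ∈ D.primeFactors, if r = 2 then 2 else 1) = D := by
    rw [← Finset.prod_mul_distrib]
    conv_rhs => rw [← h2]
    apply Finset.prod_congr rfl
    intro r hr
    have hr1 := Nat.prime_of_mem_primeFactors hr
    have hr2 := Nat.dvd_of_mem_primeFactors hr
    have h4 : 0 < D.factorization r := hr1.factorization_pos_of_dvd hD hr2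
    unfold Bn
    split_ifs with h5
    · subst h5
      rw [← pow_succ]
      congr 1
      omega
    · simp
  rw [Finset.prod_ite_eq'] at h3
  rw [h1]
  split_ifs at h3
  · right
    rw [mul_comm]
    exact h3
  · left
    rw [mul_one] at h3
    exact h3

theorem Gp_le (D : ℕ) (hD : D ≠ 0) {S : Finset ℕ} (hS : S ⊆ Act D) : Gp D S ≤ D := by
  have h1 := Gp_mul_sdiff hS
  have h2 : 0 < Gp D (Act D \ S) := Gp_pos hD Finset.sdiff_subset
  have h3 : Gp D S ≤ Gp D (Act D) := by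
    rw [← h1]
    exact Nat.le_mul_of_pos_right _ h2
  rcases Gp_Act D hD with h4 | h4 <;> omega

theorem norm_Gp_mem {D : ℕ} (hD : D ≠ 0) {S : Finset ℕ} (hS : S ⊆ Act D) {r : ℕ}
    [hr : Fact r.Prime] (hrS : r ∈ S) : padicNorm r (Gp D S : ℚ) = (B D r)⁻¹ := by
  unfold Gp
  push_cast
  rw [norm_prod, Finset.prod_eq_single_of_mem r hrS]
  · rw [Bn_cast hr.out hD ((mem_Act hD).mp (hS hrS)).2.1, norm_B_self]
  · intro q hq hqr
    obtain ⟨h1, h2, -⟩ := (mem_Act hD).mp (hS hq)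
    rw [Bn_cast h1 hD h2, norm_B_other D h1 hqr.symm]

theorem norm_Gp_not_mem {D : ℕ} (hD : D ≠ 0) {S : Finset ℕ} (hS : S ⊆ Act D) {r : ℕ}
    [hr : Fact r.Prime] (hrS : r ∉ S) : padicNorm r (Gp D S : ℚ) = 1 := by
  unfold Gp
  push_cast
  rw [norm_prod]
  apply Finset.prod_eq_one
  intro q hq
  obtain ⟨h1, h2, -⟩ := (mem_Act hD).mp (hS hq)
  rw [Bn_cast h1 hD h2, norm_B_other D h1]
  rintro rfl
  exact hrS hq

/-- the product of the components of a group divides a numerator -/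
theorem Gp_dvd {D : ℕ} (hD : D ≠ 0) {S : Finset ℕ} (hS : S ⊆ Act D) {Z : ℚ}
    (h : ∀ r ∈ S, ∀ _ : Fact r.Prime, padicNorm r Z ≤ (B D r)⁻¹) : Gp D S ∣ Z.num.natAbs := by
  unfold Gp
  apply Finset.prod_dvd_of_isRelPrime
  · intro r hr q hq hrq
    change IsRelPrime (Bn D r) (Bn D q)
    rw [← Nat.coprime_iff_isRelPrime]
    have h1 := ((mem_Act hD).mp (hS hr)).1
    have h2 := ((mem_Act hD).mp (hS hq)).1
    exact Nat.Coprime.pow _ _ ((Nat.coprime_primes h1 h2).mpr hrq)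
  · intro r hr
    obtain ⟨h1, h2, -⟩ := (mem_Act hD).mp (hS hr)
    have : Fact r.Prime := ⟨h1⟩
    have h3 := h r hr this
    rw [← Bn_cast h1 hD h2] at h3
    have h4 : padicNorm r (Z.num : ℚ) ≤ padicNorm r Z := by
      rw [← Rat.den_mul_eq_num Z, padicNorm.mul]
      have h5 : padicNorm r (Z.den : ℚ) ≤ 1 := padicNorm.of_nat _
      exact mul_le_of_le_one_left (padicNorm.nonneg _) h5
    have h5 := h4.trans h3
    unfold Bn at h5 ⊢
    push_cast at h5
    rw [← zpow_natCast, ← zpow_neg, ← padicNorm.dvd_iff_norm_le] at h5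
    have h6 : ((r ^ (D.factorization r - if r = 2 then 1 else 0) : ℕ) : ℤ) ∣ Z.num := h5
    exact Int.natCast_dvd.mp h6

/-- numbers with the primes of the other groups and of bounded height -/
def Un (D : ℕ) (S : Finset ℕ) (z : ℚ) : Prop :=
  z ≠ 0 ∧ (∀ q : ℕ, ∀ _ : Fact q.Prime, q ∉ Act D \ S → padicNorm q z = 1) ∧
    z.den ≤ 6 * D ^ 3 ∧ z.num.natAbs ≤ 6 * D ^ 3

theorem un_one {D : ℕ} (hD : D ≠ 0) (S : Finset ℕ) : Un D S 1 := by
  have h1 : 1 ≤ D ^ 3 := Nat.one_le_iff_ne_zero.mpr (pow_ne_zero _ hD)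
  refine ⟨one_ne_zero, fun q _ _ => padicNorm.one, ?_, ?_⟩
  · rw [Rat.den_one]; omega
  · rw [Rat.num_one, Int.natAbs_one]; omega

/-- the expressions -/
noncomputable def Zs (α β δ : ℚ) : Finset ℚ := {β - δ, 1 + α, δ - 1, δ - α * β}

/-- the relation for a group -/
def Rel (D : ℕ) (S : Finset ℕ) : Prop :=
  ∃ α β δ : ℚ, Un D S α ∧ Un D S β ∧ Un D S δ ∧ ∃ Z ∈ Zs α β δ, Z ≠ 0 ∧
    ∀ r ∈ S, ∀ _ : Fact r.Prime, padicNorm r Z ≤ (B D r)⁻¹

namespace Cyc

variable {c : ℚ} {n : ℕ} {x : ℕ → ℚ} {D : ℕ}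

theorem norm_add_inactive (h : Cyc c n x) (hn : 0 < n) (hc : c.den = D ^ 2) (hD : D ≠ 0) {r : ℕ}
    [hr : Fact r.Prime] (hrA : r ∉ Act D) {i j : ℕ} (hij : ¬ i ≡ j [MOD n]) :
    padicNorm r (x i + x j) = 1 := by
  by_cases hrD : r ∣ D
  · apply h.norm_add_small hn hc hD hrD _ hij
    by_contra hcon
    push Not at hcon
    exact hrA ((mem_Act hD).mpr ⟨hr.out, hrD, hcon⟩)
  · exact h.norm_add_good hn hc hrD hij

/-- the sums, normalised by a power of the group -/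
theorem un_sum (h : Cyc c n x) (hn : 3 ≤ n) (hc : c.den = D ^ 2) (hD : D ≠ 0) {S : Finset ℕ}
    (hS : S ⊆ Act D) {i j : ℕ} (hij : ¬ i ≡ j [MOD n]) {e : ℤ} (he : e = 0 ∨ e = 1 ∨ e = -1)
    (hnorm : ∀ r ∈ S, ∀ _ : Fact r.Prime, padicNorm r (x i + x j) = (B D r) ^ e) :
    Un D S ((x i + x j) * (Gp D S : ℚ) ^ e) := by
  have hn0 : 0 < n := by omega
  have hG : 0 < Gp D S := Gp_pos hD hS
  have hG0 : (Gp D S : ℚ) ≠ 0 := by exact_mod_cast hG.ne'
  have hne := h.add_ne_zero hij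
  refine ⟨mul_ne_zero hne (zpow_ne_zero _ hG0), ?_, ?_⟩
  · intro q hq hqS
    rw [padicNorm.mul, norm_zpow]
    by_cases hqm : q ∈ S
    · rw [norm_Gp_mem hD hS hqm, hnorm q hqm hq, inv_zpow, mul_inv_cancel₀]
      exact zpow_ne_zero _ (B_pos D hq.out).ne'
    · rw [norm_Gp_not_mem hD hS hqm, one_zpow, mul_one]
      apply h.norm_add_inactive hn0 hc hD _ hij
      intro hqA
      exact hqS (Finset.mem_sdiff.mpr ⟨hqA, hqm⟩)
  · obtain ⟨h1, m, hm⟩ := h.height_add hn hc hD i j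
    have hGD : Gp D S ≤ D := Gp_le D hD hS
    have hGDq : (Gp D S : ℚ) ≤ D := by exact_mod_cast hGD
    have hGq : (0 : ℚ) < Gp D S := by exact_mod_cast hG
    have hD1 : 1 ≤ D := Nat.one_le_iff_ne_zero.mpr hD
    have hDq : (1 : ℚ) ≤ D := by exact_mod_cast hD1
    have e1 : D ≤ D ^ 3 := by nlinarith [sq_nonneg (D : ℤ)]
    have e2 : D * D ≤ D ^ 3 := by nlinarith [Nat.mul_le_mul_left (D * D) hD1]
    have habs : 0 ≤ |x i + x j| := abs_nonneg _
    have q1 : (D : ℚ) * |x i + x j| ≤ 6 * (D : ℚ) ^ 2 := by nlinarith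
    have q3 : (6 : ℚ) * (D : ℚ) ^ 2 ≤ 6 * (D : ℚ) ^ 3 := by
      have : (D : ℚ) ^ 2 ≤ (D : ℚ) ^ 3 := pow_le_pow_right₀ hDq (by norm_num)
      linarith
    rcases he with rfl | rfl | rfl
    · rw [zpow_zero, mul_one]
      obtain ⟨k1, k2⟩ := height_of (Y := 6 * D ^ 3) hD hm (by push_cast; linarith)
      refine ⟨?_, k2⟩
      have := Nat.le_of_dvd (by omega) k1
      omega
    · rw [zpow_one]
      have hm' : (D : ℚ) * ((x i + x j) * (Gp D S : ℚ)) = ((m * (Gp D S : ℤ) : ℤ) : ℚ) := by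
        push_cast
        rw [← hm]
        ring
      obtain ⟨k1, k2⟩ := height_of (Y := 6 * D ^ 3) hD hm' (by
        rw [abs_mul, abs_of_pos hGq]
        push_cast
        calc (D : ℚ) * (|x i + x j| * (Gp D S : ℚ)) = (D : ℚ) * |x i + x j| * (Gp D S : ℚ) := by ring
          _ ≤ 6 * (D : ℚ) ^ 2 * D := by
            apply mul_le_mul q1 hGDq hGq.le (by positivity)
          _ = 6 * (D : ℚ) ^ 3 := by ring)
      refine ⟨?_, k2⟩
      have := Nat.le_of_dvd (by omega) k1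
      omega
    · rw [zpow_neg_one]
      have hm' : ((D * Gp D S : ℕ) : ℚ) * ((x i + x j) * (Gp D S : ℚ)⁻¹) = (m : ℚ) := by
        push_cast
        rw [← hm]
        field_simp
      have hDG : D * Gp D S ≠ 0 := mul_ne_zero hD hG.ne'
      obtain ⟨k1, k2⟩ := height_of (Y := 6 * D ^ 3) hDG hm' (by
        rw [abs_mul, abs_inv, abs_of_pos hGq]
        push_cast
        have : (D : ℚ) * (Gp D S : ℚ) * (|x i + x j| * (Gp D S : ℚ)⁻¹) = (D : ℚ) * |x i + x j| := by
          field_simp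
        rw [this]
        linarith)
      refine ⟨?_, k2⟩
      have k3 := Nat.le_of_dvd (Nat.pos_of_ne_zero hDG) k1
      have k4 : D * Gp D S ≤ D * D := Nat.mul_le_mul_left _ hGD
      omega

theorem a_ne (h : Cyc c n x) (hn : 3 ≤ n) : 1 + (x 0 + x 1) ≠ 0 := by
  intro h0
  have h1 := h.mul_eq 0 1
  have h2 : x 0 + x 1 = -1 := by linarith
  rw [h2] at h1
  have h3 : x 0 = x 2 := by
    have h4 : x (0 + 1) - x (1 + 1) = x 1 - x 2 := rfl
    rw [h4] at h1
    linarith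
  exact h.ne_of (by simpa using not_modEq_self two_pos (by omega : 2 < n) 0) h3

theorem rel_eq (h : Cyc c n x) :
    (x 0 + x 2) * (1 + (x 0 + x 1)) = (x 0 + x 1) * (1 + (x 1 + x 2)) := by
  have h1 := h.mul_eq 0 1
  have h4 : x (0 + 1) - x (1 + 1) = x 1 - x 2 := rfl
  rw [h4] at h1
  linear_combination h1

end Cyc

end Pool.Agent.Poonen40
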