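import Pool.Agent.Poonen40.Exc

/-!
# The points of a cycle of length at least `3` are bounded by `D + 2`
-/

set_option autoImplicit false

namespace Pool.Agent.Poonen40

theorem one_le_of_int {D : ℕ} {z : ℚ} {m : ℤ} (h : (D : ℚ) * z = m) (hz : z ≠ 0) (hD : D ≠ 0) :
    1 ≤ (D : ℚ) * |z| := by
  have h1 : (D : ℚ) * |z| = |(m : ℚ)| := by
    rw [← h, abs_mul, Nat.abs_cast]
  rw [h1]
  have hm : m ≠ 0 := by
    rintro rfl
    rw [Int.cast_zero, mul_eq_zero] at h
    rcases h with h | h
    · exact hD (by exact_mod_cast h)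
    · exact hz h
  exact_mod_cast Int.one_le_abs hm

theorem abs_sub_eq_of_mul_nonneg {a b : ℚ} (h : 0 ≤ a * b) : |a - b| = |(|a| - |b|)| := by
  rcases le_total 0 a with ha | ha <;> rcases le_total 0 b with hb | hb
  · rw [abs_of_nonneg ha, abs_of_nonneg hb]
  · have h0 : a * b = 0 := le_antisymm (mul_nonpos_of_nonneg_of_nonpos ha hb) h
    rcases mul_eq_zero.mp h0 with h1 | h1
    · rw [h1]; simp
    · rw [h1]; simp
  · have h0 : a * b = 0 := le_antisymm (mul_nonpos_of_nonpos_of_nonneg ha hb) h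
    rcases mul_eq_zero.mp h0 with h1 | h1
    · rw [h1]; simp
    · rw [h1]; simp
  · rw [abs_of_nonpos ha, abs_of_nonpos hb, show -a - -b = -(a - b) by ring, abs_neg]

namespace Cyc

variable {c : ℚ} {n : ℕ} {x : ℕ → ℚ} {D : ℕ}

theorem den_point (h : Cyc c n x) (hn : 0 < n) (hc : c.den = D ^ 2) (i : ℕ) : (x i).den = D := by
  have h1 := (h.shift i).den_eq hn
  simp only [zero_add] at h1
  rw [hc] at h1
  exact (Nat.pow_left_injective two_ne_zero h1).symm

theorem mul_point (h : Cyc c n x) (hn : 0 < n) (hc : c.den = D ^ 2) (i : ℕ) :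
    (D : ℚ) * x i = (x i).num := by
  have h1 := h.den_point hn hc i
  have h2 := Rat.den_mul_eq_num (x i)
  rwa [h1] at h2

theorem exists_abs_max (h : Cyc c n x) (hn : 0 < n) : ∃ i, ∀ j, |x j| ≤ |x i| := by
  obtain ⟨i, -, hi⟩ := Finset.exists_max_image (Finset.range n) (fun i => |x i|)
    ⟨0, Finset.mem_range.mpr hn⟩
  refine ⟨i, fun j => ?_⟩
  rw [← h.mod_eq j]
  exact hi _ (Finset.mem_range.mpr (Nat.mod_lt _ hn))

theorem exists_abs_min (h : Cyc c n x) (hn : 0 < n) : ∃ i, ∀ j, |x i| ≤ |x j| := by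
  obtain ⟨i, -, hi⟩ := Finset.exists_min_image (Finset.range n) (fun i => |x i|)
    ⟨0, Finset.mem_range.mpr hn⟩
  refine ⟨i, fun j => ?_⟩
  rw [← h.mod_eq j]
  exact hi _ (Finset.mem_range.mpr (Nat.mod_lt _ hn))

theorem abs_le (h : Cyc c n x) (hn : 3 ≤ n) (hc : c.den = D ^ 2) (hD : D ≠ 0) (i : ℕ) :
    |x i| ≤ D + 2 := by
  have hn0 : 0 < n := by omega
  have hD0 : (0 : ℚ) < D := by exact_mod_cast Nat.pos_of_ne_zero hD
  obtain ⟨p, hp⟩ := h.exists_abs_max hn0
  obtain ⟨q, hq⟩ := h.exists_abs_min hn0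
  have hM0 : 0 ≤ |x p| := abs_nonneg _
  have hL0 : 0 ≤ |x q| := abs_nonneg _
  have hML : |x p| - |x q| ≤ 2 := by
    by_contra hcon
    push Not at hcon
    have h1 : x (p + 1) - x (q + 1) = |x p| ^ 2 - |x q| ^ 2 := by
      rw [h.step, h.step, sq_abs, sq_abs]
      ring
    have h2 : x (p + 1) - x (q + 1) ≤ 2 * |x p| := by
      have h3 := (_root_.abs_le.mp (hp (p + 1))).2
      have h4 := (_root_.abs_le.mp (hp (q + 1))).1
      linarith
    nlinarith
  have hL : |x q| ≤ D := by
    by_contra hcon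
    push Not at hcon
    have key : ∀ i j, ¬ i ≡ j [MOD n] → x (i + 1) * x (j + 1) < 0 := by
      intro i j hij
      by_contra hneg
      push Not at hneg
      have h1 := abs_sub_eq_of_mul_nonneg hneg
      have h2 : |x (i + 1) - x (j + 1)| ≤ 2 := by
        rw [h1, _root_.abs_le]
        have h3 := hp (i + 1)
        have h4 := hp (j + 1)
        have h5 := hq (i + 1)
        have h6 := hq (j + 1)
        constructor <;> linarith
      rw [← h.mul_eq, abs_mul] at h2
      have hs : 1 ≤ (D : ℚ) * |x i - x j| := by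
        refine one_le_of_int (m := (x i).num - (x j).num) ?_ (h.sub_ne_zero' hij) hD
        rw [mul_sub, h.mul_point hn0 hc, h.mul_point hn0 hc]
        push_cast
        ring
      have ha : 1 ≤ (D : ℚ) * |x i + x j| := by
        refine one_le_of_int (m := (x i).num + (x j).num) ?_ (h.add_ne_zero hij) hD
        rw [mul_add, h.mul_point hn0 hc, h.mul_point hn0 hc]
        push_cast
        ring
      have h7 : 2 * (D : ℚ) < max |x i + x j| |x i - x j| := by
        have h8 := hq i
        have h9 := hq j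
        rcases le_total 0 (x i) with hi | hi <;> rcases le_total 0 (x j) with hj | hj
        · apply lt_max_of_lt_left
          rw [abs_of_nonneg hi] at h8
          rw [abs_of_nonneg hj] at h9
          rw [abs_of_nonneg (by linarith)]
          linarith
        · apply lt_max_of_lt_right
          rw [abs_of_nonneg hi] at h8
          rw [abs_of_nonpos hj] at h9
          rw [abs_of_nonneg (by linarith)]
          linarith
        · apply lt_max_of_lt_right
          rw [abs_of_nonpos hi] at h8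
          rw [abs_of_nonneg hj] at h9
          rw [abs_of_nonpos (by linarith)]
          linarith
        · apply lt_max_of_lt_left
          rw [abs_of_nonpos hi] at h8
          rw [abs_of_nonpos hj] at h9
          rw [abs_of_nonpos (by linarith)]
          linarith
      rcases lt_max_iff.mp h7 with h8 | h8
      · have h9 : 0 ≤ |x i - x j| := abs_nonneg _
        nlinarith
      · have h9 : 0 ≤ |x i + x j| := abs_nonneg _
        nlinarith
    have k1 := key 0 1 (by simpa using not_modEq_self one_pos (by omega : 1 < n) 0)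
    have k2 := key 1 2 (not_modEq_self one_pos (by omega : 1 < n) 1)
    have k3 := key 0 2 (by simpa using not_modEq_self two_pos (by omega : 2 < n) 0)
    have k4 := mul_pos_of_neg_of_neg k1 k2
    have k5 : x (0 + 1) * x (1 + 1) * (x (1 + 1) * x (2 + 1)) =
      x (1 + 1) ^ 2 * (x (0 + 1) * x (2 + 1)) := by ring
    rw [k5] at k4
    nlinarith [sq_nonneg (x (1 + 1))]
  have := hp i
  linarith

/-- Heights of the sums. -/
theorem height_add (h : Cyc c n x) (hn : 3 ≤ n) (hc : c.den = D ^ 2) (hD : D ≠ 0) (i j : ℕ) :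
    |x i + x j| ≤ 6 * D ∧ ∃ m : ℤ, (D : ℚ) * (x i + x j) = m := by
  have hn0 : 0 < n := by omega
  have hD1 : (1 : ℚ) ≤ D := by exact_mod_cast Nat.one_le_iff_ne_zero.mpr hD
  constructor
  · have h1 := h.abs_le hn hc hD i
    have h2 := h.abs_le hn hc hD j
    have h3 := abs_add_le (x i) (x j)
    linarith
  · refine ⟨(x i).num + (x j).num, ?_⟩
    rw [mul_add, h.mul_point hn0 hc, h.mul_point hn0 hc]
    push_cast
    ring

end Cyc

/-- Heights of rational numbers with a given denominator. -/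
theorem height_of {z : ℚ} {e Y : ℕ} {m : ℤ} (he : e ≠ 0) (h : (e : ℚ) * z = m)
    (hY : (e : ℚ) * |z| ≤ Y) : z.den ∣ e ∧ z.num.natAbs ≤ Y := by
  have he0 : (0 : ℚ) < e := by exact_mod_cast Nat.pos_of_ne_zero he
  have h1 : z = (m : ℚ) / (e : ℤ) := by
    push_cast
    rw [eq_div_iff he0.ne', mul_comm, h]
  have h2 : z.den ∣ e := by
    have h3 := Rat.den_dvd m (e : ℤ)
    rw [Rat.divInt_eq_div, ← h1] at h3
    exact Int.natCast_dvd_natCast.mp h3
  refine ⟨h2, ?_⟩
  have h4 : (z.num.natAbs : ℚ) = z.den * |z| := by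
    have h5 := Rat.den_mul_eq_num z
    rw [Nat.cast_natAbs, Int.cast_abs, ← h5, abs_mul, Nat.abs_cast]
  have h6 : (z.den : ℚ) ≤ e := by exact_mod_cast Nat.le_of_dvd (Nat.pos_of_ne_zero he) h2
  have h7 : (z.num.natAbs : ℚ) ≤ Y := by
    rw [h4]
    exact (mul_le_mul_of_nonneg_right h6 (abs_nonneg z)).trans hY
  exact_mod_cast h7

end Pool.Agent.Poonen40
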