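import Pool.Agent.Poonen40.Units

/-!
# Every component of the denominator is a root of a polynomial determined by the other components
-/

set_option autoImplicit false

open Polynomial

namespace Pool.Agent.Poonen40

/-- first type -/
noncomputable def poly1 (α β δ : ℚ) : ℚ[X] := C (δ - α) * X - C (α * (β - δ))

/-- second type -/
noncomputable def poly2 (α β δ : ℚ) (k : ℕ) : ℚ[X] :=
  C (α * β) * X ^ (k + 1) + C α * X - C (δ * (1 + α))

/-- third type -/
noncomputable def poly3 (α β δ : ℚ) : ℚ[X] := C (δ ^ 2 - 1) * X - C (δ * (α + β))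

/-- the possible components -/
noncomputable def rootsOf (R n : ℕ) : Finset ℚ :=
  (U R n ×ˢ U R n ×ˢ U R n).biUnion fun q =>
    ((poly1 q.1 q.2.1 q.2.2).roots.toFinset ∪ (poly3 q.1 q.2.1 q.2.2).roots.toFinset) ∪
      (Finset.range n).biUnion (fun k => (poly2 q.1 q.2.1 q.2.2 k).roots.toFinset)

theorem natDegree_poly1 (α β δ : ℚ) : (poly1 α β δ).natDegree ≤ 1 := by
  unfold poly1
  compute_degree

theorem natDegree_poly3 (α β δ : ℚ) : (poly3 α β δ).natDegree ≤ 1 := by
  unfold poly3
  compute_degree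

theorem natDegree_poly2 (α β δ : ℚ) (k : ℕ) : (poly2 α β δ k).natDegree ≤ k + 1 := by
  unfold poly2
  compute_degree

theorem card_roots_le {f : ℚ[X]} {m : ℕ} (h : f.natDegree ≤ m) : f.roots.toFinset.card ≤ m :=
  (Multiset.toFinset_card_le _).trans ((Polynomial.card_roots' f).trans h)

theorem card_rootsOf (R n : ℕ) : (rootsOf R n).card ≤ (U R n).card ^ 3 * (2 + n * n) := by
  unfold rootsOf
  refine Finset.card_biUnion_le.trans ?_
  have h1 : ∀ q ∈ U R n ×ˢ U R n ×ˢ U R n,
      (((poly1 q.1 q.2.1 q.2.2).roots.toFinset ∪ (poly3 q.1 q.2.1 q.2.2).roots.toFinset) ∪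
      (Finset.range n).biUnion (fun k => (poly2 q.1 q.2.1 q.2.2 k).roots.toFinset)).card ≤
        2 + n * n := by
    intro q _
    refine (Finset.card_union_le _ _).trans ?_
    have h2 : ((poly1 q.1 q.2.1 q.2.2).roots.toFinset ∪
        (poly3 q.1 q.2.1 q.2.2).roots.toFinset).card ≤ 1 + 1 :=
      (Finset.card_union_le _ _).trans
        (Nat.add_le_add (card_roots_le (natDegree_poly1 _ _ _)) (card_roots_le (natDegree_poly3 _ _ _)))
    have h3 : ((Finset.range n).biUnion
        (fun k => (poly2 q.1 q.2.1 q.2.2 k).roots.toFinset)).card ≤ n * n := by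
      have h4 := Finset.card_biUnion_le_card_mul (Finset.range n)
        (fun k => (poly2 q.1 q.2.1 q.2.2 k).roots.toFinset) n (by
          intro k hk
          have := card_roots_le (natDegree_poly2 q.1 q.2.1 q.2.2 k)
          have := Finset.mem_range.mp hk
          omega)
      rwa [Finset.card_range] at h4
    omega
  refine (Finset.sum_le_card_nsmul _ _ _ h1).trans ?_
  rw [Finset.card_product, Finset.card_product, smul_eq_mul]
  apply le_of_eq
  ring

theorem mem_rootsOf1 {R n : ℕ} {α β δ z : ℚ} (hα : α ∈ U R n) (hβ : β ∈ U R n) (hδ : δ ∈ U R n)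
    (hne : δ ≠ α) (hz : (δ - α) * z = α * (β - δ)) : z ∈ rootsOf R n := by
  unfold rootsOf
  rw [Finset.mem_biUnion]
  refine ⟨(α, β, δ), by simp [hα, hβ, hδ], ?_⟩
  rw [Finset.mem_union, Finset.mem_union]
  left; left
  rw [Multiset.mem_toFinset, Polynomial.mem_roots']
  constructor
  · intro h0
    have h1 := congrArg (fun f => Polynomial.coeff f 1) h0
    simp [poly1, Polynomial.coeff_C] at h1
    exact hne (sub_eq_zero.mp h1)
  · simp [poly1, Polynomial.IsRoot, hz]

theorem mem_rootsOf3 {R n : ℕ} {α β δ z : ℚ} (hα : α ∈ U R n) (hβ : β ∈ U R n) (hδ : δ ∈ U R n)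
    (hne : δ ^ 2 ≠ 1) (hz : (δ ^ 2 - 1) * z = δ * (α + β)) : z ∈ rootsOf R n := by
  unfold rootsOf
  rw [Finset.mem_biUnion]
  refine ⟨(α, β, δ), by simp [hα, hβ, hδ], ?_⟩
  rw [Finset.mem_union, Finset.mem_union]
  left; right
  rw [Multiset.mem_toFinset, Polynomial.mem_roots']
  constructor
  · intro h0
    have h1 := congrArg (fun f => Polynomial.coeff f 1) h0
    rw [poly3, Polynomial.coeff_sub, Polynomial.coeff_C_mul, Polynomial.coeff_X_one,
      Polynomial.coeff_C, if_neg one_ne_zero, mul_one, sub_zero, Polynomial.coeff_zero] at h1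
    exact hne (sub_eq_zero.mp h1)
  · unfold poly3
    rw [Polynomial.IsRoot, Polynomial.eval_sub, Polynomial.eval_mul, Polynomial.eval_C,
      Polynomial.eval_X, Polynomial.eval_C, hz, sub_self]

theorem mem_rootsOf2 {R n k : ℕ} {α β δ z : ℚ} (hα : α ∈ U R n) (hβ : β ∈ U R n) (hδ : δ ∈ U R n)
    (hk : k < n) (hne : δ * (1 + α) ≠ 0)
    (hz : α * β * z ^ (k + 1) + α * z = δ * (1 + α)) : z ∈ rootsOf R n := by
  unfold rootsOf
  rw [Finset.mem_biUnion]
  refine ⟨(α, β, δ), by simp [hα, hβ, hδ], ?_⟩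
  rw [Finset.mem_union]
  right
  rw [Finset.mem_biUnion]
  refine ⟨k, Finset.mem_range.mpr hk, ?_⟩
  rw [Multiset.mem_toFinset, Polynomial.mem_roots']
  constructor
  · intro h0
    have h1 := congrArg (fun f => Polynomial.eval 0 f) h0
    simp only [poly2, Polynomial.eval_sub, Polynomial.eval_add, Polynomial.eval_mul,
      Polynomial.eval_C, Polynomial.eval_pow, Polynomial.eval_X, Polynomial.eval_zero, ne_eq,
      Nat.succ_ne_zero, not_false_eq_true, zero_pow, mul_zero, zero_add, zero_sub] at h1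
    exact hne (neg_eq_zero.mp h1)
  · unfold poly2
    rw [Polynomial.IsRoot]
    simp only [Polynomial.eval_sub, Polynomial.eval_add, Polynomial.eval_mul,
      Polynomial.eval_C, Polynomial.eval_pow, Polynomial.eval_X]
    rw [hz, sub_self]

namespace Cyc

theorem not_modEq_self {n : ℕ} {k : ℕ} (hk : 0 < k) (hkn : k < n) (i : ℕ) : ¬ i ≡ i + k [MOD n] := by
  intro h
  rw [Nat.modEq_iff_dvd' (by omega)] at h
  have h1 : i + k - i = k := by omega
  rw [h1] at h
  exact absurd (Nat.le_of_dvd hk h) (by omega)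

variable {c : ℚ} {n : ℕ} {x : ℕ → ℚ} {D : ℕ} {p : ℕ} [hp : Fact p.Prime]

theorem agree_or (h : Cyc c n x) (hn : 0 < n) (hc : c.den = D ^ 2) (hD : D ≠ 0) (hpD : p ∣ D)
    (hB : 1 < B D p) {i j : ℕ} (hij : ¬ i ≡ j [MOD n]) :
    (padicNorm p (x i - x j) ≤ 1 ∧ padicNorm p (x i + x j) = B D p) ∨
      (padicNorm p (x i - x j) = B D p ∧ padicNorm p (x i + x j) ≤ 1) := by
  have hc1 := one_lt_norm_c hc hD hpD
  have hBe := h.B_eq hn hc hD hpD
  have hB' : 1 < padicNorm p 2 * padicNorm p (x 0) := by rw [hBe]; exact hB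
  rcases h.norm_eq_b hn hc1 hij with h1 | h1
  · left
    exact ⟨(h.norm_sub_le_one_iff hn hc1 hB' hij).mpr h1, by rw [h1, hBe]⟩
  · right
    exact ⟨by rw [h1, hBe], (h.norm_add_le_one_iff hn hc1 hB' hij).mpr h1⟩

theorem exists_t (h : Cyc c n x) (hn : 0 < n) (hc : c.den = D ^ 2) (hD : D ≠ 0) (hpD : p ∣ D)
    (hB : 1 < B D p) {i j : ℕ} (hij : ¬ i ≡ j [MOD n]) :
    ∃ t, padicNorm p (x (i + t) - x (j + t)) = B D p := by
  by_contra hcon
  push Not at hcon
  have hS : ∀ t, padicNorm p (x (i + t) + x (j + t)) = B D p := by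
    intro t
    rcases h.agree_or hn hc hD hpD hB (not_modEq_add hij t) with h1 | h1
    · exact h1.2
    · exact absurd h1.1 (hcon t)
  have hM : ∀ t, padicNorm p (x (i + t) - x (j + t)) = B D p ^ t * padicNorm p (x i - x j) := by
    intro t
    induction t with
    | zero => simp
    | succ t ih =>
      rw [show i + (t + 1) = i + t + 1 by ring, show j + (t + 1) = j + t + 1 by ring,
        ← h.norm_mul_eq, hS, ih]
      ring
  have h1 := hM n
  rw [h.per, h.per] at h1
  have h2 : 0 < padicNorm p (x i - x j) :=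
    lt_of_le_of_ne (padicNorm.nonneg _) (Ne.symm (padicNorm.nonzero (h.sub_ne_zero' hij)))
  have h3 : 1 < B D p ^ n := one_lt_pow₀ hB (by omega)
  nlinarith

/-- **Key proposition.** -/
theorem key (h : Cyc c n x) (hn : 3 ≤ n) (hc : c.den = D ^ 2) (hD : D ≠ 0) (hpD : p ∣ D)
    (hB : 1 < B D p) : B D p ∈ rootsOf (D / p ^ D.factorization p) n := by
  have hn0 : 0 < n := by omega
  have hB0 : B D p ≠ 0 := by linarith
  have d01 : ∀ i, ¬ i ≡ i + 1 [MOD n] := fun i => not_modEq_self one_pos (by omega) i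
  have d02 : ∀ i, ¬ i ≡ i + 2 [MOD n] := fun i => not_modEq_self two_pos (by omega) i
  by_cases hI : ∃ i, padicNorm p (x i - x (i + 2)) ≤ 1
  · obtain ⟨i, hi⟩ := hI
    have hrel : (x i + x (i + 2)) * (x i + x (i + 1) + 1) =
        (x i + x (i + 1)) * (x (i + 1) + x (i + 2) + 1) := by
      have h1 := h.mul_eq i (i + 1)
      rw [show i + 1 + 1 = i + 2 by ring] at h1
      linear_combination h1
    have hd : padicNorm p (x i + x (i + 2)) = B D p := by
      rcases h.agree_or hn0 hc hD hpD hB (d02 i) with h1 | h1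
      · exact h1.2
      · rw [h1.1] at hi
        exact absurd hi (not_le.mpr hB)
    have hδ := h.mem_U_of hn0 hc hD (d02 i) 1 (by rw [hd, zpow_one])
    rw [zpow_one] at hδ
    rcases h.agree_or hn0 hc hD hpD hB (d01 i) with h1 | h1
    · have h2 : padicNorm p (x (i + 1) - x (i + 1 + 1)) ≤ 1 := by
        have e : x (i + 1) - x (i + 1 + 1) = (x i - x (i + 2)) - (x i - x (i + 1)) := by ring_nf
        rw [e]
        exact norm_sub_le _ _ hi h1.1
      have hb : padicNorm p (x (i + 1) + x (i + 1 + 1)) = B D p := by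
        rcases h.agree_or hn0 hc hD hpD hB (d01 (i + 1)) with h3 | h3
        · exact h3.2
        · rw [h3.1] at h2
          exact absurd h2 (not_le.mpr hB)
      have hα := h.mem_U_of hn0 hc hD (d01 i) 1 (by rw [h1.2, zpow_one])
      have hβ := h.mem_U_of hn0 hc hD (d01 (i + 1)) 1 (by rw [hb, zpow_one])
      rw [zpow_one] at hα hβ
      refine mem_rootsOf1 hα hβ hδ ?_ ?_
      · intro e
        have e2 := mul_right_cancel₀ hB0 e
        apply h.ne_of (d01 (i + 1))
        rw [show i + 1 + 1 = i + 2 by ring]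
        linarith
      · rw [show i + 1 + 1 = i + 2 by ring]
        linear_combination (B D p) ^ 2 * hrel
    · have h2 : padicNorm p (x (i + 1) - x (i + 1 + 1)) = B D p ∧
          padicNorm p (x (i + 1) + x (i + 1 + 1)) ≤ 1 := by
        rcases h.agree_or hn0 hc hD hpD hB (d01 (i + 1)) with h3 | h3
        · exfalso
          have e : x i - x (i + 1) = (x i - x (i + 2)) - (x (i + 1) - x (i + 1 + 1)) := by ring_nf
          have h4 : padicNorm p (x i - x (i + 1)) ≤ 1 := by
            rw [e]
            exact norm_sub_le _ _ hi h3.1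
          rw [h1.1] at h4
          exact absurd h4 (not_le.mpr hB)
        · exact h3
      have ha : padicNorm p (x i + x (i + 1)) = 1 := by
        have h3 := h.norm_mul_eq (p := p) i (i + 1)
        rw [h1.1, h2.1] at h3
        exact mul_right_cancel₀ hB0 (by rw [h3, one_mul])
      have hα := h.mem_U_of hn0 hc hD (d01 i) 0 (by rw [ha, zpow_zero])
      rw [zpow_zero, mul_one] at hα
      have hc1 := one_lt_norm_c hc hD hpD
      have hBe := h.B_eq hn0 hc hD hpD
      have h4 := h.exists_add hn0 hc1 (by rw [hBe]; exact hB) (d01 (i + 1))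
      rw [hBe] at h4
      rcases h4 with h4 | ⟨s, hs, h4⟩
      · exfalso
        rw [h4] at h2
        exact absurd h2.2 (not_le.mpr hB)
      have hbn : padicNorm p (x (i + 1) + x (i + 1 + 1)) = B D p ^ (-(s : ℤ)) := by
        rw [zpow_neg, zpow_natCast]
        exact eq_inv_of_mul_eq_one_left h4
      have hβ := h.mem_U_of hn0 hc hD (d01 (i + 1)) (-(s : ℤ)) hbn
      rw [show i + 1 + 1 = i + 2 by ring] at hβ
      refine mem_rootsOf2 (k := s) hα hβ hδ hs ?_ ?_
      · refine mul_ne_zero (mul_ne_zero (h.add_ne_zero (d02 i)) hB0) ?_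
        intro e
        have e1 : x i + x (i + 1) = -1 := by linarith
        rw [e1] at hrel
        apply h.ne_of (d02 i)
        linarith
      · rw [zpow_neg, zpow_natCast]
        have hBs : B D p ^ s ≠ 0 := pow_ne_zero _ hB0
        have e3 : (B D p ^ s)⁻¹ * B D p ^ (s + 1) = B D p := by
          rw [pow_succ, ← mul_assoc, inv_mul_cancel₀ hBs, one_mul]
        linear_combination (x i + x (i + 1)) * (x (i + 1) + x (i + 2)) * e3 - B D p * hrel
  · push Not at hI
    have hII : ∀ i, padicNorm p (x i - x (i + 2)) = B D p ∧ padicNorm p (x i + x (i + 2)) ≤ 1 := by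
      intro i
      rcases h.agree_or hn0 hc hD hpD hB (d02 i) with h1 | h1
      · exact absurd h1.1 (not_le.mpr (hI i))
      · exact h1
    have hn4 : n = 4 := by
      by_contra hne
      have d04 : ¬ 0 ≡ 4 [MOD n] := by
        intro h4
        rw [Nat.modEq_iff_dvd' (by omega)] at h4
        have h5 : n ≤ 4 := Nat.le_of_dvd (by norm_num) (by simpa using h4)
        have h6 : n = 3 := by omega
        subst h6
        norm_num at h4
      obtain ⟨t, ht⟩ := h.exists_t hn0 hc hD hpD hB d04
      have h4 : padicNorm p (x (0 + t) - x (4 + t)) ≤ 1 := by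
        have e : x (0 + t) - x (4 + t) = (x t + x (t + 2)) - (x (t + 2) + x (t + 2 + 2)) := by
          rw [show 0 + t = t by ring, show 4 + t = t + 2 + 2 by ring]
          ring
        rw [e]
        exact norm_sub_le _ _ (hII t).2 (hII (t + 2)).2
      rw [ht] at h4
      exact absurd h4 (not_le.mpr hB)
    subst hn4
    obtain ⟨i, hi⟩ : ∃ i, padicNorm p (x i - x (i + 1)) ≤ 1 := by
      rcases h.agree_or hn0 hc hD hpD hB (d01 0) with h1 | h1
      · exact ⟨0, h1.1⟩
      · rcases h.agree_or hn0 hc hD hpD hB (d01 1) with h2 | h2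
        · exact ⟨1, h2.1⟩
        · exfalso
          have e : x 0 - x (0 + 2) = (x 0 + x (0 + 1)) - (x 1 + x (1 + 1)) := by
            show x 0 - x 2 = (x 0 + x 1) - (x 1 + x 2)
            ring
          have h3 : padicNorm p (x 0 - x (0 + 2)) ≤ 1 := by
            rw [e]
            exact norm_sub_le _ _ h1.2 h2.2
          exact absurd h3 (not_le.mpr (hI 0))
    have h23 : padicNorm p (x (i + 2) - x (i + 2 + 1)) ≤ 1 := by
      have e : x (i + 2) - x (i + 2 + 1) =
          ((x i + x (i + 2)) - (x (i + 1) + x (i + 1 + 2))) - (x i - x (i + 1)) := by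
        rw [show i + 1 + 2 = i + 2 + 1 by ring]
        ring
      rw [e]
      exact norm_sub_le _ _ (norm_sub_le _ _ (hII i).2 (hII (i + 1)).2) hi
    have ha : padicNorm p (x i + x (i + 1)) = B D p := by
      rcases h.agree_or hn0 hc hD hpD hB (d01 i) with h3 | h3
      · exact h3.2
      · rw [h3.1] at hi
        exact absurd hi (not_le.mpr hB)
    have hg : padicNorm p (x (i + 2) + x (i + 2 + 1)) = B D p := by
      rcases h.agree_or hn0 hc hD hpD hB (d01 (i + 2)) with h3 | h3
      · exact h3.2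
      · rw [h3.1] at h23
        exact absurd h23 (not_le.mpr hB)
    have hd : padicNorm p (x i + x (i + 2)) = 1 := by
      have h3 := h.norm_mul_eq (p := p) i (i + 2)
      rw [(hII i).1, show i + 2 + 1 = i + 1 + 2 by ring, (hII (i + 1)).1] at h3
      exact mul_right_cancel₀ hB0 (by rw [h3, one_mul])
    have hα := h.mem_U_of hn0 hc hD (d01 i) 1 (by rw [ha, zpow_one])
    have hβ := h.mem_U_of hn0 hc hD (d01 (i + 2)) 1 (by rw [hg, zpow_one])
    have hδ := h.mem_U_of hn0 hc hD (d02 i) 0 (by rw [hd, zpow_zero])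
    rw [zpow_one] at hα hβ
    rw [zpow_zero, mul_one] at hδ
    have e1 := h.mul_eq i (i + 2)
    have e2 := h.mul_eq (i + 1) (i + 3)
    rw [show i + 2 + 1 = i + 3 by ring] at e1 hβ
    rw [show i + 1 + 1 = i + 2 by ring, show i + 3 + 1 = i + 4 by ring, h.per] at e2
    have hne : x i - x (i + 2) ≠ 0 := h.sub_ne_zero' (d02 i)
    have hdd : (x i + x (i + 2)) * (x (i + 1) + x (i + 3)) = -1 := by
      apply mul_right_cancel₀ hne
      linear_combination (x (i + 1) + x (i + 3)) * e1 + e2
    refine mem_rootsOf3 hα hβ hδ ?_ ?_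
    · intro hsq
      rcases sq_eq_one_iff.mp hsq with h1 | h1
      · have h2 : x (i + 1) + x (i + 3) = -1 := by rw [h1] at hdd; linarith
        rw [h1] at e1
        apply h.add_ne_zero (d01 (i + 1))
        rw [show i + 1 + 1 = i + 2 by ring]
        linarith
      · have h2 : x (i + 1) + x (i + 3) = 1 := by rw [h1] at hdd; linarith
        rw [h1] at e1
        apply h.add_ne_zero (d01 i)
        linarith
    · linear_combination (-(B D p)) * hdd

end Cyc

end Pool.Agent.Poonen40
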