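import Pool.Agent.Poonen40.Key

/-!
# The length of a cycle is at most `2 ^ (ω(D) + 1)`
-/

set_option autoImplicit false

namespace Pool.Agent.Poonen40

theorem eq_intCast_of_norm {z : ℚ} (h : ∀ p : ℕ, ∀ _ : Fact p.Prime, padicNorm p z ≤ 1) :
    z = (z.num : ℚ) := by
  have h1 : z.den = 1 := den_eq_one h
  conv_lhs => rw [← Rat.num_div_den z]
  rw [h1]
  simp

theorem one_le_abs_of_norm {z : ℚ} (hz : z ≠ 0)
    (h : ∀ p : ℕ, ∀ _ : Fact p.Prime, padicNorm p z ≤ 1) : 1 ≤ |z| := by
  rw [eq_intCast_of_norm h]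
  have h1 : z.num ≠ 0 := Rat.num_ne_zero.mpr hz
  have h2 : 1 ≤ |z.num| := Int.one_le_abs h1
  exact_mod_cast h2

theorem two_le_abs_of_norm {z : ℚ} (hz : z ≠ 0)
    (h : ∀ p : ℕ, ∀ _ : Fact p.Prime, padicNorm p z ≤ 1) {p : ℕ} [hp : Fact p.Prime]
    (hlt : padicNorm p z < 1) : 2 ≤ |z| := by
  have h0 := eq_intCast_of_norm h
  rw [h0] at hlt ⊢
  rw [padicNorm.int_lt_one_iff] at hlt
  have h1 : z.num ≠ 0 := Rat.num_ne_zero.mpr hz
  have h2 : (p : ℤ) ≤ |z.num| := Int.le_of_dvd (abs_pos.mpr h1) ((dvd_abs _ _).mpr hlt)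
  have h3 : (2 : ℤ) ≤ |z.num| := by
    have := hp.out.two_le
    omega
  exact_mod_cast h3

theorem abs_sub_le_abs_add {a b : ℚ} (h : (0 < a ↔ 0 < b)) : |a - b| ≤ |a + b| := by
  by_cases ha : 0 < a
  · have hb := h.mp ha
    rw [abs_of_pos (by linarith : 0 < a + b), abs_le]
    constructor <;> linarith
  · have hb : ¬ 0 < b := fun hb => ha (h.mpr hb)
    push Not at ha hb
    rw [abs_of_nonpos (by linarith : a + b ≤ 0), abs_le]
    constructor <;> linarith

namespace Cyc

variable {c : ℚ} {n : ℕ} {x : ℕ → ℚ} {D : ℕ}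

/-- of `x_i - x_j`, `x_i + x_j` one is `r`-integral, for every `r ∣ D` -/
theorem sub_or_add_le (h : Cyc c n x) (hn : 0 < n) (hc : c.den = D ^ 2) (hD : D ≠ 0) {r : ℕ}
    [hr : Fact r.Prime] (hrD : r ∣ D) {i j : ℕ} (hij : ¬ i ≡ j [MOD n]) :
    padicNorm r (x i - x j) ≤ 1 ∨ padicNorm r (x i + x j) ≤ 1 := by
  rcases le_or_gt (B D r) 1 with hB | hB
  · right
    exact (h.norm_add_small hn hc hD hrD hB hij).le
  · rcases h.agree_or hn hc hD hrD hB hij with h1 | h1
    · exact Or.inl h1.1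
    · exact Or.inr h1.2

/-- two signs only -/
theorem sub_le_of_iff (h : Cyc c n x) (hn : 0 < n) (hc : c.den = D ^ 2) (hD : D ≠ 0) {r : ℕ}
    [hr : Fact r.Prime] (hrD : r ∣ D) {i j : ℕ}
    (hiff : padicNorm r (x i - x 0) ≤ 1 ↔ padicNorm r (x j - x 0) ≤ 1) :
    padicNorm r (x i - x j) ≤ 1 := by
  by_cases hi : padicNorm r (x i - x 0) ≤ 1
  · have hj := hiff.mp hi
    have e : x i - x j = (x i - x 0) - (x j - x 0) := by ring
    rw [e]
    exact norm_sub_le _ _ hi hj
  · have hj : ¬ padicNorm r (x j - x 0) ≤ 1 := fun hj => hi (hiff.mpr hj)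
    have key : ∀ k, ¬ padicNorm r (x k - x 0) ≤ 1 → padicNorm r (x k + x 0) ≤ 1 := by
      intro k hk
      have hk0 : ¬ k ≡ 0 [MOD n] := by
        intro e
        rw [h.congr e, sub_self, padicNorm.zero] at hk
        exact hk zero_le_one
      exact (h.sub_or_add_le hn hc hD hrD hk0).resolve_left hk
    have e : x i - x j = (x i + x 0) - (x j + x 0) := by ring
    rw [e]
    exact norm_sub_le _ _ (key i hi) (key j hj)

/-- the length of a cycle -/
theorem length_le (h : Cyc c n x) (hn : 0 < n) (hc : c.den = D ^ 2) (hD : D ≠ 0) {p : ℕ}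
    [hp : Fact p.Prime] (hpD : p ∣ D) (hB : 1 < B D p) : n ≤ 2 ^ (D.primeFactors.card + 1) := by
  classical
  set g : Fin n → (D.primeFactors → Bool) × Bool := fun i =>
    (fun r => decide (padicNorm r (x i - x 0) ≤ 1), decide (0 < x i)) with hg
  have hinj : Function.Injective g := by
    intro i j hij
    by_contra hne
    have hmod : ¬ (i : ℕ) ≡ (j : ℕ) [MOD n] := by
      intro e
      apply hne
      apply Fin.ext
      have e' : (i : ℕ) % n = (j : ℕ) % n := e
      rwa [Nat.mod_eq_of_lt i.2, Nat.mod_eq_of_lt j.2] at e'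
    have h1 : ∀ r : D.primeFactors, (padicNorm r (x i - x 0) ≤ 1 ↔ padicNorm r (x j - x 0) ≤ 1) := by
      intro r
      have := congrArg (fun q => q.1 r) hij
      simpa [hg] using this
    have h2 : (0 < x i ↔ 0 < x j) := by
      have := congrArg (fun q => q.2) hij
      simpa [hg] using this
    have hsub : ∀ r : ℕ, ∀ _ : Fact r.Prime, padicNorm r (x i - x j) ≤ 1 := by
      intro r hr
      by_cases hrD : r ∣ D
      · have hmem : r ∈ D.primeFactors := Nat.mem_primeFactors.mpr ⟨hr.out, hrD, hD⟩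
        exact h.sub_le_of_iff hn hc hD hrD (h1 ⟨r, hmem⟩)
      · have hcr := norm_c_le hc hrD
        exact norm_sub_le _ _ (h.norm_le_one hn hcr _) (h.norm_le_one hn hcr _)
    have habs1 : 1 ≤ |x i - x j| := one_le_abs_of_norm (h.sub_ne_zero' hmod) hsub
    have hadd0 := h.add_ne_zero hmod
    have hadd : ∀ r : ℕ, ∀ _ : Fact r.Prime, padicNorm r (x i + x j)⁻¹ ≤ 1 := by
      intro r hr
      have hinv : padicNorm r (x i + x j)⁻¹ = (padicNorm r (x i + x j))⁻¹ := by
        rw [← one_div, padicNorm.div, padicNorm.one, one_div]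
      rw [hinv]
      by_cases hrD : r ∣ D
      · rcases le_or_gt (B D r) 1 with hBr | hBr
        · rw [h.norm_add_small hn hc hD hrD hBr hmod, inv_one]
        · rcases h.agree_or hn hc hD hrD hBr hmod with h3 | h3
          · rw [h3.2]
            exact inv_le_one_of_one_le₀ hBr.le
          · have := hsub r hr
            rw [h3.1] at this
            exact absurd this (not_le.mpr hBr)
      · rw [h.norm_add_good hn hc hrD hmod, inv_one]
    have hlt : padicNorm p (x i + x j)⁻¹ < 1 := by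
      have hinv : padicNorm p (x i + x j)⁻¹ = (padicNorm p (x i + x j))⁻¹ := by
        rw [← one_div, padicNorm.div, padicNorm.one, one_div]
      rw [hinv]
      rcases h.agree_or hn hc hD hpD hB hmod with h3 | h3
      · rw [h3.2]
        exact inv_lt_one_of_one_lt₀ hB
      · have := hsub p hp
        rw [h3.1] at this
        exact absurd this (not_le.mpr hB)
    have habs2 : 2 ≤ |(x i + x j)⁻¹| := two_le_abs_of_norm (inv_ne_zero hadd0) hadd hlt
    rw [abs_inv] at habs2
    have h5 : 0 < |x i + x j| := abs_pos.mpr hadd0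
    have h6 : |x i + x j| ≤ 1 / 2 := by
      rw [le_div_iff₀ two_pos]
      have := mul_le_mul_of_nonneg_right habs2 h5.le
      rw [inv_mul_cancel₀ h5.ne'] at this
      linarith
    have h7 := abs_sub_le_abs_add h2
    linarith
  have hcard := Fintype.card_le_of_injective g hinj
  simp only [Fintype.card_fin, Fintype.card_prod, Fintype.card_bool, Fintype.card_fun,
    Fintype.card_coe] at hcard
  rw [pow_succ]
  exact hcard

end Cyc

end Pool.Agent.Poonen40
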