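import Pool.Agent.Poonen40.Upper

/-!
# The lower bound: cycles of length `3`
-/

set_option autoImplicit false

open Function
open scoped Classical

namespace Pool.Agent.Poonen40

/-- the denominator of the `3`-cycle with parameter `a / b` -/
def Dm (q : ℕ × ℕ) : ℕ := 2 * q.1 * q.2 * (q.1 + q.2)

theorem coprime_Dm {a b : ℕ} (h : Nat.Coprime a b) :
    Nat.Coprime (a * (a + b) ^ 2 + b ^ 3) (2 * a * b * (a + b)) := by
  rw [Nat.coprime_iff_gcd_eq_one]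
  by_contra hne
  obtain ⟨p, hp, hpd⟩ := Nat.exists_prime_and_dvd hne
  have h1 : p ∣ a * (a + b) ^ 2 + b ^ 3 := hpd.trans (Nat.gcd_dvd_left _ _)
  have h2 : p ∣ 2 * a * b * (a + b) := hpd.trans (Nat.gcd_dvd_right _ _)
  have hab : p ∣ a → p ∣ b → False := by
    intro ha hb
    have h3 := Nat.dvd_gcd ha hb
    rw [Nat.Coprime.gcd_eq_one h] at h3
    exact hp.one_lt.ne' (Nat.dvd_one.mp h3)
  have c1 : p ∣ a → False := by
    intro ha
    have h3 : p ∣ b ^ 3 := (Nat.dvd_add_right (ha.mul_right _)).mp h1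
    exact hab ha (hp.dvd_of_dvd_pow h3)
  have c2 : p ∣ b → False := by
    intro hb
    have h3 : p ∣ a * (a + b) ^ 2 := (Nat.dvd_add_left (dvd_pow hb (by norm_num))).mp h1
    rcases (hp.dvd_mul).mp h3 with h4 | h4
    · exact c1 h4
    · have h5 := hp.dvd_of_dvd_pow h4
      exact c1 ((Nat.dvd_add_left hb).mp h5)
  have c3 : p ∣ a + b → False := by
    intro hs
    have h3 : p ∣ b ^ 3 := (Nat.dvd_add_right ((dvd_pow hs two_ne_zero).mul_left a)).mp h1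
    exact c2 (hp.dvd_of_dvd_pow h3)
  rcases (hp.dvd_mul).mp h2 with h3 | h3
  · rcases (hp.dvd_mul).mp h3 with h4 | h4
    · rcases (hp.dvd_mul).mp h4 with h5 | h5
      · have hp2 : p = 2 := (Nat.prime_dvd_prime_iff_eq hp Nat.prime_two).mp h5
        subst hp2
        have ha : a % 2 = 1 := by
          have : ¬ 2 ∣ a := c1
          omega
        have hb : b % 2 = 1 := by
          have : ¬ 2 ∣ b := c2
          omega
        exact c3 (by omega)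
      · exact c1 h5
    · exact c2 h4
  · exact c3 h3

theorem excK_Dm {a b : ℕ} (ha : 0 < a) (hb : 0 < b) (h : Nat.Coprime a b) :
    ExcK 3 (Dm (a, b)) := by
  have haq : (0 : ℚ) < a := by exact_mod_cast ha
  have hbq : (0 : ℚ) < b := by exact_mod_cast hb
  set c : ℚ := -((a : ℚ) ^ 6 + 2 * a ^ 5 * b + 4 * a ^ 4 * b ^ 2 + 8 * a ^ 3 * b ^ 3 +
    9 * a ^ 2 * b ^ 4 + 4 * a * b ^ 5 + b ^ 6) / (4 * a ^ 2 * b ^ 2 * (a + b) ^ 2) with hc
  set x1 : ℚ := ((a : ℚ) * (a + b) ^ 2 + b ^ 3) / (2 * a * b * (a + b)) with hx1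
  set x2 : ℚ := ((a : ℚ) ^ 3 - a * b ^ 2 - b ^ 3) / (2 * a * b * (a + b)) with hx2
  set x3 : ℚ := -((a : ℚ) ^ 3 + 2 * a ^ 2 * b + 3 * a * b ^ 2 + b ^ 3) / (2 * a * b * (a + b))
    with hx3
  have hs : (a : ℚ) + b ≠ 0 := by positivity
  have e1 : x1 ^ 2 + c = x2 := by
    rw [hx1, hc, hx2]
    field_simp
    ring
  have e2 : x2 ^ 2 + c = x3 := by
    rw [hx2, hc, hx3]
    field_simp
    ring
  have e3 : x3 ^ 2 + c = x1 := by
    rw [hx3, hc, hx1]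
    field_simp
    ring
  have hne : x2 ≠ x1 := by
    intro h0
    have h1 : x1 - x2 = ((a : ℚ) ^ 2 + a * b + b ^ 2) / (a * (a + b)) := by
      rw [hx1, hx2]
      field_simp
      ring
    have h2 : (0 : ℚ) < ((a : ℚ) ^ 2 + a * b + b ^ 2) / (a * (a + b)) := by positivity
    rw [← h1, h0, sub_self] at h2
    exact lt_irrefl _ h2
  have hper : IsPeriodicPt (fun y : ℚ => y ^ 2 + c) 3 x1 := by
    show (fun y : ℚ => y ^ 2 + c)^[3] x1 = x1
    simp only [Function.iterate_succ, Function.iterate_zero, Function.comp, id_eq]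
    rw [e1, e2, e3]
  have hmin : minimalPeriod (fun y : ℚ => y ^ 2 + c) x1 = 3 := by
    rcases (Nat.Prime.eq_one_or_self_of_dvd Nat.prime_three _ hper.minimalPeriod_dvd) with h1 | h1
    · rw [minimalPeriod_eq_one_iff_isFixedPt] at h1
      have h2 : x1 ^ 2 + c = x1 := h1
      rw [e1] at h2
      exact absurd h2 hne
    · exact h1
  have hden : x1.den = Dm (a, b) := by
    have h1 := Rat.den_div_eq_of_coprime (a := ((a * (a + b) ^ 2 + b ^ 3 : ℕ) : ℤ))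
      (b := ((2 * a * b * (a + b) : ℕ) : ℤ)) (by positivity) (by
        rw [Int.natAbs_natCast, Int.natAbs_natCast]
        exact coprime_Dm h)
    have h2 : (((a * (a + b) ^ 2 + b ^ 3 : ℕ) : ℤ) : ℚ) / (((2 * a * b * (a + b) : ℕ) : ℤ) : ℚ) =
        x1 := by
      rw [hx1]
      push_cast
      ring
    rw [h2] at h1
    exact_mod_cast h1
  refine ⟨c, x1, ?_, by rw [hmin]⟩
  rw [← hden]
  exact den_eq_sq (mk_mem_periodicPts (by norm_num) hper)

/-! ### coprime pairs -/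

/-- pairs of coprime numbers up to `X` -/
def cop (X : ℕ) : Finset (ℕ × ℕ) :=
  (Finset.Ioc 0 X ×ˢ Finset.Ioc 0 X).filter fun q => Nat.Coprime q.1 q.2

theorem sum_inv_sq_le (m : ℕ) : ∑ d ∈ Finset.Icc 2 (m + 2), (1 : ℝ) / (d : ℝ) ^ 2 ≤
    3 / 4 - 1 / ((m : ℝ) + 2) := by
  induction m with
  | zero => norm_num
  | succ m ih =>
    rw [show m + 1 + 2 = (m + 2) + 1 by ring, Finset.sum_Icc_succ_top (by omega)]
    have h1 : (1 : ℝ) / (((m + 2 + 1 : ℕ) : ℝ)) ^ 2 ≤ 1 / ((m : ℝ) + 2) - 1 / ((m : ℝ) + 3) := by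
      have h2 : (0 : ℝ) ≤ m := Nat.cast_nonneg m
      push_cast
      rw [div_sub_div _ _ (by positivity) (by positivity), div_le_div_iff₀ (by positivity)
        (by positivity)]
      nlinarith
    push_cast at h1 ⊢
    have e : (m : ℝ) + 1 + 2 = m + 3 := by ring
    rw [e]
    linarith

theorem card_cop_ge (X : ℕ) : (X : ℝ) ^ 2 / 4 ≤ ((cop X).card : ℝ) := by
  rcases Nat.lt_or_ge X 2 with hX | hX
  · interval_cases X
    · simp
    · have : cop 1 = {(1, 1)} := by decide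
      rw [this]
      norm_num
  obtain ⟨m, rfl⟩ : ∃ m, X = m + 2 := ⟨X - 2, by omega⟩
  set X := m + 2 with hXdef
  set P : Finset (ℕ × ℕ) := Finset.Ioc 0 X ×ˢ Finset.Ioc 0 X with hP
  set bad : Finset (ℕ × ℕ) := P.filter fun q => ¬ Nat.Coprime q.1 q.2 with hbad
  have h1 : (cop X).card + bad.card = P.card := by
    unfold cop
    rw [hbad]
    exact Finset.card_filter_add_card_filter_not _
  have h2 : P.card = X ^ 2 := by
    rw [hP, Finset.card_product, Nat.card_Ioc, Nat.sub_zero, sq]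
  have hsub : bad ⊆ (Finset.Icc 2 X).biUnion fun d =>
      ((Finset.Ioc 0 X).filter fun a => d ∣ a) ×ˢ ((Finset.Ioc 0 X).filter fun a => d ∣ a) := by
    intro q hq
    obtain ⟨h3, h4⟩ := Finset.mem_filter.mp hq
    rw [hP, Finset.mem_product, Finset.mem_Ioc, Finset.mem_Ioc] at h3
    have h5 : 2 ≤ Nat.gcd q.1 q.2 := by
      have h6 : Nat.gcd q.1 q.2 ≠ 1 := h4
      have h7 : 0 < Nat.gcd q.1 q.2 := Nat.gcd_pos_of_pos_left _ h3.1.1
      omega
    rw [Finset.mem_biUnion]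
    refine ⟨Nat.gcd q.1 q.2, ?_, ?_⟩
    · rw [Finset.mem_Icc]
      exact ⟨h5, (Nat.gcd_le_left _ h3.1.1).trans h3.1.2⟩
    · rw [Finset.mem_product, Finset.mem_filter, Finset.mem_filter, Finset.mem_Ioc, Finset.mem_Ioc]
      exact ⟨⟨h3.1, Nat.gcd_dvd_left _ _⟩, ⟨h3.2, Nat.gcd_dvd_right _ _⟩⟩
  have h3 : bad.card ≤ ∑ d ∈ Finset.Icc 2 X, (X / d) * (X / d) := by
    refine (Finset.card_le_card hsub).trans (Finset.card_biUnion_le.trans ?_)
    apply Finset.sum_le_sum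
    intro d _
    rw [Finset.card_product, Nat.Ioc_filter_dvd_card_eq_div]
  have h4 : (bad.card : ℝ) ≤ (X : ℝ) ^ 2 * (3 / 4) := by
    calc (bad.card : ℝ) ≤ ((∑ d ∈ Finset.Icc 2 X, (X / d) * (X / d) : ℕ) : ℝ) := by
          exact_mod_cast h3
      _ ≤ ∑ d ∈ Finset.Icc 2 X, (X : ℝ) ^ 2 * (1 / (d : ℝ) ^ 2) := by
          push_cast
          apply Finset.sum_le_sum
          intro d hd
          have h5 : ((X / d : ℕ) : ℝ) ≤ (X : ℝ) / d := Nat.cast_div_le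
          have h6 : (0 : ℝ) ≤ ((X / d : ℕ) : ℝ) := Nat.cast_nonneg _
          calc ((X / d : ℕ) : ℝ) * ((X / d : ℕ) : ℝ) ≤ (X : ℝ) / d * ((X : ℝ) / d) :=
                mul_le_mul h5 h5 h6 (by positivity)
            _ = (X : ℝ) ^ 2 * (1 / (d : ℝ) ^ 2) := by ring
      _ = (X : ℝ) ^ 2 * ∑ d ∈ Finset.Icc 2 X, 1 / (d : ℝ) ^ 2 := by rw [Finset.mul_sum]
      _ ≤ (X : ℝ) ^ 2 * (3 / 4) := by
          apply mul_le_mul_of_nonneg_left _ (by positivity)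
          have h7 := sum_inv_sq_le m
          have h8 : (0 : ℝ) ≤ 1 / ((m : ℝ) + 2) := by positivity
          rw [hXdef]
          linarith
  have h5 : ((cop X).card : ℝ) + bad.card = (X : ℝ) ^ 2 := by
    have h6 : (((cop X).card + bad.card : ℕ) : ℝ) = ((X ^ 2 : ℕ) : ℝ) := by rw [h1, h2]
    push_cast at h6
    exact h6
  linarith

theorem card_cop_le {X N T : ℕ} (hX : 4 * X ^ 3 ≤ N)
    (hT : ∀ m : ℕ, m ≠ 0 → m ≤ N → m.divisors.card ≤ T) :
    (cop X).card ≤ T ^ 2 * ((Finset.Icc 1 N).filter (ExcK 3)).card := by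
  have hb : ∀ q ∈ cop X, 0 < q.1 ∧ 0 < q.2 ∧ 1 ≤ Dm q ∧ Dm q ≤ N ∧ ExcK 3 (Dm q) := by
    intro q hq
    obtain ⟨h3, h4⟩ := Finset.mem_filter.mp hq
    rw [Finset.mem_product, Finset.mem_Ioc, Finset.mem_Ioc] at h3
    obtain ⟨⟨h5, h6⟩, h7, h8⟩ := h3
    refine ⟨h5, h7, ?_, ?_, excK_Dm h5 h7 h4⟩
    · unfold Dm
      have : 0 < 2 * q.1 * q.2 * (q.1 + q.2) := by positivity
      omega
    · unfold Dm
      calc 2 * q.1 * q.2 * (q.1 + q.2) ≤ 2 * X * X * (X + X) := by gcongr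
        _ = 4 * X ^ 3 := by ring
        _ ≤ N := hX
  have h1 : (cop X).card ≤ T ^ 2 * ((cop X).image Dm).card := by
    apply Finset.card_le_mul_card_image
    intro m hm
    rw [Finset.mem_image] at hm
    obtain ⟨q0, hq0, rfl⟩ := hm
    obtain ⟨k1, k2, k3, k4, k5⟩ := hb q0 hq0
    have h2 : ((cop X).filter fun q => Dm q = Dm q0) ⊆
        (Dm q0).divisors ×ˢ (Dm q0).divisors := by
      intro q hq
      obtain ⟨h3, h4⟩ := Finset.mem_filter.mp hq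
      rw [Finset.mem_product, Nat.mem_divisors, Nat.mem_divisors, ← h4]
      have h5 : Dm q ≠ 0 := by omega
      refine ⟨⟨⟨2 * q.2 * (q.1 + q.2), ?_⟩, h5⟩, ⟨⟨2 * q.1 * (q.1 + q.2), ?_⟩, h5⟩⟩
      · unfold Dm; ring
      · unfold Dm; ring
    refine (Finset.card_le_card h2).trans ?_
    rw [Finset.card_product, sq]
    have h3 := hT (Dm q0) (by omega) k4
    exact Nat.mul_le_mul h3 h3
  refine h1.trans (Nat.mul_le_mul_left _ (Finset.card_le_card ?_))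
  intro m hm
  rw [Finset.mem_image] at hm
  obtain ⟨q, hq, rfl⟩ := hm
  obtain ⟨k1, k2, k3, k4, k5⟩ := hb q hq
  exact Finset.mem_filter.mpr ⟨Finset.mem_Icc.mpr ⟨k3, k4⟩, k5⟩

/-- the lower bound -/
theorem lower_three {ε : ℝ} (hε : 0 < ε) : ∃ k : ℝ, 0 < k ∧ ∀ N : ℕ, 4 ≤ N →
    k * (N : ℝ) ^ (2 / 3 - ε) ≤ (((Finset.Icc 1 N).filter (ExcK 3)).card : ℝ) := by
  set η : ℝ := ε / 2 with hη
  have hη0 : 0 < η := by positivity
  obtain ⟨C, hC, h2⟩ := card_divisors_le hη0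
  set k : ℝ := (1 / 4 : ℝ) ^ (2 / 3 : ℝ) / (16 * C ^ 2) with hk
  refine ⟨k, by positivity, fun N hN => ?_⟩
  have hN4 : (4 : ℝ) ≤ N := by exact_mod_cast hN
  have hN0 : (0 : ℝ) < N := by linarith
  set t : ℝ := ((N : ℝ) / 4) ^ (1 / 3 : ℝ) with ht
  have ht1 : 1 ≤ t := Real.one_le_rpow (by linarith) (by norm_num)
  have ht3 : t ^ 3 = (N : ℝ) / 4 := by
    rw [ht, ← Real.rpow_natCast, ← Real.rpow_mul (by positivity)]
    norm_num
  have ht2 : t ^ 2 = (1 / 4 : ℝ) ^ (2 / 3 : ℝ) * (N : ℝ) ^ (2 / 3 : ℝ) := by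
    rw [ht, ← Real.rpow_natCast, ← Real.rpow_mul (by positivity),
      ← Real.mul_rpow (by norm_num) hN0.le]
    congr 1
    · ring
    · norm_num
  set X : ℕ := ⌊t⌋₊ with hX
  have hX1 : 1 ≤ X := Nat.le_floor (by exact_mod_cast ht1)
  have hXt : (X : ℝ) ≤ t := Nat.floor_le (by linarith)
  have htX : t ≤ 2 * X := by
    have h3 := Nat.lt_floor_add_one t
    have h4 : (1 : ℝ) ≤ X := by exact_mod_cast hX1
    linarith
  have hXN : 4 * X ^ 3 ≤ N := by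
    have h3 : (X : ℝ) ^ 3 ≤ t ^ 3 := pow_le_pow_left₀ (Nat.cast_nonneg _) hXt 3
    rw [ht3] at h3
    have h4 : (4 : ℝ) * (X : ℝ) ^ 3 ≤ N := by linarith
    exact_mod_cast h4
  set T : ℕ := ⌊C * (N : ℝ) ^ η⌋₊ with hT
  have hTb : ∀ m : ℕ, m ≠ 0 → m ≤ N → m.divisors.card ≤ T := by
    intro m hm hmN
    apply Nat.le_floor
    refine (h2 m hm).trans ?_
    have : (m : ℝ) ≤ N := by exact_mod_cast hmN
    gcongr
  have h3 := card_cop_le hXN hTb
  have h4 := card_cop_ge X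
  have h5 : (T : ℝ) ≤ C * (N : ℝ) ^ η := Nat.floor_le (by positivity)
  set E : ℝ := (((Finset.Icc 1 N).filter (ExcK 3)).card : ℝ) with hE
  have hE0 : 0 ≤ E := Nat.cast_nonneg _
  have h6 : ((cop X).card : ℝ) ≤ (T : ℝ) ^ 2 * E := by
    rw [hE]
    exact_mod_cast h3
  have h7 : (T : ℝ) ^ 2 ≤ C ^ 2 * (N : ℝ) ^ ε := by
    calc (T : ℝ) ^ 2 ≤ (C * (N : ℝ) ^ η) ^ 2 := pow_le_pow_left₀ (Nat.cast_nonneg _) h5 2
      _ = C ^ 2 * (N : ℝ) ^ ε := by
          rw [mul_pow, ← Real.rpow_natCast ((N : ℝ) ^ η), ← Real.rpow_mul hN0.le]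
          congr 2
          rw [hη]
          push_cast
          ring
  have h8 : t ^ 2 / 16 ≤ C ^ 2 * (N : ℝ) ^ ε * E := by
    calc t ^ 2 / 16 ≤ (2 * (X : ℝ)) ^ 2 / 16 := by
          have := pow_le_pow_left₀ (by linarith : (0 : ℝ) ≤ t) htX 2
          linarith
      _ = (X : ℝ) ^ 2 / 4 := by ring
      _ ≤ (T : ℝ) ^ 2 * E := h4.trans h6
      _ ≤ C ^ 2 * (N : ℝ) ^ ε * E := mul_le_mul_of_nonneg_right h7 hE0
  have h9 : (0 : ℝ) < (N : ℝ) ^ ε := by positivity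
  have h10 : (N : ℝ) ^ (2 / 3 - ε) = (N : ℝ) ^ (2 / 3 : ℝ) / (N : ℝ) ^ ε := Real.rpow_sub hN0 _ _
  rw [h10, hk]
  calc (1 / 4 : ℝ) ^ (2 / 3 : ℝ) / (16 * C ^ 2) * ((N : ℝ) ^ (2 / 3 : ℝ) / (N : ℝ) ^ ε)
      = (t ^ 2 / 16) / (C ^ 2 * (N : ℝ) ^ ε) := by
        rw [ht2]
        field_simp
    _ ≤ E := by
        rw [div_le_iff₀ (by positivity)]
        linarith

end Pool.Agent.Poonen40
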