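import Mathlib

/-!
# Rational cycles of `y ↦ y ^ 2 + c`: the `p`-adic sizes of `x_i + x_j` and `x_i - x_j`
-/

set_option autoImplicit false

namespace Pool.Agent.Poonen40

/-- a cycle of exact length `n` of `y ↦ y ^ 2 + c`, written as an `n`-periodic sequence -/
structure Cyc (c : ℚ) (n : ℕ) (x : ℕ → ℚ) : Prop where
  step : ∀ i, x (i + 1) = x i ^ 2 + c
  per : ∀ i, x (i + n) = x i
  inj : ∀ i j, x i = x j → i ≡ j [MOD n]

section discrete

variable {p : ℕ} [hp : Fact p.Prime]

theorem norm_discrete {z w : ℚ} (h : padicNorm p z < padicNorm p w) :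
    (p : ℚ) * padicNorm p z ≤ padicNorm p w := by
  have hw : w ≠ 0 := by
    rintro rfl
    rw [padicNorm.zero] at h
    exact absurd h (not_lt.mpr (padicNorm.nonneg z))
  by_cases hz : z = 0
  · rw [hz, padicNorm.zero, mul_zero]
    exact padicNorm.nonneg w
  · rw [padicNorm.eq_zpow_of_nonzero hz, padicNorm.eq_zpow_of_nonzero hw] at h ⊢
    have hp1 : (1 : ℚ) < p := by exact_mod_cast hp.out.one_lt
    have h1 : -padicValRat p z < -padicValRat p w := (zpow_lt_zpow_iff_right₀ hp1).mp h
    have h2 : (p : ℚ) * (p : ℚ) ^ (-padicValRat p z) = (p : ℚ) ^ (-padicValRat p z + 1) := by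
      rw [zpow_add_one₀ (by positivity)]
      ring
    rw [h2]
    exact (zpow_le_zpow_iff_right₀ hp1).mpr (by omega)

theorem norm_sq (y : ℚ) : padicNorm p (y ^ 2) = padicNorm p y ^ 2 := by
  rw [sq, padicNorm.mul, sq]

theorem norm_step_gt {y c : ℚ} (h : padicNorm p c < padicNorm p y ^ 2) :
    padicNorm p (y ^ 2 + c) = padicNorm p y ^ 2 := by
  rw [padicNorm.add_eq_max_of_ne, norm_sq, max_eq_left h.le]
  rw [norm_sq]
  exact h.ne'

theorem norm_step_lt {y c : ℚ} (h : padicNorm p y ^ 2 < padicNorm p c) :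
    padicNorm p (y ^ 2 + c) = padicNorm p c := by
  rw [padicNorm.add_eq_max_of_ne, norm_sq, max_eq_right h.le]
  rw [norm_sq]
  exact h.ne

theorem norm_add_le (y z : ℚ) {b : ℚ} (hy : padicNorm p y ≤ b) (hz : padicNorm p z ≤ b) :
    padicNorm p (y + z) ≤ b :=
  padicNorm.nonarchimedean.trans (max_le hy hz)

theorem norm_sub_le (y z : ℚ) {b : ℚ} (hy : padicNorm p y ≤ b) (hz : padicNorm p z ≤ b) :
    padicNorm p (y - z) ≤ b :=
  padicNorm.sub.trans (max_le hy hz)

end discrete

namespace Cyc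

variable {c : ℚ} {n : ℕ} {x : ℕ → ℚ}

theorem shift (h : Cyc c n x) (k : ℕ) : Cyc c n (fun i => x (i + k)) where
  step i := by
    show x (i + 1 + k) = x (i + k) ^ 2 + c
    rw [show i + 1 + k = i + k + 1 by ring, h.step]
  per i := by
    show x (i + n + k) = x (i + k)
    rw [show i + n + k = i + k + n by ring, h.per]
  inj i j hij := Nat.ModEq.add_right_cancel' k (h.inj _ _ hij)

theorem per_mul (h : Cyc c n x) (i m : ℕ) : x (i + n * m) = x i := by
  induction m with
  | zero => simp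
  | succ m ih => rw [show i + n * (m + 1) = i + n * m + n by ring, h.per, ih]

theorem mod_eq (h : Cyc c n x) (i : ℕ) : x (i % n) = x i := by
  conv_rhs => rw [← Nat.mod_add_div i n]
  rw [h.per_mul]

theorem congr (h : Cyc c n x) {i j : ℕ} (hij : i ≡ j [MOD n]) : x i = x j := by
  rw [← h.mod_eq i, ← h.mod_eq j, hij]

theorem ne_of (h : Cyc c n x) {i j : ℕ} (hij : ¬ i ≡ j [MOD n]) : x i ≠ x j :=
  fun e => hij (h.inj i j e)

theorem add_ne_zero (h : Cyc c n x) {i j : ℕ} (hij : ¬ i ≡ j [MOD n]) : x i + x j ≠ 0 := by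
  intro e
  have h1 : x (i + 1) = x (j + 1) := by
    rw [h.step, h.step, show x i = -x j by linarith]
    ring
  exact hij (Nat.ModEq.add_right_cancel' 1 (h.inj _ _ h1))

theorem sub_ne_zero' (h : Cyc c n x) {i j : ℕ} (hij : ¬ i ≡ j [MOD n]) : x i - x j ≠ 0 :=
  sub_ne_zero.mpr (h.ne_of hij)

theorem mul_eq (h : Cyc c n x) (i j : ℕ) :
    (x i + x j) * (x i - x j) = x (i + 1) - x (j + 1) := by
  rw [h.step, h.step]
  ring

theorem not_modEq_add {i j : ℕ} (hij : ¬ i ≡ j [MOD n]) (t : ℕ) : ¬ i + t ≡ j + t [MOD n] :=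
  fun e => hij (Nat.ModEq.add_right_cancel' t e)

variable {p : ℕ} [hp : Fact p.Prime]

theorem norm_mul_eq (h : Cyc c n x) (i j : ℕ) :
    padicNorm p (x i + x j) * padicNorm p (x i - x j) =
      padicNorm p (x (i + 1) - x (j + 1)) := by
  rw [← padicNorm.mul, h.mul_eq]

theorem exists_max (h : Cyc c n x) (hn : 0 < n) :
    ∃ i, ∀ j, padicNorm p (x j) ≤ padicNorm p (x i) := by
  obtain ⟨i, -, hi⟩ := Finset.exists_max_image (Finset.range n) (fun i => padicNorm p (x i))
    ⟨0, Finset.mem_range.mpr hn⟩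
  refine ⟨i, fun j => ?_⟩
  rw [← h.mod_eq j]
  exact hi _ (Finset.mem_range.mpr (Nat.mod_lt _ hn))

/-- good primes: the points of the cycle are `p`-integral -/
theorem norm_le_one (h : Cyc c n x) (hn : 0 < n) (hc : padicNorm p c ≤ 1) (j : ℕ) :
    padicNorm p (x j) ≤ 1 := by
  obtain ⟨i, hi⟩ := h.exists_max (p := p) hn
  refine (hi j).trans ?_
  by_contra hcon
  push Not at hcon
  have h0 : padicNorm p c < padicNorm p (x i) ^ 2 := by nlinarith
  have h1 := hi (i + 1)
  rw [h.step, norm_step_gt h0] at h1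
  nlinarith

/-- bad primes: the size of the points of the cycle -/
theorem norm_sq_eq (h : Cyc c n x) (hn : 0 < n) (hc : 1 < padicNorm p c) (j : ℕ) :
    padicNorm p (x j) ^ 2 = padicNorm p c := by
  obtain ⟨i, hi⟩ := h.exists_max (p := p) hn
  have hi0 : 0 ≤ padicNorm p (x i) := padicNorm.nonneg _
  have h1 : padicNorm p (x i) ^ 2 ≤ padicNorm p c := by
    by_contra hcon
    push Not at hcon
    have h1 := hi (i + 1)
    rw [h.step, norm_step_gt hcon] at h1
    nlinarith
  have hj0 : 0 ≤ padicNorm p (x j) := padicNorm.nonneg _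
  have h2 : padicNorm p (x j) ^ 2 ≤ padicNorm p c := by
    have := hi j
    nlinarith
  rcases h2.eq_or_lt with h3 | h3
  · exact h3
  · exfalso
    have h4 := hi (j + 1)
    rw [h.step, norm_step_lt h3] at h4
    nlinarith

theorem norm_eq_norm (h : Cyc c n x) (hn : 0 < n) (hc : 1 < padicNorm p c) (i j : ℕ) :
    padicNorm p (x i) = padicNorm p (x j) := by
  have h1 := h.norm_sq_eq (p := p) hn hc i
  have h2 := h.norm_sq_eq (p := p) hn hc j
  have h3 : padicNorm p (x i) ^ 2 = padicNorm p (x j) ^ 2 := by rw [h1, h2]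
  rcases sq_eq_sq_iff_eq_or_eq_neg.mp h3 with h4 | h4
  · exact h4
  · have := padicNorm.nonneg (p := p) (x i)
    have := padicNorm.nonneg (p := p) (x j)
    linarith

theorem one_lt_norm (h : Cyc c n x) (hn : 0 < n) (hc : 1 < padicNorm p c) (i : ℕ) :
    1 < padicNorm p (x i) := by
  have h1 := h.norm_sq_eq (p := p) hn hc i
  have h2 := padicNorm.nonneg (p := p) (x i)
  by_contra hcon
  push Not at hcon
  nlinarith

/-- if all the sums along the orbit are `p`-integral then they are `p`-units -/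
theorem norm_add_eq_one_of_le (h : Cyc c n x) (hn : 0 < n) {i j : ℕ} (hij : ¬ i ≡ j [MOD n])
    (hle : ∀ t, padicNorm p (x (i + t) + x (j + t)) ≤ 1) : padicNorm p (x i + x j) = 1 := by
  have hstep : ∀ t, padicNorm p (x (i + (t + 1)) - x (j + (t + 1))) ≤
      padicNorm p (x (i + t) - x (j + t)) := by
    intro t
    rw [show i + (t + 1) = i + t + 1 by ring, show j + (t + 1) = j + t + 1 by ring,
      ← h.norm_mul_eq]
    have := padicNorm.nonneg (p := p) (x (i + t) - x (j + t))
    have := hle t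
    nlinarith
  have hmono : ∀ t, padicNorm p (x (i + (t + 1)) - x (j + (t + 1))) ≤
      padicNorm p (x (i + 1) - x (j + 1)) := by
    intro t
    induction t with
    | zero => simp
    | succ t ih => exact (hstep (t + 1)).trans ih
  obtain ⟨m, rfl⟩ : ∃ m, n = m + 1 := ⟨n - 1, by omega⟩
  have h1 := hmono m
  rw [h.per, h.per, ← h.norm_mul_eq] at h1
  have h2 : 0 < padicNorm p (x i - x j) :=
    lt_of_le_of_ne (padicNorm.nonneg _) (Ne.symm (padicNorm.nonzero (h.sub_ne_zero' hij)))
  have h3 := hle 0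
  rw [add_zero, add_zero] at h3
  have h4 : 1 ≤ padicNorm p (x i + x j) := by
    by_contra hcon
    push Not at hcon
    nlinarith
  exact le_antisymm h3 h4

theorem norm_add_of_good (h : Cyc c n x) (hn : 0 < n) (hc : padicNorm p c ≤ 1) {i j : ℕ}
    (hij : ¬ i ≡ j [MOD n]) : padicNorm p (x i + x j) = 1 :=
  h.norm_add_eq_one_of_le hn hij fun _ =>
    norm_add_le _ _ (h.norm_le_one hn hc _) (h.norm_le_one hn hc _)

section bad

theorem norm_two_mul (h : Cyc c n x) (hn : 0 < n) (hc : 1 < padicNorm p c) (i : ℕ) :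
    padicNorm p (2 * x i) = padicNorm p 2 * padicNorm p (x 0) := by
  rw [padicNorm.mul, h.norm_eq_norm hn hc i 0]

theorem norm_add_le_b (h : Cyc c n x) (hn : 0 < n) (hc : 1 < padicNorm p c) {i j : ℕ}
    (hij : ¬ i ≡ j [MOD n]) :
    padicNorm p (x i + x j) ≤ padicNorm p 2 * padicNorm p (x 0) := by
  by_cases hp2 : p = 2
  · by_contra hcon
    push Not at hcon
    rw [← h.norm_two_mul hn hc j] at hcon
    have h1 : padicNorm p (x i - x j) = padicNorm p (x i + x j) := by
      have h2 : x i - x j = (x i + x j) + (-(2 * x j)) := by ring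
      rw [h2, padicNorm.add_eq_max_of_ne, padicNorm.neg, max_eq_left hcon.le]
      rw [padicNorm.neg]
      exact hcon.ne'
    have h3 := norm_discrete hcon
    have h4 : (p : ℚ) * padicNorm p (2 * x j) = padicNorm p (x 0) := by
      rw [h.norm_two_mul hn hc j, ← mul_assoc]
      subst hp2
      have : padicNorm 2 (2 : ℚ) = ((2 : ℕ) : ℚ)⁻¹ := by
        have := padicNorm.padicNorm_p (p := 2) (by norm_num)
        exact_mod_cast this
      rw [this]
      push_cast
      ring
    rw [h4] at h3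
    have h5 := h.norm_mul_eq (p := p) i j
    rw [h1] at h5
    have h6 : padicNorm p (x (i + 1) - x (j + 1)) ≤ padicNorm p (x 0) :=
      norm_sub_le _ _ (h.norm_eq_norm hn hc _ 0).le (h.norm_eq_norm hn hc _ 0).le
    have h7 := h.one_lt_norm (p := p) hn hc 0
    nlinarith
  · have h1 : padicNorm p (2 : ℚ) = 1 := by
      have : padicNorm p ((2 : ℕ) : ℚ) = 1 := by
        rw [padicNorm.nat_eq_one_iff]
        intro hdvd
        exact hp2 ((Nat.prime_dvd_prime_iff_eq hp.out Nat.prime_two).mp hdvd)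
      exact_mod_cast this
    rw [h1, one_mul]
    exact norm_add_le _ _ (h.norm_eq_norm hn hc _ 0).le (h.norm_eq_norm hn hc _ 0).le

theorem norm_sub_le_b (h : Cyc c n x) (hn : 0 < n) (hc : 1 < padicNorm p c) {i j : ℕ}
    (hij : ¬ i ≡ j [MOD n]) :
    padicNorm p (x i - x j) ≤ padicNorm p 2 * padicNorm p (x 0) := by
  have h2 : x i - x j = (x i + x j) - 2 * x j := by ring
  rw [h2]
  exact norm_sub_le _ _ (h.norm_add_le_b hn hc hij) (h.norm_two_mul hn hc j).le

theorem norm_eq_b (h : Cyc c n x) (hn : 0 < n) (hc : 1 < padicNorm p c) {i j : ℕ}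
    (hij : ¬ i ≡ j [MOD n]) :
    padicNorm p (x i + x j) = padicNorm p 2 * padicNorm p (x 0) ∨
      padicNorm p (x i - x j) = padicNorm p 2 * padicNorm p (x 0) := by
  have h1 : padicNorm p (2 * x i) ≤ max (padicNorm p (x i + x j)) (padicNorm p (x i - x j)) := by
    have : 2 * x i = (x i + x j) + (x i - x j) := by ring
    rw [this]
    exact padicNorm.nonarchimedean
  rw [h.norm_two_mul hn hc i, le_max_iff] at h1
  rcases h1 with h1 | h1
  · exact Or.inl (le_antisymm (h.norm_add_le_b hn hc hij) h1)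
  · exact Or.inr (le_antisymm (h.norm_sub_le_b hn hc hij) h1)

/-- if `B ≤ 1` then `x_i + x_j` is a unit -/
theorem norm_add_of_small (h : Cyc c n x) (hn : 0 < n) (hc : 1 < padicNorm p c)
    (hB : padicNorm p 2 * padicNorm p (x 0) ≤ 1) {i j : ℕ} (hij : ¬ i ≡ j [MOD n]) :
    padicNorm p (x i + x j) = 1 :=
  h.norm_add_eq_one_of_le hn hij fun t =>
    (h.norm_add_le_b hn hc (not_modEq_add hij t)).trans hB

theorem norm_sub_le_one_iff (h : Cyc c n x) (hn : 0 < n) (hc : 1 < padicNorm p c)
    (hB : 1 < padicNorm p 2 * padicNorm p (x 0)) {i j : ℕ} (hij : ¬ i ≡ j [MOD n]) :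
    padicNorm p (x i - x j) ≤ 1 ↔
      padicNorm p (x i + x j) = padicNorm p 2 * padicNorm p (x 0) := by
  constructor
  · intro h1
    rcases h.norm_eq_b hn hc hij with h2 | h2
    · exact h2
    · rw [h2] at h1
      exact absurd h1 (not_le.mpr hB)
  · intro h1
    have h2 := h.norm_mul_eq (p := p) i j
    have h3 := h.norm_sub_le_b hn hc (not_modEq_add hij 1)
    rw [← h2, h1] at h3
    have h4 : (0 : ℚ) < padicNorm p 2 * padicNorm p (x 0) := by linarith
    exact le_of_mul_le_mul_left (by linarith) h4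

theorem norm_add_le_one_iff (h : Cyc c n x) (hn : 0 < n) (hc : 1 < padicNorm p c)
    (hB : 1 < padicNorm p 2 * padicNorm p (x 0)) {i j : ℕ} (hij : ¬ i ≡ j [MOD n]) :
    padicNorm p (x i + x j) ≤ 1 ↔
      padicNorm p (x i - x j) = padicNorm p 2 * padicNorm p (x 0) := by
  constructor
  · intro h1
    rcases h.norm_eq_b hn hc hij with h2 | h2
    · rw [h2] at h1
      exact absurd h1 (not_le.mpr hB)
    · exact h2
  · intro h1
    have h2 := h.norm_mul_eq (p := p) i j
    have h3 := h.norm_sub_le_b hn hc (not_modEq_add hij 1)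
    rw [← h2, h1] at h3
    have h4 : (0 : ℚ) < padicNorm p 2 * padicNorm p (x 0) := by linarith
    exact le_of_mul_le_mul_right (by linarith) h4

/-- the sizes of the differences -/
theorem exists_sub (h : Cyc c n x) (hn : 0 < n) (hc : 1 < padicNorm p c)
    (hB : 1 < padicNorm p 2 * padicNorm p (x 0)) {i j : ℕ} (hij : ¬ i ≡ j [MOD n]) :
    ∃ s < n, padicNorm p (x i - x j) * (padicNorm p 2 * padicNorm p (x 0)) ^ s =
      padicNorm p 2 * padicNorm p (x 0) := by
  set B := padicNorm p 2 * padicNorm p (x 0) with hBdef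
  have key : ∀ t, (∃ s < t, padicNorm p (x i - x j) * B ^ s = B) ∨
      padicNorm p (x i - x j) * B ^ t = padicNorm p (x (i + t) - x (j + t)) := by
    intro t
    induction t with
    | zero => right; simp
    | succ t ih =>
      rcases ih with ⟨s, hs, h1⟩ | h1
      · exact Or.inl ⟨s, by omega, h1⟩
      · rcases h.norm_eq_b hn hc (not_modEq_add hij t) with h2 | h2
        · right
          have h3 := h.norm_mul_eq (p := p) (i + t) (j + t)
          rw [h2, ← h1, ← hBdef] at h3
          rw [show i + (t + 1) = i + t + 1 by ring, show j + (t + 1) = j + t + 1 by ring, ← h3]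
          ring
        · left
          exact ⟨t, by omega, by rw [h1, h2]⟩
  rcases key n with h1 | h1
  · exact h1
  · exfalso
    rw [h.per, h.per] at h1
    have h2 : 0 < padicNorm p (x i - x j) :=
      lt_of_le_of_ne (padicNorm.nonneg _) (Ne.symm (padicNorm.nonzero (h.sub_ne_zero' hij)))
    have h3 : 1 < B ^ n := one_lt_pow₀ hB (by omega)
    nlinarith

/-- the sizes of the sums -/
theorem exists_add (h : Cyc c n x) (hn : 0 < n) (hc : 1 < padicNorm p c)
    (hB : 1 < padicNorm p 2 * padicNorm p (x 0)) {i j : ℕ} (hij : ¬ i ≡ j [MOD n]) :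
    padicNorm p (x i + x j) = padicNorm p 2 * padicNorm p (x 0) ∨
      ∃ s < n, padicNorm p (x i + x j) * (padicNorm p 2 * padicNorm p (x 0)) ^ s = 1 := by
  rcases h.norm_eq_b hn hc hij with h1 | h1
  · exact Or.inl h1
  · right
    obtain ⟨s, hs, h2⟩ := h.exists_sub hn hc hB (not_modEq_add hij 1)
    refine ⟨s, hs, ?_⟩
    rw [← h.norm_mul_eq, h1] at h2
    have h4 : (0 : ℚ) < padicNorm p 2 * padicNorm p (x 0) := by linarith
    have h5 : (padicNorm p (x i + x j) * (padicNorm p 2 * padicNorm p (x 0)) ^ s) *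
        (padicNorm p 2 * padicNorm p (x 0)) = 1 * (padicNorm p 2 * padicNorm p (x 0)) := by
      rw [one_mul]
      linarith [h2]
    exact mul_right_cancel₀ h4.ne' h5

end bad

end Cyc

end Pool.Agent.Poonen40
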