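import Pool.Agent.Poonen40.Lower

/-!
# Counting the parameters `c`
-/

set_option autoImplicit false

open Function Filter Topology
open scoped Classical

namespace Pool.Agent.Poonen40

/-- the rational parameters `c` with denominator at most `N ^ 2` for which `y ↦ y ^ 2 + c` has a
rational periodic point of exact period at least `k` -/
def PP (k N : ℕ) : Set ℚ :=
  {c : ℚ | c.den ≤ N ^ 2 ∧ ∃ x : ℚ, k ≤ minimalPeriod (fun y : ℚ => y ^ 2 + c) x}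

/-- `c` as a function of the first two sums -/
def Fc (q : ℚ × ℚ) : ℚ :=
  (q.1 - (q.1 + (q.1 - q.2) / (1 + q.1)) / 2) - ((q.1 + (q.1 - q.2) / (1 + q.1)) / 2) ^ 2

theorem Cyc.c_eq {c : ℚ} {n : ℕ} {x : ℕ → ℚ} (h : Cyc c n x) (hn : 3 ≤ n) :
    c = Fc (x 0 + x 1, x 1 + x 2) := by
  have h0 := h.a_ne hn
  have h1 : (x 0 + x 1) * (x 0 - x 1) = x 1 - x 2 := h.mul_eq 0 1
  have h2 : x 1 = x 0 ^ 2 + c := h.step 0
  have h3 : ((x 0 + x 1) - (x 1 + x 2)) / (1 + (x 0 + x 1)) = x 0 - x 1 := by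
    rw [div_eq_iff h0]
    linear_combination (-1 : ℚ) * h1
  unfold Fc
  simp only
  rw [h3]
  linear_combination (-1 : ℚ) * h2

theorem PP_subset {k N : ℕ} (hk : 3 ≤ k) : PP k N ⊆
    (((Finset.Icc 1 N).filter (ExcK k)).biUnion fun D =>
      (Qs D (6 * N ^ 2) ×ˢ Qs D (6 * N ^ 2)).image Fc : Finset ℚ) := by
  rintro c ⟨hcN, x, hx⟩
  have hpos : 0 < minimalPeriod (fun y : ℚ => y ^ 2 + c) x := by omega
  have hc : c.den = x.den ^ 2 := den_eq_sq (minimalPeriod_pos_iff_mem_periodicPts.mp hpos)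
  have hcyc := cyc_of c x hpos
  have hn : 3 ≤ minimalPeriod (fun y : ℚ => y ^ 2 + c) x := by omega
  set n := minimalPeriod (fun y : ℚ => y ^ 2 + c) x with hndef
  set X : ℕ → ℚ := fun i => (fun y : ℚ => y ^ 2 + c)^[i] x with hX
  set D := x.den with hDdef
  have hD : D ≠ 0 := x.den_nz
  have hDN : D ≤ N := by
    rw [hc] at hcN
    exact (Nat.pow_le_pow_iff_left two_ne_zero).mp hcN
  rw [Finset.coe_biUnion]
  simp only [Set.mem_iUnion]
  refine ⟨D, ?_, ?_⟩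
  · rw [Finset.mem_coe, Finset.mem_filter, Finset.mem_Icc]
    exact ⟨⟨Nat.one_le_iff_ne_zero.mpr hD, hDN⟩, c, x, hc, hx⟩
  · rw [Finset.mem_coe, Finset.mem_image]
    refine ⟨(X 0 + X 1, X 1 + X 2), ?_, (hcyc.c_eq hn).symm⟩
    have key : ∀ i j, ¬ i ≡ j [MOD n] → X i + X j ∈ Qs D (6 * N ^ 2) := by
      intro i j hij
      have h1 : Ht (6 * N ^ 2) (X i + X j) := (hcyc.ht_add hn hc hD).mono
        (Nat.mul_le_mul_left _ (Nat.pow_le_pow_left hDN 2))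
      exact mem_Qs hD (hcyc.add_ne_zero hij)
        (fun q hq hqD => hcyc.norm_add_good hpos hc hqD hij) h1.1 h1.2
    rw [Finset.mem_product]
    exact ⟨key 0 1 (Cyc.d01 hn), key 1 2 (Cyc.d12 hn)⟩

theorem PP_finite {k N : ℕ} (hk : 3 ≤ k) : (PP k N).Finite :=
  (Finset.finite_toSet _).subset (PP_subset hk)

theorem ncard_PP_le {k N F : ℕ} (hk : 3 ≤ k)
    (hF : ∀ R ≠ 0, R ≤ N → (fac R (6 * N ^ 2)).card ≤ F) :
    (PP k N).ncard ≤ ((Finset.Icc 1 N).filter (ExcK k)).card * (F ^ 2 * 2) ^ 2 := by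
  have h1 := Set.ncard_le_ncard (PP_subset (N := N) hk) (Finset.finite_toSet _)
  rw [Set.ncard_coe_finset] at h1
  refine h1.trans (Finset.card_biUnion_le_card_mul _ _ _ ?_)
  intro D hD
  have h2 := Finset.mem_Icc.mp (Finset.mem_filter.mp hD).1
  refine Finset.card_image_le.trans ?_
  rw [Finset.card_product, ← sq]
  apply Nat.pow_le_pow_left
  refine (card_Qs _ _).trans ?_
  exact Nat.mul_le_mul_right _ (Nat.pow_le_pow_left (hF D (by omega) h2.2) 2)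

/-- from the denominators to the parameters -/
theorem count_param {k : ℕ} (hk : 3 ≤ k) {θ : ℝ}
    (h : ∀ ε : ℝ, 0 < ε → ∃ C : ℝ, ∀ N : ℕ, 1 ≤ N →
      (((Finset.Icc 1 N).filter (ExcK k)).card : ℝ) ≤ C * (N : ℝ) ^ (θ + ε))
    {ε : ℝ} (hε : 0 < ε) : ∃ C : ℝ, ∀ N : ℕ, 1 ≤ N →
      ((PP k N).ncard : ℝ) ≤ C * (N : ℝ) ^ (θ + ε) := by
  obtain ⟨C, hC⟩ := h (ε / 2) (by positivity)
  set η : ℝ := ε / 24 with hη
  have hη0 : 0 < η := by positivity
  obtain ⟨C1, hC1, h1⟩ := card_fac_le hη0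
  set A : ℝ := (6 : ℝ) ^ η with hA
  have hA0 : 0 < A := by positivity
  refine ⟨|C| * (4 * (C1 * A) ^ 4), fun N hN => ?_⟩
  have hN1 : (1 : ℝ) ≤ N := by exact_mod_cast hN
  have hN0 : (0 : ℝ) < N := by linarith
  set F : ℕ := ⌊C1 * A * (N : ℝ) ^ (3 * η)⌋₊ with hFdef
  have hF : ∀ R ≠ 0, R ≤ N → (fac R (6 * N ^ 2)).card ≤ F := by
    intro R hR hRN
    apply Nat.le_floor
    refine (h1 R (6 * N ^ 2) hR).trans ?_
    have k0 : (R : ℝ) ≤ N := by exact_mod_cast hRN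
    have k3 : (R : ℝ) ^ η ≤ (N : ℝ) ^ η := Real.rpow_le_rpow (Nat.cast_nonneg _) k0 hη0.le
    have k4 : (((6 * N ^ 2 : ℕ)) : ℝ) ^ η = A * (N : ℝ) ^ (2 * η) := by
      push_cast
      rw [Real.mul_rpow (by norm_num) (by positivity), hA]
      congr 1
      rw [Real.rpow_mul hN0.le]
      congr 1
      exact_mod_cast (Real.rpow_natCast (N : ℝ) 2).symm
    calc C1 * ((R : ℝ) ^ η * (((6 * N ^ 2 : ℕ)) : ℝ) ^ η)
        ≤ C1 * ((N : ℝ) ^ η * (A * (N : ℝ) ^ (2 * η))) := by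
          rw [k4]
          gcongr
      _ = C1 * A * (N : ℝ) ^ (3 * η) := by
          have : (N : ℝ) ^ (3 * η) = (N : ℝ) ^ η * (N : ℝ) ^ (2 * η) := by
            rw [← Real.rpow_add hN0]
            congr 1
            ring
          rw [this]
          ring
  have h3 := ncard_PP_le hk hF
  have h5 : (F : ℝ) ≤ C1 * A * (N : ℝ) ^ (3 * η) := Nat.floor_le (by positivity)
  have h7 : ((PP k N).ncard : ℝ) ≤
      (((Finset.Icc 1 N).filter (ExcK k)).card : ℝ) * ((F : ℝ) ^ 2 * 2) ^ 2 := by exact_mod_cast h3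
  have h8 : (((Finset.Icc 1 N).filter (ExcK k)).card : ℝ) ≤ |C| * (N : ℝ) ^ (θ + ε / 2) :=
    (hC N hN).trans (mul_le_mul_of_nonneg_right (le_abs_self C) (by positivity))
  refine h7.trans ?_
  calc (((Finset.Icc 1 N).filter (ExcK k)).card : ℝ) * ((F : ℝ) ^ 2 * 2) ^ 2
      ≤ (|C| * (N : ℝ) ^ (θ + ε / 2)) * ((C1 * A * (N : ℝ) ^ (3 * η)) ^ 2 * 2) ^ 2 := by gcongr
    _ = |C| * (4 * (C1 * A) ^ 4) * ((N : ℝ) ^ (θ + ε / 2) * ((N : ℝ) ^ (3 * η)) ^ 4) := by ring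
    _ = |C| * (4 * (C1 * A) ^ 4) * (N : ℝ) ^ (θ + ε) := by
        congr 1
        have k1 : ((N : ℝ) ^ (3 * η)) ^ 4 = (N : ℝ) ^ (12 * η) := by
          rw [← Real.rpow_natCast, ← Real.rpow_mul hN0.le]
          congr 1
          push_cast
          ring
        rw [k1, ← Real.rpow_add hN0]
        congr 1
        rw [hη]
        ring

/-- from the parameters to the denominators -/
theorem card_excK_le {k N : ℕ} (hk : 3 ≤ k) :
    ((Finset.Icc 1 N).filter (ExcK k)).card ≤ (PP k N).ncard := by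
  have hfin := PP_finite (N := N) hk
  have h1 : (Finset.Icc 1 N).filter (ExcK k) ⊆ hfin.toFinset.image fun c => Nat.sqrt c.den := by
    intro D hD
    obtain ⟨h2, c, x, hc, hx⟩ := Finset.mem_filter.mp hD
    rw [Finset.mem_Icc] at h2
    rw [Finset.mem_image]
    refine ⟨c, ?_, ?_⟩
    · rw [Set.Finite.mem_toFinset]
      refine ⟨?_, x, hx⟩
      rw [hc]
      exact Nat.pow_le_pow_left h2.2 2
    · rw [hc]
      exact Nat.sqrt_eq' D
  refine (Finset.card_le_card h1).trans (Finset.card_image_le.trans ?_)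
  rw [Set.ncard_eq_toFinset_card _ hfin]

theorem param_three {ε : ℝ} (hε : 0 < ε) : ∃ C : ℝ, ∀ N : ℕ, 1 ≤ N →
    ((PP 3 N).ncard : ℝ) ≤ C * (N : ℝ) ^ (2 / 3 + ε) :=
  count_param le_rfl (fun _ h => count_three h) hε

theorem param_four {ε : ℝ} (hε : 0 < ε) : ∃ C : ℝ, ∀ N : ℕ, 1 ≤ N →
    ((PP 4 N).ncard : ℝ) ≤ C * (N : ℝ) ^ (9 / 14 + ε) :=
  count_param (by norm_num) (fun _ h => count_four h) hε

theorem param_three_ge {ε : ℝ} (hε : 0 < ε) : ∃ k : ℝ, 0 < k ∧ ∀ N : ℕ, 4 ≤ N →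
    k * (N : ℝ) ^ (2 / 3 - ε) ≤ ((PP 3 N).ncard : ℝ) := by
  obtain ⟨k, hk, h⟩ := lower_three hε
  refine ⟨k, hk, fun N hN => (h N hN).trans ?_⟩
  exact_mod_cast card_excK_le (N := N) le_rfl

theorem ratio_tendsto :
    Tendsto (fun N : ℕ => ((PP 4 N).ncard : ℝ) / (PP 3 N).ncard) atTop (𝓝 0) := by
  obtain ⟨C, hC⟩ := param_four (ε := 1 / 168) (by norm_num)
  obtain ⟨k, hk, hk2⟩ := param_three_ge (ε := 1 / 168) (by norm_num)
  have h1 : Tendsto (fun N : ℕ => |C| / k * (N : ℝ) ^ (-(1 / 84 : ℝ))) atTop (𝓝 0) := by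
    have h2 : Tendsto (fun N : ℕ => (N : ℝ) ^ (-(1 / 84 : ℝ))) atTop (𝓝 0) :=
      (tendsto_rpow_neg_atTop (by norm_num)).comp tendsto_natCast_atTop_atTop
    simpa using h2.const_mul (|C| / k)
  refine squeeze_zero' (Eventually.of_forall fun N => by positivity) ?_ h1
  filter_upwards [eventually_ge_atTop 4] with N hN
  have hN1 : (1 : ℝ) ≤ N := by exact_mod_cast (by omega : 1 ≤ N)
  have hN0 : (0 : ℝ) < N := by linarith
  have h2 := hk2 N hN
  have h3 := hC N (by omega)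
  have h4 : 0 < k * (N : ℝ) ^ (2 / 3 - 1 / 168 : ℝ) := by positivity
  have h5 : ((PP 4 N).ncard : ℝ) ≤ |C| * (N : ℝ) ^ (9 / 14 + 1 / 168 : ℝ) :=
    h3.trans (mul_le_mul_of_nonneg_right (le_abs_self C) (by positivity))
  calc ((PP 4 N).ncard : ℝ) / (PP 3 N).ncard
      ≤ (|C| * (N : ℝ) ^ (9 / 14 + 1 / 168 : ℝ)) / (k * (N : ℝ) ^ (2 / 3 - 1 / 168 : ℝ)) :=
        div_le_div₀ (by positivity) h5 h4 h2
    _ = |C| / k * ((N : ℝ) ^ (9 / 14 + 1 / 168 : ℝ) / (N : ℝ) ^ (2 / 3 - 1 / 168 : ℝ)) := by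
        rw [mul_div_mul_comm]
    _ = |C| / k * (N : ℝ) ^ (-(1 / 84 : ℝ)) := by
        rw [← Real.rpow_sub hN0]
        congr 2
        norm_num

end Pool.Agent.Poonen40
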