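import Pool.Agent.Poonen40.Sets
import Pool.Agent.Poonen40.Psi

/-!
# The power saving
-/

set_option autoImplicit false

open scoped Classical

namespace Pool.Agent.Poonen40

/-- rational numbers with the primes of `R` and of height at most `Y` -/
noncomputable def Qs (R Y : ℕ) : Finset ℚ :=
  ((fac R Y ×ˢ fac R Y) ×ˢ (Finset.univ : Finset Bool)).image
    (fun q => (if q.2 then (1 : ℚ) else -1) * ((q.1.1 : ℚ) / q.1.2))

theorem card_Qs (R Y : ℕ) : (Qs R Y).card ≤ (fac R Y).card ^ 2 * 2 := by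
  refine Finset.card_image_le.trans ?_
  rw [Finset.card_product, Finset.card_product, Finset.card_univ, Fintype.card_bool, sq]

theorem mem_Qs {R Y : ℕ} (hR : R ≠ 0) {z : ℚ} (hz : z ≠ 0)
    (h : ∀ q : ℕ, ∀ _ : Fact q.Prime, ¬ q ∣ R → padicNorm q z = 1) (h1 : z.den ≤ Y)
    (h2 : z.num.natAbs ≤ Y) : z ∈ Qs R Y := by
  have hnum : z.num.natAbs ≠ 0 := by
    rw [Int.natAbs_ne_zero]
    exact Rat.num_ne_zero.mpr hz
  have hden : (z.den : ℚ) ≠ 0 := by exact_mod_cast z.den_nz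
  have hmul := Rat.den_mul_eq_num z
  have hc : ∀ q : ℕ, q.Prime → q ∣ z.num.natAbs → q ∣ z.den → False := by
    intro q hq ha hb
    have h3 := Nat.dvd_gcd ha hb
    rw [Nat.Coprime.gcd_eq_one z.reduced] at h3
    exact hq.one_lt.ne' (Nat.dvd_one.mp h3)
  have m1 : z.num.natAbs ∈ fac R Y := by
    rw [mem_fac hR]
    refine ⟨Nat.one_le_iff_ne_zero.mpr hnum, h2, fun q hq hqn => ?_⟩
    by_contra hqR
    have : Fact q.Prime := ⟨hq⟩
    have h3 := h q this hqR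
    have h4 : padicNorm q (z.den : ℚ) = 1 := by
      rw [padicNorm.nat_eq_one_iff]
      exact fun hd => hc q hq hqn hd
    have h5 : padicNorm q (z.num : ℚ) = 1 := by
      rw [← hmul, padicNorm.mul, h4, h3, one_mul]
    rw [padicNorm.int_eq_one_iff] at h5
    exact h5 (Int.natCast_dvd.mpr hqn)
  have m2 : z.den ∈ fac R Y := by
    rw [mem_fac hR]
    refine ⟨z.pos, h1, fun q hq hqn => ?_⟩
    by_contra hqR
    have : Fact q.Prime := ⟨hq⟩
    have h3 := h q this hqR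
    have h5 : padicNorm q (z.num : ℚ) = 1 := by
      rw [padicNorm.int_eq_one_iff]
      intro hd
      exact hc q hq (Int.natCast_dvd.mp hd) hqn
    have h4 : padicNorm q (z.den : ℚ) = 1 := by
      rw [← hmul, padicNorm.mul, h3, mul_one] at h5
      exact h5
    rw [padicNorm.nat_eq_one_iff] at h4
    exact h4 hqn
  unfold Qs
  rw [Finset.mem_image]
  have hzz : z = (z.num : ℚ) / z.den := (Rat.num_div_den z).symm
  rcases le_or_gt 0 z.num with hs | hs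
  · refine ⟨((z.num.natAbs, z.den), true), ?_, ?_⟩
    · simp only [Finset.mem_product, Finset.mem_univ, and_true]
      exact ⟨m1, m2⟩
    · simp only [if_true, one_mul]
      rw [Nat.cast_natAbs, abs_of_nonneg hs]
      exact hzz.symm
  · refine ⟨((z.num.natAbs, z.den), false), ?_, ?_⟩
    · simp only [Finset.mem_product, Finset.mem_univ, and_true]
      exact ⟨m1, m2⟩
    · simp only [Bool.false_eq_true, if_false]
      rw [Nat.cast_natAbs, abs_of_neg hs]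
      push_cast
      rw [neg_div, neg_mul_neg, one_mul]
      exact hzz.symm

theorem abs_prod_le {a b d Y : ℚ} (ha : |a| ≤ Y) (hb : |b| ≤ Y) (hd : |d| ≤ Y) :
    |a * b * d| ≤ Y ^ 3 := by
  have hY : 0 ≤ Y := (abs_nonneg a).trans ha
  rw [abs_mul, abs_mul]
  calc |a| * |b| * |d| ≤ Y * Y * Y :=
        mul_le_mul (mul_le_mul ha hb (abs_nonneg _) hY) hd (abs_nonneg _) (mul_nonneg hY hY)
    _ = Y ^ 3 := by ring

theorem num_Z_le {α β δ Z : ℚ} {Y : ℕ} (hα : α.den ≤ Y ∧ α.num.natAbs ≤ Y)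
    (hβ : β.den ≤ Y ∧ β.num.natAbs ≤ Y) (hδ : δ.den ≤ Y ∧ δ.num.natAbs ≤ Y)
    (hZ : Z ∈ Zs α β δ) : Z.num.natAbs ≤ 2 * Y ^ 3 := by
  have he : α.den * β.den * δ.den ≠ 0 :=
    mul_ne_zero (mul_ne_zero α.den_nz β.den_nz) δ.den_nz
  have a1 := Rat.den_mul_eq_num α
  have b1 := Rat.den_mul_eq_num β
  have d1 := Rat.den_mul_eq_num δ
  have cden : ∀ z : ℚ, z.den ≤ Y → |(z.den : ℚ)| ≤ Y := by
    intro z hz
    rw [Nat.abs_cast]
    exact_mod_cast hz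
  have cnum : ∀ z : ℚ, z.num.natAbs ≤ Y → |(z.num : ℚ)| ≤ Y := by
    intro z hz
    have : ((z.num.natAbs : ℕ) : ℚ) ≤ Y := by exact_mod_cast hz
    rwa [Nat.cast_natAbs, Int.cast_abs] at this
  have key : ∀ m1 m2 : ℤ, ((α.den * β.den * δ.den : ℕ) : ℚ) * Z = (m1 : ℚ) + m2 →
      |(m1 : ℚ)| ≤ (Y : ℚ) ^ 3 → |(m2 : ℚ)| ≤ (Y : ℚ) ^ 3 → Z.num.natAbs ≤ 2 * Y ^ 3 := by
    intro m1 m2 hm h1 h2
    refine (height_of (m := m1 + m2) he (by rw [hm]; push_cast; ring) ?_).2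
    have h3 : ((α.den * β.den * δ.den : ℕ) : ℚ) * |Z| = |(m1 : ℚ) + m2| := by
      rw [← hm, abs_mul, Nat.abs_cast]
    rw [h3]
    push_cast
    have := abs_add_le (m1 : ℚ) m2
    linarith
  simp only [Zs, Finset.mem_insert, Finset.mem_singleton] at hZ
  rcases hZ with rfl | rfl | rfl | rfl
  · refine key (α.den * β.num * δ.den) (-(α.den * β.den * δ.num)) ?_ ?_ ?_
    · push_cast
      rw [← b1, ← d1]
      ring
    · push_cast
      exact abs_prod_le (cden α hα.1) (cnum β hβ.2) (cden δ hδ.1)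
    · push_cast
      rw [abs_neg]
      exact abs_prod_le (cden α hα.1) (cden β hβ.1) (cnum δ hδ.2)
  · refine key (α.den * β.den * δ.den) (α.num * β.den * δ.den) ?_ ?_ ?_
    · push_cast
      rw [← a1]
      ring
    · push_cast
      exact abs_prod_le (cden α hα.1) (cden β hβ.1) (cden δ hδ.1)
    · push_cast
      exact abs_prod_le (cnum α hα.2) (cden β hβ.1) (cden δ hδ.1)
  · refine key (α.den * β.den * δ.num) (-(α.den * β.den * δ.den)) ?_ ?_ ?_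
    · push_cast
      rw [← d1]
      ring
    · push_cast
      exact abs_prod_le (cden α hα.1) (cden β hβ.1) (cnum δ hδ.2)
    · push_cast
      rw [abs_neg]
      exact abs_prod_le (cden α hα.1) (cden β hβ.1) (cden δ hδ.1)
  · refine key (α.den * β.den * δ.num) (-(α.num * β.num * δ.den)) ?_ ?_ ?_
    · push_cast
      rw [← a1, ← b1, ← d1]
      ring
    · push_cast
      exact abs_prod_le (cden α hα.1) (cden β hβ.1) (cnum δ hδ.2)
    · push_cast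
      rw [abs_neg]
      exact abs_prod_le (cnum α hα.2) (cnum β hβ.2) (cden δ hδ.1)

/-- the possible groups -/
noncomputable def Gs (R Y : ℕ) : Finset ℕ :=
  (Qs R Y ×ˢ Qs R Y ×ˢ Qs R Y).biUnion fun q =>
    ((Zs q.1 q.2.1 q.2.2).filter fun Z => Z ≠ 0 ∧ Z.num.natAbs ≤ 2 * Y ^ 3).biUnion
      fun Z => Z.num.natAbs.divisors

theorem card_Gs {R Y T : ℕ} (hT : ∀ m : ℕ, m ≠ 0 → m ≤ 2 * Y ^ 3 → m.divisors.card ≤ T) :
    (Gs R Y).card ≤ ((fac R Y).card ^ 2 * 2) ^ 3 * (4 * T) := by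
  unfold Gs
  refine (Finset.card_biUnion_le_card_mul _ _ (4 * T) ?_).trans ?_
  · intro q _
    refine (Finset.card_biUnion_le_card_mul _ _ T ?_).trans ?_
    · intro Z hZ
      obtain ⟨-, h1, h2⟩ := Finset.mem_filter.mp hZ
      apply hT _ _ h2
      rw [Int.natAbs_ne_zero]
      exact Rat.num_ne_zero.mpr h1
    · apply Nat.mul_le_mul_right
      exact (Finset.card_filter_le _ _).trans Finset.card_le_four
  · apply Nat.mul_le_mul_right
    rw [Finset.card_product, Finset.card_product]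
    calc (Qs R Y).card * ((Qs R Y).card * (Qs R Y).card) = (Qs R Y).card ^ 3 := by ring
      _ ≤ ((fac R Y).card ^ 2 * 2) ^ 3 := Nat.pow_le_pow_left (card_Qs R Y) 3

theorem mem_Gs_of_rel {D N : ℕ} (hD : D ≠ 0) (hDN : D ≤ N) {S : Finset ℕ} (hS : S ⊆ Act D)
    (h : Rel D S) : Gp D S ∈ Gs (Gp D (Act D \ S)) (6 * N ^ 3) := by
  obtain ⟨α, β, δ, hα, hβ, hδ, Z, hZ, hZ0, hZn⟩ := h
  have hR : Gp D (Act D \ S) ≠ 0 := (Gp_pos hD Finset.sdiff_subset).ne'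
  have hY : 6 * D ^ 3 ≤ 6 * N ^ 3 := Nat.mul_le_mul_left _ (Nat.pow_le_pow_left hDN 3)
  have key : ∀ z : ℚ, Un D S z → z ∈ Qs (Gp D (Act D \ S)) (6 * N ^ 3) := by
    intro z hz
    refine mem_Qs hR hz.1 (fun q hq hqR => hz.2.1 q hq fun hqA => hqR ?_) (hz.2.2.1.trans hY)
      (hz.2.2.2.trans hY)
    have h1 : Bn D q ∣ Gp D (Act D \ S) := Finset.dvd_prod_of_mem _ hqA
    refine dvd_trans ?_ h1
    obtain ⟨k1, k2, k3⟩ := (mem_Act hD).mp (Finset.mem_sdiff.mp hqA).1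
    rw [← Bn_cast k1 hD k2] at k3
    unfold Bn at k3 ⊢
    apply dvd_pow_self
    intro h0
    rw [h0, pow_zero, Nat.cast_one] at k3
    exact lt_irrefl _ k3
  unfold Gs
  rw [Finset.mem_biUnion]
  refine ⟨(α, β, δ), ?_, ?_⟩
  · simp only [Finset.mem_product]
    exact ⟨key α hα, key β hβ, key δ hδ⟩
  · rw [Finset.mem_biUnion]
    refine ⟨Z, Finset.mem_filter.mpr ⟨hZ, hZ0, ?_⟩, ?_⟩
    · exact num_Z_le ⟨hα.2.2.1.trans hY, hα.2.2.2.trans hY⟩ ⟨hβ.2.2.1.trans hY, hβ.2.2.2.trans hY⟩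
        ⟨hδ.2.2.1.trans hY, hδ.2.2.2.trans hY⟩ hZ
    · rw [Nat.mem_divisors]
      refine ⟨Gp_dvd hD hS hZn, ?_⟩
      rw [Int.natAbs_ne_zero]
      exact Rat.num_ne_zero.mpr hZ0

/-- the complementary divisors -/
noncomputable def Rs (N : ℕ) : Finset ℕ := (Finset.Icc 1 N).filter fun R => R ^ 6 ≤ N ^ 5

theorem exc_mem {D N : ℕ} (hD : D ≠ 0) (hDN : D ≤ N) (h : Exc D) :
    ∃ R ∈ Rs N, ∃ G ∈ Gs R (6 * N ^ 3), D = G * R ∨ D = 2 * (G * R) := by
  obtain ⟨c, x, hc, hn⟩ := h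
  have hcyc := cyc_of c x (by omega)
  obtain ⟨S, hS, h1, h2⟩ := hcyc.exists_rel hn hc hD
  have h3 := mem_Gs_of_rel hD hDN hS h2
  have h4 := Gp_mul_sdiff hS
  have hR : 0 < Gp D (Act D \ S) := Gp_pos hD Finset.sdiff_subset
  have hG : 0 < Gp D S := Gp_pos hD hS
  have hA : Gp D (Act D) ≤ D := Gp_le D hD subset_rfl
  refine ⟨Gp D (Act D \ S), ?_, Gp D S, h3, ?_⟩
  · refine Finset.mem_filter.mpr ⟨Finset.mem_Icc.mpr ⟨hR, ?_⟩, ?_⟩
    · exact (Gp_le D hD Finset.sdiff_subset).trans hDN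
    · -- `R ^ 6 * A ≤ R ^ 6 * G ^ 6 = A ^ 6`
      have k1 : Gp D (Act D \ S) ^ 6 * Gp D (Act D) ≤ Gp D (Act D) ^ 5 * Gp D (Act D) := by
        calc Gp D (Act D \ S) ^ 6 * Gp D (Act D) ≤ Gp D (Act D \ S) ^ 6 * Gp D S ^ 6 :=
              Nat.mul_le_mul_left _ h1
          _ = (Gp D S * Gp D (Act D \ S)) ^ 6 := by ring
          _ = Gp D (Act D) ^ 5 * Gp D (Act D) := by rw [h4]; ring
      have k2 : 0 < Gp D (Act D) := Gp_pos hD subset_rfl
      have k3 := Nat.le_of_mul_le_mul_right k1 k2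
      exact k3.trans (Nat.pow_le_pow_left (hA.trans hDN) 5)
  · rw [h4]
    rcases Gp_Act D hD with h5 | h5
    · exact Or.inl h5.symm
    · exact Or.inr h5.symm

theorem card_exc_le {N F T : ℕ} (hF : ∀ R ∈ Rs N, (fac R (6 * N ^ 3)).card ≤ F)
    (hT : ∀ m : ℕ, m ≠ 0 → m ≤ 2 * (6 * N ^ 3) ^ 3 → m.divisors.card ≤ T) :
    ((Finset.Icc 1 N).filter Exc).card ≤ (Rs N).card * (2 * ((F ^ 2 * 2) ^ 3 * (4 * T))) := by
  have hsub : (Finset.Icc 1 N).filter Exc ⊆ (Rs N).biUnion fun R =>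
      ((Gs R (6 * N ^ 3)).image fun G => G * R) ∪ ((Gs R (6 * N ^ 3)).image fun G => 2 * (G * R)) := by
    intro D hD
    obtain ⟨h1, h2⟩ := Finset.mem_filter.mp hD
    rw [Finset.mem_Icc] at h1
    obtain ⟨R, hR, G, hG, h⟩ := exc_mem (by omega) h1.2 h2
    rw [Finset.mem_biUnion]
    refine ⟨R, hR, ?_⟩
    rw [Finset.mem_union, Finset.mem_image, Finset.mem_image]
    rcases h with h | h
    · exact Or.inl ⟨G, hG, h.symm⟩
    · exact Or.inr ⟨G, hG, h.symm⟩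
  refine (Finset.card_le_card hsub).trans (Finset.card_biUnion_le_card_mul _ _ _ ?_)
  intro R hR
  refine (Finset.card_union_le _ _).trans ?_
  have h1 : (Gs R (6 * N ^ 3)).card ≤ (F ^ 2 * 2) ^ 3 * (4 * T) := by
    refine (card_Gs hT).trans ?_
    exact Nat.mul_le_mul_right _ (Nat.pow_le_pow_left (Nat.mul_le_mul_right _
      (Nat.pow_le_pow_left (hF R hR) 2)) 3)
  have h2 : ((Gs R (6 * N ^ 3)).image fun G => G * R).card ≤ (Gs R (6 * N ^ 3)).card :=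
    Finset.card_image_le
  have h3 : ((Gs R (6 * N ^ 3)).image fun G => 2 * (G * R)).card ≤ (Gs R (6 * N ^ 3)).card :=
    Finset.card_image_le
  omega

theorem card_Rs {N : ℕ} (hN : 1 ≤ N) : ((Rs N).card : ℝ) ≤ (N : ℝ) ^ (5 / 6 : ℝ) := by
  have hN0 : (0 : ℝ) ≤ N := Nat.cast_nonneg N
  have hsub : Rs N ⊆ Finset.Icc 1 ⌊(N : ℝ) ^ (5 / 6 : ℝ)⌋₊ := by
    intro R hR
    obtain ⟨h1, h2⟩ := Finset.mem_filter.mp hR
    rw [Finset.mem_Icc] at h1 ⊢
    refine ⟨h1.1, Nat.le_floor ?_⟩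
    have h3 : (R : ℝ) ^ 6 ≤ (N : ℝ) ^ 5 := by exact_mod_cast h2
    have h4 : ((N : ℝ) ^ (5 / 6 : ℝ)) ^ 6 = (N : ℝ) ^ 5 := by
      rw [← Real.rpow_natCast, ← Real.rpow_mul hN0]
      norm_num
    rw [← h4] at h3
    exact le_of_pow_le_pow_left₀ (by norm_num) (by positivity) h3
  have h1 := Finset.card_le_card hsub
  rw [Nat.card_Icc, Nat.add_sub_cancel] at h1
  calc ((Rs N).card : ℝ) ≤ (⌊(N : ℝ) ^ (5 / 6 : ℝ)⌋₊ : ℝ) := by exact_mod_cast h1
    _ ≤ (N : ℝ) ^ (5 / 6 : ℝ) := Nat.floor_le (by positivity)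

/-- The number of the exceptional denominators. -/
theorem count_power {ε : ℝ} (hε : 0 < ε) : ∃ C : ℝ, ∀ N : ℕ, 1 ≤ N →
    (((Finset.Icc 1 N).filter Exc).card : ℝ) ≤ C * (N : ℝ) ^ (5 / 6 + ε) := by
  set η : ℝ := ε / 33 with hη
  have hη0 : 0 < η := by positivity
  obtain ⟨C1, hC1, h1⟩ := card_fac_le hη0
  obtain ⟨C2, hC2, h2⟩ := card_divisors_le hη0
  set A : ℝ := (432 : ℝ) ^ η with hA
  have hA0 : 0 < A := by positivity
  set X : ℝ := 64 * (C1 * A) ^ 6 * (C2 * A) with hX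
  refine ⟨X, fun N hN => ?_⟩
  have hN1 : (1 : ℝ) ≤ N := by exact_mod_cast hN
  have hN0 : (0 : ℝ) < N := by linarith
  set F : ℕ := ⌊C1 * A * (N : ℝ) ^ (4 * η)⌋₊ with hFdef
  set T : ℕ := ⌊C2 * A * (N : ℝ) ^ (9 * η)⌋₊ with hTdef
  have hF : ∀ R ∈ Rs N, (fac R (6 * N ^ 3)).card ≤ F := by
    intro R hR
    obtain ⟨k1, k2⟩ := Finset.mem_filter.mp hR
    rw [Finset.mem_Icc] at k1
    apply Nat.le_floor
    refine (h1 R (6 * N ^ 3) (by omega)).trans ?_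
    have k3 : (R : ℝ) ^ η ≤ (N : ℝ) ^ η :=
      Real.rpow_le_rpow (Nat.cast_nonneg _) (by exact_mod_cast k1.2) hη0.le
    have k4 : (((6 * N ^ 3 : ℕ) : ℝ)) ^ η ≤ A * (N : ℝ) ^ (3 * η) := by
      push_cast
      rw [Real.mul_rpow (by norm_num) (by positivity), hA]
      have k5 : ((N : ℝ) ^ 3) ^ η = (N : ℝ) ^ (3 * η) := by
        rw [Real.rpow_mul hN0.le]
        congr 1
        exact_mod_cast (Real.rpow_natCast (N : ℝ) 3).symm
      rw [k5]
      apply mul_le_mul_of_nonneg_right _ (by positivity)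
      exact Real.rpow_le_rpow (by norm_num) (by norm_num) hη0.le
    calc C1 * ((R : ℝ) ^ η * (((6 * N ^ 3 : ℕ) : ℝ)) ^ η)
        ≤ C1 * ((N : ℝ) ^ η * (A * (N : ℝ) ^ (3 * η))) := by gcongr
      _ = C1 * A * (N : ℝ) ^ (4 * η) := by
          have : (N : ℝ) ^ (4 * η) = (N : ℝ) ^ η * (N : ℝ) ^ (3 * η) := by
            rw [← Real.rpow_add hN0]
            congr 1
            ring
          rw [this]
          ring
  have hT : ∀ m : ℕ, m ≠ 0 → m ≤ 2 * (6 * N ^ 3) ^ 3 → m.divisors.card ≤ T := by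
    intro m hm hmY
    apply Nat.le_floor
    refine (h2 m hm).trans ?_
    have k4 : (m : ℝ) ^ η ≤ A * (N : ℝ) ^ (9 * η) := by
      have k5 : (m : ℝ) ≤ 432 * (N : ℝ) ^ 9 := by
        have k6 : (m : ℝ) ≤ ((2 * (6 * N ^ 3) ^ 3 : ℕ) : ℝ) := by exact_mod_cast hmY
        push_cast at k6
        linarith [show (2 : ℝ) * (6 * (N : ℝ) ^ 3) ^ 3 = 432 * (N : ℝ) ^ 9 by ring]
      have k7 : ((N : ℝ) ^ 9) ^ η = (N : ℝ) ^ (9 * η) := by
        rw [Real.rpow_mul hN0.le]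
        congr 1
        exact_mod_cast (Real.rpow_natCast (N : ℝ) 9).symm
      calc (m : ℝ) ^ η ≤ (432 * (N : ℝ) ^ 9) ^ η :=
            Real.rpow_le_rpow (Nat.cast_nonneg _) k5 hη0.le
        _ = A * (N : ℝ) ^ (9 * η) := by
            rw [Real.mul_rpow (by norm_num) (by positivity), k7]
    calc C2 * (m : ℝ) ^ η ≤ C2 * (A * (N : ℝ) ^ (9 * η)) := by gcongr
      _ = C2 * A * (N : ℝ) ^ (9 * η) := by ring
  have h3 := card_exc_le hF hT
  have h4 := card_Rs hN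
  have h5 : (F : ℝ) ≤ C1 * A * (N : ℝ) ^ (4 * η) := Nat.floor_le (by positivity)
  have h6 : (T : ℝ) ≤ C2 * A * (N : ℝ) ^ (9 * η) := Nat.floor_le (by positivity)
  have h7 : (((Finset.Icc 1 N).filter Exc).card : ℝ) ≤
      (Rs N).card * (2 * (((F : ℝ) ^ 2 * 2) ^ 3 * (4 * T))) := by exact_mod_cast h3
  refine h7.trans ?_
  calc ((Rs N).card : ℝ) * (2 * (((F : ℝ) ^ 2 * 2) ^ 3 * (4 * T)))
      ≤ (N : ℝ) ^ (5 / 6 : ℝ) * (2 * (((C1 * A * (N : ℝ) ^ (4 * η)) ^ 2 * 2) ^ 3 *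
        (4 * (C2 * A * (N : ℝ) ^ (9 * η))))) := by gcongr
    _ = X * ((N : ℝ) ^ (5 / 6 : ℝ) * ((N : ℝ) ^ (4 * η)) ^ 6 * (N : ℝ) ^ (9 * η)) := by
        rw [hX]
        ring
    _ = X * (N : ℝ) ^ (5 / 6 + ε) := by
        congr 1
        have k1 : ((N : ℝ) ^ (4 * η)) ^ 6 = (N : ℝ) ^ (24 * η) := by
          rw [← Real.rpow_natCast, ← Real.rpow_mul hN0.le]
          congr 1
          push_cast
          ring
        rw [k1, ← Real.rpow_add hN0, ← Real.rpow_add hN0]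
        congr 1
        rw [hη]
        ring

end Pool.Agent.Poonen40
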