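import Pool.Agent.Poonen40.Average
import Pool.Agent.Poonen40.Power

/-!
# Counting the numbers `D` with a large group
-/

set_option autoImplicit false

open scoped Classical

namespace Pool.Agent.Poonen40

theorem Gp_At (D : ℕ) (hD : D ≠ 0) :
    Gp D (Act D) = Gp D (At D) ∨ Gp D (Act D) = 2 * Gp D (At D) := by
  have h1 : Gp D (At D) * Gp D (Act D \ At D) = Gp D (Act D) := Gp_mul_sdiff (At_subset D)
  have h2 : ∀ r ∈ Act D \ At D, r = 2 ∧ Bn D r = 2 := by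
    intro r hr
    obtain ⟨h3, h4⟩ := Finset.mem_sdiff.mp hr
    obtain ⟨k1, k2, k3⟩ := (mem_Act hD).mp h3
    have h5 : ¬ 2 < B D r := fun h6 => h4 (Finset.mem_filter.mpr ⟨h3, h6⟩)
    rw [← Bn_cast k1 hD k2] at k3 h5
    have k4 : 1 < Bn D r := by exact_mod_cast k3
    have k5 : ¬ 2 < Bn D r := fun h6 => h5 (by exact_mod_cast h6)
    have k6 : Bn D r = 2 := by omega
    refine ⟨?_, k6⟩
    unfold Bn at k6
    have h7 : r ∣ 2 := by
      rw [← k6]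
      apply dvd_pow_self
      intro h0
      rw [h0, pow_zero] at k6
      omega
    exact (Nat.prime_dvd_prime_iff_eq k1 Nat.prime_two).mp h7
  rcases Finset.eq_empty_or_nonempty (Act D \ At D) with h3 | ⟨r, hr⟩
  · left
    rw [← h1, h3]
    simp [Gp]
  · right
    obtain ⟨h4, h5⟩ := h2 r hr
    have h6 : Act D \ At D = {r} := by
      ext s
      rw [Finset.mem_singleton]
      constructor
      · intro hs
        rw [(h2 s hs).1, h4]
      · rintro rfl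
        exact hr
    rw [← h1, h6]
    simp only [Gp, Finset.prod_singleton]
    rw [h5, mul_comm]

theorem Gp_At_cases (D : ℕ) (hD : D ≠ 0) :
    D = Gp D (At D) ∨ D = 2 * Gp D (At D) ∨ D = 4 * Gp D (At D) := by
  rcases Gp_Act D hD with h1 | h1 <;> rcases Gp_At D hD with h2 | h2 <;> omega

/-- a large group, or `D ≤ 4` -/
def Gd (p q D : ℕ) : Prop :=
  D ≤ 4 ∨ ∃ S ⊆ At D, Rl D S ∧ (p : ℝ) * mu D (At D) ≤ q * mu D S

/-- the possible groups -/
noncomputable def Gs2 (R Y : ℕ) : Finset ℕ :=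
  ((Qs (2 * R) Y).filter fun f => f ^ 2 - 1 ≠ 0 ∧ (f ^ 2 - 1).num.natAbs ≤ 2 * Y ^ 2).biUnion
    fun f => (f ^ 2 - 1).num.natAbs.divisors

theorem card_Gs2 {R Y T : ℕ} (hT : ∀ m : ℕ, m ≠ 0 → m ≤ 2 * Y ^ 2 → m.divisors.card ≤ T) :
    (Gs2 R Y).card ≤ ((fac (2 * R) Y).card ^ 2 * 2) * T := by
  unfold Gs2
  refine (Finset.card_biUnion_le_card_mul _ _ T ?_).trans ?_
  · intro f hf
    obtain ⟨-, h1, h2⟩ := Finset.mem_filter.mp hf
    apply hT _ _ h2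
    rw [Int.natAbs_ne_zero]
    exact Rat.num_ne_zero.mpr h1
  · apply Nat.mul_le_mul_right
    exact (Finset.card_filter_le _ _).trans (card_Qs _ _)

theorem num_sq_sub_le {f : ℚ} {Y : ℕ} (hf : Ht Y f) : (f ^ 2 - 1).num.natAbs ≤ 2 * Y ^ 2 := by
  have a1 := Rat.den_mul_eq_num f
  have c1 : |(f.den : ℚ)| ≤ Y := by
    rw [Nat.abs_cast]
    exact_mod_cast hf.1
  have c2 : |(f.num : ℚ)| ≤ Y := by
    have : ((f.num.natAbs : ℕ) : ℚ) ≤ Y := by exact_mod_cast hf.2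
    rwa [Nat.cast_natAbs, Int.cast_abs] at this
  have c3 : ((f.den : ℚ)) ^ 2 ≤ (Y : ℚ) ^ 2 := sq_le_sq' (by linarith [neg_abs_le (f.den : ℚ)])
    ((le_abs_self _).trans c1)
  have c4 : ((f.num : ℚ)) ^ 2 ≤ (Y : ℚ) ^ 2 := sq_le_sq' (by linarith [neg_abs_le (f.num : ℚ)])
    ((le_abs_self _).trans c2)
  have hm : ((f.den ^ 2 : ℕ) : ℚ) * (f ^ 2 - 1) = ((f.num ^ 2 - (f.den : ℤ) ^ 2 : ℤ) : ℚ) := by
    push_cast
    rw [← a1]
    ring
  refine (height_of (e := f.den ^ 2) (m := f.num ^ 2 - (f.den : ℤ) ^ 2)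
    (pow_ne_zero _ f.den_nz) hm ?_).2
  have h3 : ((f.den ^ 2 : ℕ) : ℚ) * |f ^ 2 - 1| =
      |((f.num ^ 2 - (f.den : ℤ) ^ 2 : ℤ) : ℚ)| := by
    rw [← hm, abs_mul, Nat.abs_cast]
  rw [h3]
  push_cast
  rw [abs_le]
  constructor <;> nlinarith [sq_nonneg (f.num : ℚ), sq_nonneg (f.den : ℚ)]

theorem mem_Gs2_of_rl {D N : ℕ} (hD : D ≠ 0) (hDN : D ≤ N) {S : Finset ℕ} (hS : S ⊆ At D)
    (h : Rl D S) : Gp D S ∈ Gs2 (Gp D (At D \ S)) (Yb N) := by
  obtain ⟨f, f0, f1, f2, hu, hht, hc⟩ := h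
  have hR : Gp D (At D \ S) ≠ 0 :=
    (Gp_pos hD (Finset.sdiff_subset.trans (At_subset D))).ne'
  have hY : Yb D ≤ Yb N :=
    Nat.pow_le_pow_left (Nat.mul_le_mul_left _ (Nat.pow_le_pow_left hDN 2)) 4
  have hht' := hht.mono hY
  unfold Gs2
  rw [Finset.mem_biUnion]
  have hz : f ^ 2 - 1 ≠ 0 := by
    intro h0
    have h1 : (f - 1) * (f + 1) = 0 := by linear_combination h0
    rcases mul_eq_zero.mp h1 with h2 | h2
    · exact f1 (by linarith)
    · exact f2 (by linarith)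
  refine ⟨f, Finset.mem_filter.mpr ⟨?_, hz, num_sq_sub_le hht'⟩, ?_⟩
  · refine mem_Qs (mul_ne_zero two_ne_zero hR) f0 (fun q hq hqR => ?_) hht'.1 hht'.2
    apply hu q hq
    · intro hqA
      apply hqR
      have h1 : Bn D q ∣ Gp D (At D \ S) := Finset.dvd_prod_of_mem _ hqA
      refine dvd_trans ?_ (h1.mul_left 2)
      obtain ⟨k1, k2, k3, k4⟩ := mem_At hD (Finset.mem_sdiff.mp hqA).1
      rw [← Bn_cast k1 hD k2] at k3
      unfold Bn at k3 ⊢
      apply dvd_pow_self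
      intro h0
      rw [h0, pow_zero, Nat.cast_one] at k3
      exact lt_irrefl _ k3
    · rintro rfl
      exact hqR (dvd_mul_right _ _)
  · rw [Nat.mem_divisors]
    refine ⟨Gp_dvd hD (hS.trans (At_subset D)) hc, ?_⟩
    rw [Int.natAbs_ne_zero]
    exact Rat.num_ne_zero.mpr hz

/-- the complementary divisors -/
noncomputable def Rs2 (N : ℕ) (θ : ℝ) : Finset ℕ := Finset.Icc 1 ⌊(N : ℝ) ^ θ⌋₊

theorem card_Rs2 (N : ℕ) (θ : ℝ) : ((Rs2 N θ).card : ℝ) ≤ (N : ℝ) ^ θ := by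
  unfold Rs2
  rw [Nat.card_Icc, Nat.add_sub_cancel]
  exact Nat.floor_le (by positivity)

theorem gd_mem {p q D N : ℕ} (hpq : p ≤ q) (hq : 0 < q) (hD : D ≠ 0) (hDN : D ≤ N)
    (h : Gd p q D) : D ≤ 4 ∨ ∃ R ∈ Rs2 N (1 - (p : ℝ) / q), ∃ G ∈ Gs2 R (Yb N),
      D = G * R ∨ D = 2 * (G * R) ∨ D = 4 * (G * R) := by
  rcases h with h | ⟨S, hS, h1, h2⟩
  · exact Or.inl h
  right
  have hSA := hS.trans (At_subset D)
  have hRA : At D \ S ⊆ Act D := Finset.sdiff_subset.trans (At_subset D)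
  have h3 := mem_Gs2_of_rl hD hDN hS h1
  have h4 : Gp D S * Gp D (At D \ S) = Gp D (At D) := by
    rw [mul_comm]
    exact Finset.prod_sdiff hS
  have hR : 0 < Gp D (At D \ S) := Gp_pos hD hRA
  have hA : Gp D (At D) ≤ D := Gp_le D hD (At_subset D)
  refine ⟨Gp D (At D \ S), ?_, Gp D S, h3, ?_⟩
  · unfold Rs2
    rw [Finset.mem_Icc]
    refine ⟨hR, Nat.le_floor ?_⟩
    have hN0 : (0 : ℝ) < N := by
      have : 0 < N := by omega
      exact_mod_cast this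
    have hR0 : (0 : ℝ) < (Gp D (At D \ S) : ℝ) := by exact_mod_cast hR
    rw [← Real.log_le_log_iff hR0 (by positivity), Real.log_rpow hN0, ← mu_eq_log hD hRA]
    have k1 : mu D (At D \ S) + mu D S = mu D (At D) := Finset.sum_sdiff hS
    have k2 : mu D (At D) ≤ Real.log N := by
      rw [mu_eq_log hD (At_subset D)]
      apply Real.log_le_log
      · exact_mod_cast Gp_pos hD (At_subset D)
      · exact_mod_cast hA.trans hDN
    have hq0 : (0 : ℝ) < q := by exact_mod_cast hq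
    have hpq' : (p : ℝ) ≤ q := by exact_mod_cast hpq
    have k3 : (p : ℝ) / q * mu D (At D) ≤ mu D S := by
      rw [div_mul_eq_mul_div, div_le_iff₀ hq0]
      linarith
    have k4 : (0 : ℝ) ≤ 1 - (p : ℝ) / q := by
      rw [sub_nonneg, div_le_one hq0]
      exact hpq'
    calc mu D (At D \ S) = mu D (At D) - mu D S := by linarith
      _ ≤ (1 - (p : ℝ) / q) * mu D (At D) := by linarith
      _ ≤ (1 - (p : ℝ) / q) * Real.log N := mul_le_mul_of_nonneg_left k2 k4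
  · rw [h4]
    exact Gp_At_cases D hD

theorem card_gd_le {p q N F T : ℕ} (hpq : p ≤ q) (hq : 0 < q) {P : ℕ → Prop}
    (hP : ∀ D, D ≠ 0 → P D → Gd p q D)
    (hF : ∀ R ∈ Rs2 N (1 - (p : ℝ) / q), (fac (2 * R) (Yb N)).card ≤ F)
    (hT : ∀ m : ℕ, m ≠ 0 → m ≤ 2 * Yb N ^ 2 → m.divisors.card ≤ T) :
    ((Finset.Icc 1 N).filter P).card ≤
      4 + (Rs2 N (1 - (p : ℝ) / q)).card * (3 * ((F ^ 2 * 2) * T)) := by
  have hsub : (Finset.Icc 1 N).filter P ⊆ Finset.Icc 1 4 ∪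
      (Rs2 N (1 - (p : ℝ) / q)).biUnion fun R =>
        ((Gs2 R (Yb N)).image fun G => G * R) ∪ (((Gs2 R (Yb N)).image fun G => 2 * (G * R)) ∪
          ((Gs2 R (Yb N)).image fun G => 4 * (G * R))) := by
    intro D hD
    obtain ⟨h1, h2⟩ := Finset.mem_filter.mp hD
    rw [Finset.mem_Icc] at h1
    have hD0 : D ≠ 0 := by omega
    rw [Finset.mem_union]
    rcases gd_mem hpq hq hD0 h1.2 (hP D hD0 h2) with h | ⟨R, hR, G, hG, h⟩
    · left
      exact Finset.mem_Icc.mpr ⟨h1.1, h⟩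
    · right
      rw [Finset.mem_biUnion]
      refine ⟨R, hR, ?_⟩
      simp only [Finset.mem_union, Finset.mem_image]
      rcases h with h | h | h
      · exact Or.inl ⟨G, hG, h.symm⟩
      · exact Or.inr (Or.inl ⟨G, hG, h.symm⟩)
      · exact Or.inr (Or.inr ⟨G, hG, h.symm⟩)
  refine (Finset.card_le_card hsub).trans ((Finset.card_union_le _ _).trans ?_)
  refine Nat.add_le_add (by simp) (Finset.card_biUnion_le_card_mul _ _ _ ?_)
  intro R hR
  have h1 : (Gs2 R (Yb N)).card ≤ (F ^ 2 * 2) * T := by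
    refine (card_Gs2 hT).trans ?_
    exact Nat.mul_le_mul_right _ (Nat.mul_le_mul_right _ (Nat.pow_le_pow_left (hF R hR) 2))
  have h2 : ((Gs2 R (Yb N)).image fun G => G * R).card ≤ (Gs2 R (Yb N)).card :=
    Finset.card_image_le
  have h3 : ((Gs2 R (Yb N)).image fun G => 2 * (G * R)).card ≤ (Gs2 R (Yb N)).card :=
    Finset.card_image_le
  have h4 : ((Gs2 R (Yb N)).image fun G => 4 * (G * R)).card ≤ (Gs2 R (Yb N)).card :=
    Finset.card_image_le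
  have h5 := Finset.card_union_le ((Gs2 R (Yb N)).image fun G => G * R)
    (((Gs2 R (Yb N)).image fun G => 2 * (G * R)) ∪ ((Gs2 R (Yb N)).image fun G => 4 * (G * R)))
  have h6 := Finset.card_union_le ((Gs2 R (Yb N)).image fun G => 2 * (G * R))
    ((Gs2 R (Yb N)).image fun G => 4 * (G * R))
  omega

/-- The number of the `D` with a large group. -/
theorem count_gd {p q : ℕ} (hpq : p ≤ q) (hq : 0 < q) {P : ℕ → Prop}
    (hP : ∀ D, D ≠ 0 → P D → Gd p q D) {ε : ℝ} (hε : 0 < ε) : ∃ C : ℝ, ∀ N : ℕ, 1 ≤ N →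
    (((Finset.Icc 1 N).filter P).card : ℝ) ≤ C * (N : ℝ) ^ (1 - (p : ℝ) / q + ε) := by
  set η : ℝ := ε / 34 with hη
  have hη0 : 0 < η := by positivity
  obtain ⟨C1, hC1, h1⟩ := card_fac_le hη0
  obtain ⟨C2, hC2, h2⟩ := card_divisors_le hη0
  set A : ℝ := (2 : ℝ) ^ η * (1296 : ℝ) ^ η with hA
  set A2 : ℝ := (3359232 : ℝ) ^ η with hA2
  have hA0 : 0 < A := by positivity
  have hA20 : 0 < A2 := by positivity
  set X : ℝ := 6 * (C1 * A) ^ 2 * (C2 * A2) with hX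
  have hq0 : (0 : ℝ) < q := by exact_mod_cast hq
  have hpq' : (p : ℝ) ≤ q := by exact_mod_cast hpq
  have hθ0 : (0 : ℝ) ≤ 1 - (p : ℝ) / q := by
    rw [sub_nonneg, div_le_one hq0]
    exact hpq'
  have hθ1 : 1 - (p : ℝ) / q ≤ 1 := by
    have : (0 : ℝ) ≤ (p : ℝ) / q := by positivity
    linarith
  refine ⟨4 + X, fun N hN => ?_⟩
  have hN1 : (1 : ℝ) ≤ N := by exact_mod_cast hN
  have hN0 : (0 : ℝ) < N := by linarith
  set F : ℕ := ⌊C1 * A * (N : ℝ) ^ (9 * η)⌋₊ with hFdef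
  set T : ℕ := ⌊C2 * A2 * (N : ℝ) ^ (16 * η)⌋₊ with hTdef
  have hYb : (Yb N : ℝ) = 1296 * (N : ℝ) ^ 8 := by
    unfold Yb
    push_cast
    ring
  have hF : ∀ R ∈ Rs2 N (1 - (p : ℝ) / q), (fac (2 * R) (Yb N)).card ≤ F := by
    intro R hR
    unfold Rs2 at hR
    rw [Finset.mem_Icc] at hR
    apply Nat.le_floor
    refine (h1 (2 * R) (Yb N) (by omega)).trans ?_
    have k0 : (R : ℝ) ≤ N := by
      have k1 : (R : ℝ) ≤ (N : ℝ) ^ (1 - (p : ℝ) / q) :=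
        (by exact_mod_cast hR.2 : (R : ℝ) ≤ (⌊(N : ℝ) ^ (1 - (p : ℝ) / q)⌋₊ : ℝ)).trans
          (Nat.floor_le (by positivity))
      refine k1.trans ?_
      calc (N : ℝ) ^ (1 - (p : ℝ) / q) ≤ (N : ℝ) ^ (1 : ℝ) :=
            Real.rpow_le_rpow_of_exponent_le hN1 hθ1
        _ = N := Real.rpow_one _
    have k3 : (((2 * R : ℕ)) : ℝ) ^ η ≤ (2 : ℝ) ^ η * (N : ℝ) ^ η := by
      push_cast
      rw [Real.mul_rpow (by norm_num) (Nat.cast_nonneg _)]
      apply mul_le_mul_of_nonneg_left _ (by positivity)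
      exact Real.rpow_le_rpow (Nat.cast_nonneg _) k0 hη0.le
    have k4 : ((Yb N : ℕ) : ℝ) ^ η = (1296 : ℝ) ^ η * (N : ℝ) ^ (8 * η) := by
      rw [hYb, Real.mul_rpow (by norm_num) (by positivity)]
      congr 1
      rw [Real.rpow_mul hN0.le]
      congr 1
      exact_mod_cast (Real.rpow_natCast (N : ℝ) 8).symm
    calc C1 * ((((2 * R : ℕ)) : ℝ) ^ η * ((Yb N : ℕ) : ℝ) ^ η)
        ≤ C1 * (((2 : ℝ) ^ η * (N : ℝ) ^ η) * ((1296 : ℝ) ^ η * (N : ℝ) ^ (8 * η))) := by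
          rw [k4]
          gcongr
      _ = C1 * A * (N : ℝ) ^ (9 * η) := by
          have : (N : ℝ) ^ (9 * η) = (N : ℝ) ^ η * (N : ℝ) ^ (8 * η) := by
            rw [← Real.rpow_add hN0]
            congr 1
            ring
          rw [this, hA]
          ring
  have hT : ∀ m : ℕ, m ≠ 0 → m ≤ 2 * Yb N ^ 2 → m.divisors.card ≤ T := by
    intro m hm hmY
    apply Nat.le_floor
    refine (h2 m hm).trans ?_
    have k4 : (m : ℝ) ^ η ≤ A2 * (N : ℝ) ^ (16 * η) := by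
      have k5 : (m : ℝ) ≤ 3359232 * (N : ℝ) ^ 16 := by
        have k6 : (m : ℝ) ≤ ((2 * Yb N ^ 2 : ℕ) : ℝ) := by exact_mod_cast hmY
        push_cast at k6
        rw [hYb] at k6
        calc (m : ℝ) ≤ 2 * (1296 * (N : ℝ) ^ 8) ^ 2 := k6
          _ = 3359232 * (N : ℝ) ^ 16 := by ring
      have k7 : ((N : ℝ) ^ 16) ^ η = (N : ℝ) ^ (16 * η) := by
        rw [Real.rpow_mul hN0.le]
        congr 1
        exact_mod_cast (Real.rpow_natCast (N : ℝ) 16).symm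
      calc (m : ℝ) ^ η ≤ (3359232 * (N : ℝ) ^ 16) ^ η :=
            Real.rpow_le_rpow (Nat.cast_nonneg _) k5 hη0.le
        _ = A2 * (N : ℝ) ^ (16 * η) := by
            rw [Real.mul_rpow (by norm_num) (by positivity), k7]
    calc C2 * (m : ℝ) ^ η ≤ C2 * (A2 * (N : ℝ) ^ (16 * η)) := by gcongr
      _ = C2 * A2 * (N : ℝ) ^ (16 * η) := by ring
  have h3 := card_gd_le hpq hq hP hF hT
  have h4 := card_Rs2 N (1 - (p : ℝ) / q)
  have h5 : (F : ℝ) ≤ C1 * A * (N : ℝ) ^ (9 * η) := Nat.floor_le (by positivity)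
  have h6 : (T : ℝ) ≤ C2 * A2 * (N : ℝ) ^ (16 * η) := Nat.floor_le (by positivity)
  have h7 : (((Finset.Icc 1 N).filter P).card : ℝ) ≤
      4 + (Rs2 N (1 - (p : ℝ) / q)).card * (3 * (((F : ℝ) ^ 2 * 2) * T)) := by exact_mod_cast h3
  have h8 : (1 : ℝ) ≤ (N : ℝ) ^ (1 - (p : ℝ) / q + ε) :=
    Real.one_le_rpow hN1 (by linarith)
  refine h7.trans ?_
  calc 4 + ((Rs2 N (1 - (p : ℝ) / q)).card : ℝ) * (3 * (((F : ℝ) ^ 2 * 2) * T))
      ≤ 4 + (N : ℝ) ^ (1 - (p : ℝ) / q) * (3 * (((C1 * A * (N : ℝ) ^ (9 * η)) ^ 2 * 2) *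
        (C2 * A2 * (N : ℝ) ^ (16 * η)))) := by gcongr
    _ = 4 + X * ((N : ℝ) ^ (1 - (p : ℝ) / q) * ((N : ℝ) ^ (9 * η)) ^ 2 *
        (N : ℝ) ^ (16 * η)) := by
        rw [hX]
        ring
    _ = 4 + X * (N : ℝ) ^ (1 - (p : ℝ) / q + ε) := by
        congr 2
        have k1 : ((N : ℝ) ^ (9 * η)) ^ 2 = (N : ℝ) ^ (18 * η) := by
          rw [← Real.rpow_natCast, ← Real.rpow_mul hN0.le]
          congr 1
          push_cast
          ring
        rw [k1, ← Real.rpow_add hN0, ← Real.rpow_add hN0]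
        congr 1
        rw [hη]
        ring
    _ ≤ 4 * (N : ℝ) ^ (1 - (p : ℝ) / q + ε) + X * (N : ℝ) ^ (1 - (p : ℝ) / q + ε) := by
        linarith
    _ = (4 + X) * (N : ℝ) ^ (1 - (p : ℝ) / q + ε) := by ring

end Pool.Agent.Poonen40
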