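import Pool.Agent.Poonen40.Groups

/-!
# The six groups
-/

set_option autoImplicit false

open scoped Classical

namespace Pool.Agent.Poonen40

/-- all three points agree -/
noncomputable def setT (D : ℕ) (x : ℕ → ℚ) : Finset ℕ :=
  (Act D).filter fun r => padicNorm r (x 0 - x 1) ≤ 1 ∧ padicNorm r (x 0 - x 2) ≤ 1

/-- the outer points agree and the middle one does not -/
noncomputable def setP (D : ℕ) (x : ℕ → ℚ) : Finset ℕ :=
  (Act D).filter fun r => ¬ padicNorm r (x 0 - x 1) ≤ 1 ∧ padicNorm r (x 0 - x 2) ≤ 1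

/-- first mixed set -/
noncomputable def setV (D : ℕ) (x : ℕ → ℚ) : Finset ℕ :=
  (Act D).filter fun r => padicNorm r (x 0 - x 1) ≤ 1 ∧ ¬ padicNorm r (x 0 - x 2) ≤ 1 ∧
    ¬ padicNorm r (x 1 - x 3) ≤ 1

/-- second mixed set -/
noncomputable def setW (D : ℕ) (x : ℕ → ℚ) : Finset ℕ :=
  (Act D).filter fun r => ¬ padicNorm r (x 0 - x 1) ≤ 1 ∧ ¬ padicNorm r (x 0 - x 2) ≤ 1 ∧
    ¬ padicNorm r (x 1 - x 3) ≤ 1

theorem Act_subset (D : ℕ) (x : ℕ → ℚ) :
    Act D ⊆ (setT D x ∪ setP D x) ∪ ((setT D (fun i => x (i + 1)) ∪ setP D (fun i => x (i + 1))) ∪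
      (setV D x ∪ setW D x)) := by
  intro r hr
  simp only [setT, setP, setV, setW, Finset.mem_union, Finset.mem_filter, hr, true_and]
  have e1 : x (0 + 1) - x (2 + 1) = x 1 - x 3 := rfl
  rw [e1]
  tauto

namespace Cyc

variable {c : ℚ} {n : ℕ} {x : ℕ → ℚ} {D : ℕ}

section basic

variable (h : Cyc c n x) (hn : 3 ≤ n) (hc : c.den = D ^ 2) (hD : D ≠ 0)

include h hn hc hD

theorem sub_of_not {r : ℕ} [hr : Fact r.Prime] (hrA : r ∈ Act D) {i j : ℕ}
    (hij : ¬ i ≡ j [MOD n]) (hnot : ¬ padicNorm r (x i - x j) ≤ 1) :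
    padicNorm r (x i - x j) = B D r ∧ padicNorm r (x i + x j) ≤ 1 := by
  obtain ⟨h1, h2, h3⟩ := (mem_Act hD).mp hrA
  rcases h.agree_or (by omega) hc hD h2 h3 hij with h4 | h4
  · exact absurd h4.1 hnot
  · exact h4

theorem add_of {r : ℕ} [hr : Fact r.Prime] (hrA : r ∈ Act D) {i j : ℕ}
    (hij : ¬ i ≡ j [MOD n]) (hyes : padicNorm r (x i - x j) ≤ 1) :
    padicNorm r (x i + x j) = B D r := by
  obtain ⟨h1, h2, h3⟩ := (mem_Act hD).mp hrA
  rcases h.agree_or (by omega) hc hD h2 h3 hij with h4 | h4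
  · exact h4.2
  · rw [h4.1] at hyes
    exact absurd hyes (not_le.mpr h3)

end basic

theorem d01 (hn : 3 ≤ n) : ¬ 0 ≡ 1 [MOD n] := by
  simpa using not_modEq_self one_pos (by omega : 1 < n) 0

theorem d12 (hn : 3 ≤ n) : ¬ 1 ≡ 2 [MOD n] := not_modEq_self one_pos (by omega : 1 < n) 1

theorem d02 (hn : 3 ≤ n) : ¬ 0 ≡ 2 [MOD n] := by
  simpa using not_modEq_self two_pos (by omega : 2 < n) 0

theorem d13 (hn : 3 ≤ n) : ¬ 1 ≡ 3 [MOD n] := not_modEq_self two_pos (by omega : 2 < n) 1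

theorem d23 (hn : 3 ≤ n) : ¬ 2 ≡ 3 [MOD n] := not_modEq_self one_pos (by omega : 1 < n) 2

theorem rel_T (h : Cyc c n x) (hn : 3 ≤ n) (hc : c.den = D ^ 2) (hD : D ≠ 0) :
    Rel D (setT D x) := by
  have hS : setT D x ⊆ Act D := Finset.filter_subset _ _
  have hmem : ∀ r ∈ setT D x, ∀ _ : Fact r.Prime, padicNorm r (x 0 + x 1) = (B D r) ^ (1 : ℤ) ∧
      padicNorm r (x 1 + x 2) = (B D r) ^ (1 : ℤ) ∧
      padicNorm r (x 0 + x 2) = (B D r) ^ (1 : ℤ) := by
    intro r hr _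
    have h0 := (Finset.mem_filter.mp hr).1
    obtain ⟨h1, h2⟩ := (Finset.mem_filter.mp hr).2
    have h3 : padicNorm r (x 1 - x 2) ≤ 1 := by
      have e : x 1 - x 2 = (x 0 - x 2) - (x 0 - x 1) := by ring
      rw [e]
      exact norm_sub_le _ _ h2 h1
    rw [zpow_one]
    exact ⟨h.add_of hn hc hD h0 (d01 hn) h1, h.add_of hn hc hD h0 (d12 hn) h3,
      h.add_of hn hc hD h0 (d02 hn) h2⟩
  have u1 := h.un_sum hn hc hD hS (d01 hn) (Or.inr (Or.inl rfl)) fun r hr hp => (hmem r hr hp).1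
  have u2 := h.un_sum hn hc hD hS (d12 hn) (Or.inr (Or.inl rfl)) fun r hr hp => (hmem r hr hp).2.1
  have u3 := h.un_sum hn hc hD hS (d02 hn) (Or.inr (Or.inl rfl)) fun r hr hp => (hmem r hr hp).2.2
  rw [zpow_one] at u1 u2 u3
  have hG : (Gp D (setT D x) : ℚ) ≠ 0 := by exact_mod_cast (Gp_pos hD hS).ne'
  refine ⟨_, _, _, u1, u2, u3, (x 1 + x 2) * (Gp D (setT D x) : ℚ) -
    (x 0 + x 2) * (Gp D (setT D x) : ℚ), by simp [Zs], ?_, ?_⟩
  · rw [← sub_mul]
    refine mul_ne_zero ?_ hG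
    have := h.sub_ne_zero' (d01 hn)
    intro h0
    apply this
    linarith
  · intro r hr hp
    have n1 : padicNorm r ((x 0 + x 1) * (Gp D (setT D x) : ℚ)) = 1 :=
      u1.2.1 r hp fun hh => (Finset.mem_sdiff.mp hh).2 hr
    have n3 : padicNorm r ((x 0 + x 2) * (Gp D (setT D x) : ℚ)) = 1 :=
      u3.2.1 r hp fun hh => (Finset.mem_sdiff.mp hh).2 hr
    have e : ((x 0 + x 1) * (Gp D (setT D x) : ℚ)) * ((x 1 + x 2) * (Gp D (setT D x) : ℚ) -
        (x 0 + x 2) * (Gp D (setT D x) : ℚ)) = (Gp D (setT D x) : ℚ) *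
        ((x 0 + x 2) * (Gp D (setT D x) : ℚ) - (x 0 + x 1) * (Gp D (setT D x) : ℚ)) := by
      linear_combination (-(Gp D (setT D x) : ℚ) ^ 2) * h.rel_eq
    have e2 := congrArg (padicNorm r) e
    rw [padicNorm.mul, n1, one_mul, padicNorm.mul, norm_Gp_mem hD hS hr] at e2
    rw [e2]
    have hB := B_pos D hp.out
    exact mul_le_of_le_one_right (inv_nonneg.mpr hB.le) (norm_sub_le _ _ n3.le n1.le)

theorem rel_P (h : Cyc c n x) (hn : 3 ≤ n) (hc : c.den = D ^ 2) (hD : D ≠ 0) :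
    Rel D (setP D x) := by
  have hS : setP D x ⊆ Act D := Finset.filter_subset _ _
  have hmem : ∀ r ∈ setP D x, ∀ _ : Fact r.Prime, padicNorm r (x 0 + x 1) = 1 ∧
      padicNorm r (x 1 + x 2) ≤ 1 ∧ padicNorm r (x 0 + x 2) = B D r := by
    intro r hr hp
    have h0 := (Finset.mem_filter.mp hr).1
    obtain ⟨h1, h2⟩ := (Finset.mem_filter.mp hr).2
    have hB := B_pos D hp.out
    have h3 : ¬ padicNorm r (x 1 - x 2) ≤ 1 := by
      intro h3
      apply h1
      have e : x 0 - x 1 = (x 0 - x 2) - (x 1 - x 2) := by ring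
      rw [e]
      exact norm_sub_le _ _ h2 h3
    have k1 := h.sub_of_not hn hc hD h0 (d01 hn) h1
    have k2 := h.sub_of_not hn hc hD h0 (d12 hn) h3
    have k3 := h.norm_mul_eq (p := r) 0 1
    have e4 : x (0 + 1) - x (1 + 1) = x 1 - x 2 := rfl
    rw [e4, k1.1, k2.1] at k3
    refine ⟨?_, k2.2, h.add_of hn hc hD h0 (d02 hn) h2⟩
    exact mul_right_cancel₀ hB.ne' (by rw [k3, one_mul])
  have u1 := h.un_sum hn hc hD hS (d01 hn) (Or.inl rfl) fun r hr hp => by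
    rw [zpow_zero]
    exact (hmem r hr hp).1
  rw [zpow_zero, mul_one] at u1
  refine ⟨_, _, _, u1, un_one hD _, un_one hD _, 1 + (x 0 + x 1), by simp [Zs], h.a_ne hn, ?_⟩
  intro r hr hp
  obtain ⟨k1, k2, k3⟩ := hmem r hr hp
  have hB := B_pos D hp.out
  have e2 := congrArg (padicNorm r) h.rel_eq
  rw [padicNorm.mul, padicNorm.mul, k1, k3, one_mul] at e2
  have k4 : padicNorm r (1 + (x 1 + x 2)) ≤ 1 := norm_add_le _ _ padicNorm.one.le k2
  rw [← e2] at k4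
  rw [← one_div, le_div_iff₀ hB, mul_comm]
  exact k4

theorem norm_d (h : Cyc c n x) (hn : 3 ≤ n) (hc : c.den = D ^ 2) (hD : D ≠ 0) {r : ℕ}
    [hp : Fact r.Prime] (h0 : r ∈ Act D) (h2 : ¬ padicNorm r (x 0 - x 2) ≤ 1)
    (h3 : ¬ padicNorm r (x 1 - x 3) ≤ 1) : padicNorm r (x 0 + x 2) = 1 := by
  have hB := B_pos D hp.out
  have k1 := h.sub_of_not hn hc hD h0 (d02 hn) h2
  have k2 := h.sub_of_not hn hc hD h0 (d13 hn) h3
  have k3 := h.norm_mul_eq (p := r) 0 2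
  have e4 : x (0 + 1) - x (2 + 1) = x 1 - x 3 := rfl
  rw [e4, k1.1, k2.1] at k3
  exact mul_right_cancel₀ hB.ne' (by rw [k3, one_mul])

theorem rel_V (h : Cyc c n x) (hn : 3 ≤ n) (hc : c.den = D ^ 2) (hD : D ≠ 0)
    (hd : x 0 + x 2 ≠ 1) : Rel D (setV D x) := by
  have hS : setV D x ⊆ Act D := Finset.filter_subset _ _
  have hmem : ∀ r ∈ setV D x, ∀ _ : Fact r.Prime, padicNorm r (x 0 + x 2) = 1 ∧
      padicNorm r (x 0 + x 1) = B D r ∧ padicNorm r (x 1 + x 2) * B D r ≤ 1 := by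
    intro r hr hp
    have h0 := (Finset.mem_filter.mp hr).1
    obtain ⟨h1, h2, h3⟩ := (Finset.mem_filter.mp hr).2
    have h4 : ¬ padicNorm r (x 1 - x 2) ≤ 1 := by
      intro h4
      apply h2
      have e : x 0 - x 2 = (x 0 - x 1) + (x 1 - x 2) := by ring
      rw [e]
      exact norm_add_le _ _ h1 h4
    have k1 := h.sub_of_not hn hc hD h0 (d12 hn) h4
    have k2 := h.sub_of_not hn hc hD h0 (d13 hn) h3
    have k3 := h.norm_mul_eq (p := r) 1 2
    have e4 : x (1 + 1) - x (2 + 1) = x 2 - x 3 := rfl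
    rw [e4, k1.1] at k3
    refine ⟨h.norm_d hn hc hD h0 h2 h3, h.add_of hn hc hD h0 (d01 hn) h1, ?_⟩
    rw [k3]
    have e : x 2 - x 3 = (x 1 + x 2) - (x 1 + x 3) := by ring
    rw [e]
    exact norm_sub_le _ _ k1.2 k2.2
  have u3 := h.un_sum hn hc hD hS (d02 hn) (Or.inl rfl) fun r hr hp => by
    rw [zpow_zero]
    exact (hmem r hr hp).1
  rw [zpow_zero, mul_one] at u3
  refine ⟨_, _, _, un_one hD _, un_one hD _, u3, (x 0 + x 2) - 1, by simp [Zs],
    sub_ne_zero.mpr hd, ?_⟩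
  intro r hr hp
  obtain ⟨k1, k2, k3⟩ := hmem r hr hp
  have hB := B_pos D hp.out
  have hB1 : 1 < B D r := ((mem_Act hD).mp (hS hr)).2.2
  have e : (x 0 + x 1) * ((x 0 + x 2) - 1) = (x 0 + x 1) * (x 1 + x 2) - (x 0 + x 2) := by
    linear_combination h.rel_eq
  have e2 := congrArg (padicNorm r) e
  rw [padicNorm.mul, k2] at e2
  have k4 : padicNorm r ((x 0 + x 1) * (x 1 + x 2) - (x 0 + x 2)) ≤ 1 := by
    apply norm_sub_le _ _ _ k1.le
    rw [padicNorm.mul, k2, mul_comm]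
    exact k3
  rw [← e2] at k4
  rw [← one_div, le_div_iff₀ hB, mul_comm]
  exact k4

theorem rel_W (h : Cyc c n x) (hn : 3 ≤ n) (hc : c.den = D ^ 2) (hD : D ≠ 0)
    (hd : x 0 + x 2 ≠ 1) : Rel D (setW D x) := by
  have hS : setW D x ⊆ Act D := Finset.filter_subset _ _
  have hmem : ∀ r ∈ setW D x, ∀ _ : Fact r.Prime, padicNorm r (x 0 + x 2) = 1 ∧
      padicNorm r (x 0 + x 1) = (B D r) ^ (-1 : ℤ) ∧
      padicNorm r (x 1 + x 2) = (B D r) ^ (1 : ℤ) := by
    intro r hr hp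
    have h0 := (Finset.mem_filter.mp hr).1
    obtain ⟨h1, h2, h3⟩ := (Finset.mem_filter.mp hr).2
    have hB := B_pos D hp.out
    have hB1 : 1 < B D r := ((mem_Act hD).mp h0).2.2
    have k1 := h.sub_of_not hn hc hD h0 (d01 hn) h1
    have k2 := h.sub_of_not hn hc hD h0 (d02 hn) h2
    have h4 : padicNorm r (x 1 - x 2) ≤ 1 := by
      have e : x 1 - x 2 = (x 0 + x 1) - (x 0 + x 2) := by ring
      rw [e]
      exact norm_sub_le _ _ k1.2 k2.2
    have k4 := h.add_of hn hc hD h0 (d12 hn) h4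
    have k5 := h.norm_d hn hc hD h0 h2 h3
    have k3 := h.norm_mul_eq (p := r) 0 1
    have e4 : x (0 + 1) - x (1 + 1) = x 1 - x 2 := rfl
    rw [e4, k1.1] at k3
    have k6 : padicNorm r (x 0 + x 1) < 1 := by
      have k7 : padicNorm r (x 0 + x 1) * B D r ≤ 1 := by rw [k3]; exact h4
      have k8 := padicNorm.nonneg (p := r) (x 0 + x 1)
      by_contra hcon
      push Not at hcon
      nlinarith
    have e2 := congrArg (padicNorm r) h.rel_eq
    have k9 : padicNorm r (1 + (x 0 + x 1)) = 1 := by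
      rw [padicNorm.add_eq_max_of_ne, padicNorm.one, max_eq_left k6.le]
      rw [padicNorm.one]
      exact k6.ne'
    have k10 : padicNorm r (1 + (x 1 + x 2)) = B D r := by
      rw [padicNorm.add_eq_max_of_ne, padicNorm.one, k4, max_eq_right hB1.le]
      rw [padicNorm.one, k4]
      exact hB1.ne
    rw [padicNorm.mul, padicNorm.mul, k5, k9, k10, one_mul] at e2
    refine ⟨k5, ?_, by rw [zpow_one]; exact k4⟩
    rw [zpow_neg_one]
    exact eq_inv_of_mul_eq_one_left e2.symm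
  have u1 := h.un_sum hn hc hD hS (d01 hn) (Or.inr (Or.inr rfl)) fun r hr hp => (hmem r hr hp).2.1
  have u2 := h.un_sum hn hc hD hS (d12 hn) (Or.inr (Or.inl rfl)) fun r hr hp => (hmem r hr hp).2.2
  have u3 := h.un_sum hn hc hD hS (d02 hn) (Or.inl rfl) fun r hr hp => by
    rw [zpow_zero]
    exact (hmem r hr hp).1
  rw [zpow_zero, mul_one] at u3
  rw [zpow_one] at u2
  rw [zpow_neg_one] at u1
  have hG : (Gp D (setW D x) : ℚ) ≠ 0 := by exact_mod_cast (Gp_pos hD hS).ne'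
  have hZ : (x 0 + x 2) - ((x 0 + x 1) * (Gp D (setW D x) : ℚ)⁻¹) *
      ((x 1 + x 2) * (Gp D (setW D x) : ℚ)) = (x 0 + x 1) * (1 - (x 0 + x 2)) := by
    have e : ((x 0 + x 1) * (Gp D (setW D x) : ℚ)⁻¹) * ((x 1 + x 2) * (Gp D (setW D x) : ℚ)) =
        (x 0 + x 1) * (x 1 + x 2) := by
      field_simp
    rw [e]
    linear_combination h.rel_eq
  refine ⟨_, _, _, u1, u2, u3, (x 0 + x 2) - ((x 0 + x 1) * (Gp D (setW D x) : ℚ)⁻¹) *
      ((x 1 + x 2) * (Gp D (setW D x) : ℚ)), by simp [Zs], ?_, ?_⟩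
  · rw [hZ]
    exact mul_ne_zero (h.add_ne_zero (d01 hn)) (sub_ne_zero.mpr (Ne.symm hd))
  · intro r hr hp
    obtain ⟨k1, k2, k3⟩ := hmem r hr hp
    have hB := B_pos D hp.out
    rw [hZ, padicNorm.mul, k2, zpow_neg_one]
    exact mul_le_of_le_one_right (inv_nonneg.mpr hB.le) (norm_sub_le _ _ padicNorm.one.le k1.le)

/-- the main result on groups -/
theorem exists_rel_of (h : Cyc c n x) (hn : 3 ≤ n) (hc : c.den = D ^ 2) (hD : D ≠ 0)
    (hd : x 0 + x 2 ≠ 1) : ∃ S ⊆ Act D, Gp D (Act D) ≤ Gp D S ^ 6 ∧ Rel D S := by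
  have h' := h.shift 1
  have s1 : setT D x ⊆ Act D := Finset.filter_subset _ _
  have s2 : setP D x ⊆ Act D := Finset.filter_subset _ _
  have s3 : setT D (fun i => x (i + 1)) ⊆ Act D := Finset.filter_subset _ _
  have s4 : setP D (fun i => x (i + 1)) ⊆ Act D := Finset.filter_subset _ _
  have s5 : setV D x ⊆ Act D := Finset.filter_subset _ _
  have s6 : setW D x ⊆ Act D := Finset.filter_subset _ _
  have hle : Gp D (Act D) ≤ (Gp D (setT D x) * Gp D (setP D x)) *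
      ((Gp D (setT D (fun i => x (i + 1))) * Gp D (setP D (fun i => x (i + 1)))) *
        (Gp D (setV D x) * Gp D (setW D x))) := by
    have t1 : Act D = (setT D x ∪ setP D x) ∪ ((setT D (fun i => x (i + 1)) ∪
        setP D (fun i => x (i + 1))) ∪ (setV D x ∪ setW D x)) := by
      apply subset_antisymm (Act_subset D x)
      exact Finset.union_subset (Finset.union_subset s1 s2)
        (Finset.union_subset (Finset.union_subset s3 s4) (Finset.union_subset s5 s6))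
    conv_lhs => rw [t1]
    refine (Gp_union_le hD (Finset.union_subset s1 s2)).trans ?_
    refine Nat.mul_le_mul (Gp_union_le hD s1) ?_
    refine (Gp_union_le hD (Finset.union_subset s3 s4)).trans ?_
    exact Nat.mul_le_mul (Gp_union_le hD s3) (Gp_union_le hD s5)
  by_contra hcon
  push Not at hcon
  have k1 : Gp D (setT D x) ^ 6 < Gp D (Act D) := by
    by_contra hk
    exact hcon _ s1 (not_lt.mp hk) (h.rel_T hn hc hD)
  have k2 : Gp D (setP D x) ^ 6 < Gp D (Act D) := by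
    by_contra hk
    exact hcon _ s2 (not_lt.mp hk) (h.rel_P hn hc hD)
  have k3 : Gp D (setT D (fun i => x (i + 1))) ^ 6 < Gp D (Act D) := by
    by_contra hk
    exact hcon _ s3 (not_lt.mp hk) (h'.rel_T hn hc hD)
  have k4 : Gp D (setP D (fun i => x (i + 1))) ^ 6 < Gp D (Act D) := by
    by_contra hk
    exact hcon _ s4 (not_lt.mp hk) (h'.rel_P hn hc hD)
  have k5 : Gp D (setV D x) ^ 6 < Gp D (Act D) := by
    by_contra hk
    exact hcon _ s5 (not_lt.mp hk) (h.rel_V hn hc hD hd)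
  have k6 : Gp D (setW D x) ^ 6 < Gp D (Act D) := by
    by_contra hk
    exact hcon _ s6 (not_lt.mp hk) (h.rel_W hn hc hD hd)
  have h6 := Nat.pow_le_pow_left hle 6
  have h7 : ((Gp D (setT D x) * Gp D (setP D x)) *
      ((Gp D (setT D (fun i => x (i + 1))) * Gp D (setP D (fun i => x (i + 1)))) *
        (Gp D (setV D x) * Gp D (setW D x)))) ^ 6 =
      (Gp D (setT D x) ^ 6 * Gp D (setP D x) ^ 6) *
      ((Gp D (setT D (fun i => x (i + 1))) ^ 6 * Gp D (setP D (fun i => x (i + 1))) ^ 6) *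
        (Gp D (setV D x) ^ 6 * Gp D (setW D x) ^ 6)) := by ring
  have h8 : (Gp D (setT D x) ^ 6 * Gp D (setP D x) ^ 6) *
      ((Gp D (setT D (fun i => x (i + 1))) ^ 6 * Gp D (setP D (fun i => x (i + 1))) ^ 6) *
        (Gp D (setV D x) ^ 6 * Gp D (setW D x) ^ 6)) <
      (Gp D (Act D) * Gp D (Act D)) * ((Gp D (Act D) * Gp D (Act D)) *
        (Gp D (Act D) * Gp D (Act D))) := by
    have hm : ∀ a b a' b' : ℕ, a < a' → b < b' → a * b < a' * b' := fun a b a' b' ha hb =>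
      Nat.mul_lt_mul_of_lt_of_lt ha hb
    exact hm _ _ _ _ (hm _ _ _ _ k1 k2) (hm _ _ _ _ (hm _ _ _ _ k3 k4) (hm _ _ _ _ k5 k6))
  rw [h7] at h6
  have h9 : (Gp D (Act D) * Gp D (Act D)) * ((Gp D (Act D) * Gp D (Act D)) *
        (Gp D (Act D) * Gp D (Act D))) = Gp D (Act D) ^ 6 := by ring
  rw [h9] at h8
  omega

theorem exists_rel (h : Cyc c n x) (hn : 3 ≤ n) (hc : c.den = D ^ 2) (hD : D ≠ 0) :
    ∃ S ⊆ Act D, Gp D (Act D) ≤ Gp D S ^ 6 ∧ Rel D S := by
  by_cases hd : x 0 + x 2 = 1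
  · refine (h.shift 1).exists_rel_of hn hc hD ?_
    intro hd'
    have hd2 : x 1 + x 3 = 1 := hd'
    have h1 := h.mul_eq 0 2
    have e4 : x (0 + 1) - x (2 + 1) = x 1 - x 3 := rfl
    rw [e4, hd, one_mul] at h1
    have h2 : x 0 = x 1 := by linarith
    exact h.ne_of (d01 hn) h2
  · exact h.exists_rel_of hn hc hD hd

end Cyc

end Pool.Agent.Poonen40
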