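import Pool.Agent.Poonen40.Norm

/-!
# The sums `x_i + x_j` as products of powers of the components of the denominator
-/

set_option autoImplicit false

namespace Pool.Agent.Poonen40

/-- the reduced component `B_r` of `D`: the exact power of `r` dividing `D`, divided by `2` if `r = 2` -/
noncomputable def B (D r : ℕ) : ℚ := (r : ℚ) ^ ((D.factorization r : ℤ) - if r = 2 then 1 else 0)

/-- the `p`-adic size as a homomorphism -/
noncomputable def nh (p : ℕ) [Fact p.Prime] : ℚ →*₀ ℚ := IsAbsoluteValue.abvHom (padicNorm p)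

theorem nh_apply (p : ℕ) [Fact p.Prime] (z : ℚ) : nh p z = padicNorm p z := rfl

theorem norm_zpow (p : ℕ) [Fact p.Prime] (z : ℚ) (m : ℤ) :
    padicNorm p (z ^ m) = padicNorm p z ^ m := by
  rw [← nh_apply, map_zpow₀, nh_apply]

theorem norm_prod (p : ℕ) [Fact p.Prime] {ι : Type*} (s : Finset ι) (f : ι → ℚ) :
    padicNorm p (∏ i ∈ s, f i) = ∏ i ∈ s, padicNorm p (f i) := by
  rw [← nh_apply, map_prod]
  rfl

theorem norm_two (r : ℕ) [hr : Fact r.Prime] :
    padicNorm r 2 = (r : ℚ) ^ (-(if r = 2 then (1 : ℤ) else 0)) := by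
  split_ifs with h2
  · subst h2
    have := padicNorm.padicNorm_p (p := 2) (by norm_num)
    rw [zpow_neg_one]
    exact_mod_cast this
  · have : padicNorm r ((2 : ℕ) : ℚ) = 1 := by
      rw [padicNorm.nat_eq_one_iff]
      intro hdvd
      exact h2 ((Nat.prime_dvd_prime_iff_eq hr.out Nat.prime_two).mp hdvd)
    rw [neg_zero, zpow_zero]
    exact_mod_cast this

theorem B_pos (D : ℕ) {r : ℕ} (hr : r.Prime) : 0 < B D r := by
  unfold B
  have : (0 : ℚ) < r := by exact_mod_cast hr.pos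
  positivity

theorem norm_B_self (D r : ℕ) [hr : Fact r.Prime] : padicNorm r (B D r) = (B D r)⁻¹ := by
  unfold B
  rw [norm_zpow, padicNorm.padicNorm_p_of_prime, inv_zpow]

theorem norm_B_other (D : ℕ) {p r : ℕ} [hp : Fact p.Prime] (hr : r.Prime) (hpr : p ≠ r) :
    padicNorm p (B D r) = 1 := by
  unfold B
  have : Fact r.Prime := ⟨hr⟩
  rw [norm_zpow, padicNorm.padicNorm_of_prime_of_ne hpr, one_zpow]

theorem norm_c {c : ℚ} {D : ℕ} (hc : c.den = D ^ 2) (hD : D ≠ 0) {r : ℕ} [hr : Fact r.Prime]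
    (hrD : r ∣ D) : padicNorm r c = ((r : ℚ) ^ (D.factorization r)) ^ 2 := by
  have hden : (c.den : ℚ) ≠ 0 := by exact_mod_cast c.den_nz
  have hrden : r ∣ c.den := by
    rw [hc]
    exact dvd_pow hrD two_ne_zero
  have h1 : padicNorm r (c.num : ℚ) = 1 := by
    rw [padicNorm.int_eq_one_iff]
    intro h
    have h2 : r ∣ c.num.natAbs := Int.natCast_dvd.mp h
    have h3 := Nat.dvd_gcd h2 hrden
    rw [c.reduced] at h3
    exact hr.out.one_lt.ne' (Nat.dvd_one.mp h3)
  have h2 : padicNorm r (c.den : ℚ) = (((r : ℚ) ^ (D.factorization r)) ^ 2)⁻¹ := by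
    rw [padicNorm.eq_zpow_of_nonzero hden, padicValRat.of_nat, hc,
      padicValNat.pow, Nat.factorization_def D hr.out, ← pow_mul, zpow_neg,
      mul_comm (padicValNat r D) 2]
    rw [zpow_natCast]
  conv_lhs => rw [← Rat.num_div_den c]
  rw [padicNorm.div, h1, h2, one_div, inv_inv]

theorem norm_c_le {c : ℚ} {D : ℕ} (hc : c.den = D ^ 2) {r : ℕ} [hr : Fact r.Prime]
    (hrD : ¬ r ∣ D) : padicNorm r c ≤ 1 := by
  have h2 : padicNorm r (c.den : ℚ) = 1 := by
    rw [padicNorm.nat_eq_one_iff, hc]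
    intro h
    exact hrD (hr.out.dvd_of_dvd_pow h)
  conv_lhs => rw [← Rat.num_div_den c]
  rw [padicNorm.div, h2, div_one]
  exact padicNorm.of_int _

theorem one_lt_norm_c {c : ℚ} {D : ℕ} (hc : c.den = D ^ 2) (hD : D ≠ 0) {r : ℕ} [hr : Fact r.Prime]
    (hrD : r ∣ D) : 1 < padicNorm r c := by
  rw [norm_c hc hD hrD]
  have h1 : (1 : ℚ) < r := by exact_mod_cast hr.out.one_lt
  have h2 : D.factorization r ≠ 0 := (hr.out.factorization_pos_of_dvd hD hrD).ne'
  exact one_lt_pow₀ (one_lt_pow₀ h1 h2) two_ne_zero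

namespace Cyc

variable {c : ℚ} {n : ℕ} {x : ℕ → ℚ} {D : ℕ}

theorem B_eq (h : Cyc c n x) (hn : 0 < n) (hc : c.den = D ^ 2) (hD : D ≠ 0) {r : ℕ}
    [hr : Fact r.Prime] (hrD : r ∣ D) : padicNorm r 2 * padicNorm r (x 0) = B D r := by
  have h1 := h.norm_sq_eq hn (one_lt_norm_c hc hD hrD) 0
  rw [norm_c hc hD hrD] at h1
  have hr0 : (0 : ℚ) < r := by exact_mod_cast hr.out.pos
  have h2 : padicNorm r (x 0) = (r : ℚ) ^ (D.factorization r) := by
    rcases sq_eq_sq_iff_eq_or_eq_neg.mp h1 with h4 | h4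
    · exact h4
    · have h5 := padicNorm.nonneg (p := r) (x 0)
      have h6 : (0 : ℚ) < (r : ℚ) ^ (D.factorization r) := by positivity
      linarith
  rw [h2, norm_two, ← zpow_natCast, ← zpow_add₀ hr0.ne', B]
  congr 1
  ring

theorem norm_add_good (h : Cyc c n x) (hn : 0 < n) (hc : c.den = D ^ 2) {r : ℕ}
    [hr : Fact r.Prime] (hrD : ¬ r ∣ D) {i j : ℕ} (hij : ¬ i ≡ j [MOD n]) :
    padicNorm r (x i + x j) = 1 :=
  h.norm_add_of_good hn (norm_c_le hc hrD) hij

theorem norm_add_small (h : Cyc c n x) (hn : 0 < n) (hc : c.den = D ^ 2) (hD : D ≠ 0) {r : ℕ}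
    [hr : Fact r.Prime] (hrD : r ∣ D) (hB : B D r ≤ 1) {i j : ℕ} (hij : ¬ i ≡ j [MOD n]) :
    padicNorm r (x i + x j) = 1 := by
  apply h.norm_add_of_small hn (one_lt_norm_c hc hD hrD) _ hij
  rw [h.B_eq hn hc hD hrD]
  exact hB

/-- all the sums have `r`-adic size `B_r ^ (1 - e)`, `0 ≤ e ≤ n` -/
theorem exists_exp (h : Cyc c n x) (hn : 0 < n) (hc : c.den = D ^ 2) (hD : D ≠ 0) {r : ℕ}
    [hr : Fact r.Prime] (hrD : r ∣ D) {i j : ℕ} (hij : ¬ i ≡ j [MOD n]) :
    ∃ e ≤ n, padicNorm r (x i + x j) = (B D r) ^ (1 - (e : ℤ)) := by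
  have hB0 : 0 < B D r := B_pos D hr.out
  rcases le_or_gt (B D r) 1 with hB | hB
  · refine ⟨1, hn, ?_⟩
    rw [h.norm_add_small hn hc hD hrD hB hij]
    simp
  · have hc1 := one_lt_norm_c hc hD hrD
    have hBe := h.B_eq hn hc hD hrD
    have := h.exists_add hn hc1 (by rw [hBe]; exact hB) hij
    rw [hBe] at this
    rcases this with h1 | ⟨s, hs, h1⟩
    · exact ⟨0, Nat.zero_le _, by rw [h1]; simp⟩
    · refine ⟨s + 1, hs, ?_⟩
      have h2 : padicNorm r (x i + x j) = ((B D r) ^ s)⁻¹ := eq_inv_of_mul_eq_one_left h1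
      rw [h2, ← zpow_natCast, ← zpow_neg]
      congr 1
      push_cast
      ring

end Cyc

/-! ### rationals that are units everywhere -/

theorem den_eq_one {z : ℚ} (h : ∀ p : ℕ, ∀ _ : Fact p.Prime, padicNorm p z ≤ 1) : z.den = 1 := by
  by_contra hne
  obtain ⟨p, hp, hpd⟩ := Nat.exists_prime_and_dvd hne
  have : Fact p.Prime := ⟨hp⟩
  have h1 : padicNorm p (z.num : ℚ) = 1 := by
    rw [padicNorm.int_eq_one_iff]
    intro h
    have h2 : p ∣ z.num.natAbs := Int.natCast_dvd.mp h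
    have h3 := Nat.dvd_gcd h2 hpd
    rw [z.reduced] at h3
    exact hp.one_lt.ne' (Nat.dvd_one.mp h3)
  have h2 : padicNorm p (z.den : ℚ) < 1 := (padicNorm.nat_lt_one_iff _).mpr hpd
  have h3 := h p ⟨hp⟩
  rw [← Rat.num_div_den z, padicNorm.div, h1] at h3
  have h4 : 0 < padicNorm p (z.den : ℚ) :=
    lt_of_le_of_ne (padicNorm.nonneg _) (Ne.symm (padicNorm.nonzero (by exact_mod_cast z.den_nz)))
  rw [div_le_one h4] at h3
  linarith

theorem abs_eq_one_of_norm {z : ℚ} (hz : z ≠ 0)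
    (h : ∀ p : ℕ, ∀ _ : Fact p.Prime, padicNorm p z = 1) : z = 1 ∨ z = -1 := by
  have h1 : z.den = 1 := den_eq_one fun p hp => (h p hp).le
  have h2 : z = (z.num : ℚ) := by
    conv_lhs => rw [← Rat.num_div_den z]
    rw [h1]
    simp
  have h3 : z.num.natAbs = 1 := by
    by_contra hne
    obtain ⟨p, hp, hpd⟩ := Nat.exists_prime_and_dvd hne
    have h4 := h p ⟨hp⟩
    rw [h2] at h4
    have : Fact p.Prime := ⟨hp⟩
    rw [padicNorm.int_eq_one_iff] at h4
    exact h4 (Int.natCast_dvd.mpr hpd)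
  rcases Int.natAbs_eq z.num with h5 | h5
  · left
    rw [h2, h5, h3]
    norm_num
  · right
    rw [h2, h5, h3]
    norm_num

/-! ### the finite set of possible values -/

/-- the products `± ∏ B_r ^ e_r`, `-1 ≤ e_r ≤ n - 1`, over the primes `r` dividing `R` -/
noncomputable def U (R n : ℕ) : Finset ℚ :=
  (Finset.univ : Finset ((R.primeFactors → Fin (n + 1)) × Bool)).image
    (fun q => (if q.2 then (1 : ℚ) else -1) *
      ∏ r : R.primeFactors, (B R r) ^ (((q.1 r : ℕ) : ℤ) - 1))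

theorem card_U (R n : ℕ) : (U R n).card ≤ (n + 1) ^ R.primeFactors.card * 2 := by
  refine Finset.card_image_le.trans ?_
  simp

theorem mem_U {R n : ℕ} (hR : R ≠ 0) {z : ℚ} (hz : z ≠ 0)
    (h1 : ∀ r : ℕ, ∀ _ : Fact r.Prime, ¬ r ∣ R → padicNorm r z = 1)
    (h2 : ∀ r : ℕ, ∀ _ : Fact r.Prime, r ∣ R → ∃ e ≤ n, padicNorm r z = (B R r) ^ (1 - (e : ℤ))) :
    z ∈ U R n := by
  have h3 : ∀ r : R.primeFactors, ∃ e : Fin (n + 1),
      padicNorm r z = (B R r) ^ (1 - ((e : ℕ) : ℤ)) := by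
    intro r
    obtain ⟨e, he, h⟩ := h2 r ⟨Nat.prime_of_mem_primeFactors r.2⟩ (Nat.dvd_of_mem_primeFactors r.2)
    exact ⟨⟨e, by omega⟩, h⟩
  choose e he using h3
  set w : ℚ := ∏ r : R.primeFactors, (B R r) ^ (((e r : ℕ) : ℤ) - 1) with hw
  have hw0 : 0 < w := by
    rw [hw]
    refine Finset.prod_pos fun r _ => ?_
    have := B_pos R (Nat.prime_of_mem_primeFactors r.2)
    positivity
  have hnorm : ∀ p : ℕ, ∀ _ : Fact p.Prime, padicNorm p w = padicNorm p z := by
    intro p hp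
    rw [hw, norm_prod]
    by_cases hpR : p ∣ R
    · have hmem : p ∈ R.primeFactors := by
        rw [Nat.mem_primeFactors]
        exact ⟨hp.out, hpR, hR⟩
      rw [Finset.prod_eq_single (⟨p, hmem⟩ : R.primeFactors)]
      · rw [norm_zpow, norm_B_self, he ⟨p, hmem⟩, inv_zpow, ← zpow_neg]
        congr 1
        ring
      · intro r _ hr
        have hne : p ≠ (r : ℕ) := by
          intro e
          apply hr
          exact Subtype.ext e.symm
        rw [norm_zpow, norm_B_other R (Nat.prime_of_mem_primeFactors r.2) hne, one_zpow]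
      · intro h
        exact absurd (Finset.mem_univ _) h
    · rw [h1 p hp hpR]
      refine Finset.prod_eq_one fun r _ => ?_
      have hne : p ≠ (r : ℕ) := by
        intro e
        apply hpR
        rw [e]
        exact Nat.dvd_of_mem_primeFactors r.2
      rw [norm_zpow, norm_B_other R (Nat.prime_of_mem_primeFactors r.2) hne, one_zpow]
  have hzw : z / w = 1 ∨ z / w = -1 := by
    apply abs_eq_one_of_norm (div_ne_zero hz hw0.ne')
    intro p hp
    rw [padicNorm.div, hnorm p hp, div_self]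
    exact padicNorm.nonzero hz
  unfold U
  rw [Finset.mem_image]
  rcases hzw with h | h
  · refine ⟨(e, true), Finset.mem_univ _, ?_⟩
    rw [div_eq_one_iff_eq hw0.ne'] at h
    simp only [if_true, one_mul]
    exact h.symm
  · refine ⟨(e, false), Finset.mem_univ _, ?_⟩
    rw [div_eq_iff hw0.ne'] at h
    rw [h]
    simp only [Bool.false_eq_true, if_false]
    rfl

/-- the components do not change when one of them is removed -/
theorem factorization_ordCompl {D p r : ℕ} (hpr : r ≠ p) :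
    (D / p ^ D.factorization p).factorization r = D.factorization r := by
  rw [Nat.factorization_ordCompl, Finsupp.erase_ne hpr]

theorem B_ordCompl {D p r : ℕ} (hpr : r ≠ p) : B (D / p ^ D.factorization p) r = B D r := by
  rw [B, B, factorization_ordCompl hpr]

theorem dvd_ordCompl_iff {D p r : ℕ} (hD : D ≠ 0) (hr : r.Prime) (hp : p.Prime) :
    r ∣ D / p ^ D.factorization p ↔ r ∣ D ∧ r ≠ p := by
  constructor
  · intro h
    refine ⟨h.trans (Nat.ordCompl_dvd D p), ?_⟩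
    rintro rfl
    exact Nat.not_dvd_ordCompl hp hD h
  · rintro ⟨h, hne⟩
    have h1 := Nat.ordProj_mul_ordCompl_eq_self D p
    rw [← h1] at h
    rcases (hr.dvd_mul).mp h with h2 | h2
    · exact absurd ((Nat.prime_dvd_prime_iff_eq hr hp).mp (hr.dvd_of_dvd_pow h2)) hne
    · exact h2

namespace Cyc

variable {c : ℚ} {n : ℕ} {x : ℕ → ℚ} {D : ℕ}

/-- the part of `x_i + x_j` outside `p` -/
theorem mem_U_of (h : Cyc c n x) (hn : 0 < n) (hc : c.den = D ^ 2) (hD : D ≠ 0) {p : ℕ}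
    [hp : Fact p.Prime] {i j : ℕ} (hij : ¬ i ≡ j [MOD n]) (m : ℤ)
    (hm : padicNorm p (x i + x j) = (B D p) ^ m) :
    (x i + x j) * (B D p) ^ m ∈ U (D / p ^ D.factorization p) n := by
  have hB0 : 0 < B D p := B_pos D hp.out
  have hR : D / p ^ D.factorization p ≠ 0 := (Nat.ordCompl_pos p hD).ne'
  have hnorm : ∀ r : ℕ, ∀ _ : Fact r.Prime, r ≠ p →
      padicNorm r ((x i + x j) * (B D p) ^ m) = padicNorm r (x i + x j) := by
    intro r hr hrp
    rw [padicNorm.mul, norm_zpow, norm_B_other D hp.out hrp, one_zpow, mul_one]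
  apply mem_U hR (mul_ne_zero (h.add_ne_zero hij) (zpow_ne_zero _ hB0.ne'))
  · intro r hr hrR
    by_cases hrp : r = p
    · subst hrp
      rw [padicNorm.mul, norm_zpow, norm_B_self, hm, inv_zpow]
      exact mul_inv_cancel₀ (zpow_ne_zero _ hB0.ne')
    · rw [hnorm r hr hrp]
      apply h.norm_add_good hn hc _ hij
      intro hrD
      exact hrR ((dvd_ordCompl_iff hD hr.out hp.out).mpr ⟨hrD, hrp⟩)
  · intro r hr hrR
    obtain ⟨hrD, hrp⟩ := (dvd_ordCompl_iff hD hr.out hp.out).mp hrR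
    obtain ⟨e, he, h1⟩ := h.exists_exp hn hc hD hrD hij
    refine ⟨e, he, ?_⟩
    rw [hnorm r hr hrp, h1, B_ordCompl hrp]

end Cyc

end Pool.Agent.Poonen40
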