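import Pool.Agent.Poonen40.Power2
import Pool.Agent.FPS4.Four

/-!
# The upper bounds
-/

set_option autoImplicit false

open Function
open scoped Classical

namespace Pool.Agent.Poonen40

/-- `D` is the square root of the denominator of some `c` for which `y ↦ y ^ 2 + c` has a rational
periodic point of exact period at least `k` -/
def ExcK (k D : ℕ) : Prop :=
  ∃ c x : ℚ, c.den = D ^ 2 ∧ k ≤ minimalPeriod (fun y : ℚ => y ^ 2 + c) x

theorem At_nonempty {D : ℕ} (hD : 4 < D) : (At D).Nonempty := by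
  rw [Finset.nonempty_iff_ne_empty]
  intro h
  have h1 := Gp_At_cases D (by omega)
  rw [h] at h1
  simp only [Gp, Finset.prod_empty] at h1
  omega

theorem gd_of_five {c : ℚ} {n : ℕ} {x : ℕ → ℚ} {D : ℕ} (h : Cyc c n x) (hn : 5 ≤ n)
    (hc : c.den = D ^ 2) (hD : D ≠ 0) : Gd 5 14 D := by
  by_cases h4 : D ≤ 4
  · exact Or.inl h4
  · right
    obtain ⟨S, hS, h1, h2⟩ := h.exists_group5 hn hc hD (At_nonempty (by omega))
    exact ⟨S, hS, h1, by exact_mod_cast h2⟩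

theorem gd_mono {D : ℕ} (hD : D ≠ 0) (h : Gd 5 14 D) : Gd 1 3 D := by
  rcases h with h | ⟨S, hS, h1, h2⟩
  · exact Or.inl h
  · right
    refine ⟨S, hS, h1, ?_⟩
    have h3 := mu_nonneg hD (hS.trans (At_subset D))
    push_cast at h2 ⊢
    linarith

theorem gd_three {D : ℕ} (hD : D ≠ 0) (h : ExcK 3 D) : Gd 1 3 D := by
  obtain ⟨c, x, hc, hn⟩ := h
  have hcyc := cyc_of c x (by omega)
  have h4 := FPS.no_four c x
  by_cases h5 : 5 ≤ minimalPeriod (fun y : ℚ => y ^ 2 + c) x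
  · exact gd_mono hD (gd_of_five hcyc h5 hc hD)
  · have h3 : minimalPeriod (fun y : ℚ => y ^ 2 + c) x = 3 := by omega
    rw [h3] at hcyc
    by_cases h4 : D ≤ 4
    · exact Or.inl h4
    · right
      obtain ⟨S, hS, h1, h2⟩ := hcyc.exists_group3 hc hD (At_nonempty (by omega))
      refine ⟨S, hS, h1, ?_⟩
      push_cast
      linarith

theorem gd_four {D : ℕ} (hD : D ≠ 0) (h : ExcK 4 D) : Gd 5 14 D := by
  obtain ⟨c, x, hc, hn⟩ := h
  have hcyc := cyc_of c x (by omega)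
  have h4 := FPS.no_four c x
  exact gd_of_five hcyc (by omega) hc hD

/-- period at least `3` -/
theorem count_three {ε : ℝ} (hε : 0 < ε) : ∃ C : ℝ, ∀ N : ℕ, 1 ≤ N →
    (((Finset.Icc 1 N).filter (ExcK 3)).card : ℝ) ≤ C * (N : ℝ) ^ (2 / 3 + ε) := by
  obtain ⟨C, hC⟩ := count_gd (p := 1) (q := 3) (by norm_num) (by norm_num)
    (fun D hD h => gd_three hD h) hε
  refine ⟨C, fun N hN => ?_⟩
  have h1 := hC N hN
  have e : 1 - ((1 : ℕ) : ℝ) / ((3 : ℕ) : ℝ) + ε = 2 / 3 + ε := by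
    push_cast
    ring
  rwa [e] at h1

/-- period at least `4` -/
theorem count_four {ε : ℝ} (hε : 0 < ε) : ∃ C : ℝ, ∀ N : ℕ, 1 ≤ N →
    (((Finset.Icc 1 N).filter (ExcK 4)).card : ℝ) ≤ C * (N : ℝ) ^ (9 / 14 + ε) := by
  obtain ⟨C, hC⟩ := count_gd (p := 5) (q := 14) (by norm_num) (by norm_num)
    (fun D hD h => gd_four hD h) hε
  refine ⟨C, fun N hN => ?_⟩
  have h1 := hC N hN
  have e : 1 - ((5 : ℕ) : ℝ) / ((14 : ℕ) : ℝ) + ε = 9 / 14 + ε := by
    push_cast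
    ring
  rwa [e] at h1

end Pool.Agent.Poonen40
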