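import Pool.Agent.Poonen40.Approx

/-!
# Windows of signs and the relation for a group of components
-/

set_option autoImplicit false

open scoped Classical

namespace Pool.Agent.Poonen40

/-! ### measures of groups -/

/-- the primes with `B_r > 2` -/
noncomputable def At (D : ℕ) : Finset ℕ := (Act D).filter fun r => 2 < B D r

theorem At_subset (D : ℕ) : At D ⊆ Act D := Finset.filter_subset _ _

theorem mem_At {D r : ℕ} (hD : D ≠ 0) (h : r ∈ At D) :
    r.Prime ∧ r ∣ D ∧ 1 < B D r ∧ 2 < B D r := by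
  obtain ⟨h1, h2⟩ := Finset.mem_filter.mp h
  obtain ⟨h3, h4, h5⟩ := (mem_Act hD).mp h1
  exact ⟨h3, h4, h5, h2⟩

theorem half_le_norm_two (r : ℕ) [hr : Fact r.Prime] : (1 / 2 : ℚ) ≤ padicNorm r 2 := by
  rw [norm_two]
  split_ifs with h
  · subst h
    norm_num
  · norm_num

/-- the measure of a group -/
noncomputable def mu (D : ℕ) (S : Finset ℕ) : ℝ := ∑ r ∈ S, Real.log (Bn D r)

theorem log_Bn_pos {D r : ℕ} (hD : D ≠ 0) (h : r ∈ Act D) : 0 < Real.log (Bn D r) := by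
  obtain ⟨h1, h2, h3⟩ := (mem_Act hD).mp h
  rw [← Bn_cast h1 hD h2] at h3
  apply Real.log_pos
  exact_mod_cast h3

theorem mu_eq_log {D : ℕ} (hD : D ≠ 0) {S : Finset ℕ} (hS : S ⊆ Act D) :
    mu D S = Real.log (Gp D S) := by
  unfold mu Gp
  push_cast
  rw [Real.log_prod]
  intro r hr
  have := Bn_pos D ((mem_Act hD).mp (hS hr)).1
  exact_mod_cast this.ne'

theorem mu_nonneg {D : ℕ} (hD : D ≠ 0) {S : Finset ℕ} (hS : S ⊆ Act D) : 0 ≤ mu D S :=
  Finset.sum_nonneg fun _ hr => (log_Bn_pos hD (hS hr)).le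

theorem mu_pos {D : ℕ} (hD : D ≠ 0) {S : Finset ℕ} (hS : S ⊆ Act D) (hne : S.Nonempty) :
    0 < mu D S :=
  Finset.sum_pos (fun _ hr => log_Bn_pos hD (hS hr)) hne

theorem mu_union_le {D : ℕ} (hD : D ≠ 0) {S S' : Finset ℕ} (hS : S ⊆ Act D) :
    mu D (S ∪ S') ≤ mu D S + mu D S' := by
  have h1 : mu D (S ∪ S') + mu D (S ∩ S') = mu D S + mu D S' := Finset.sum_union_inter
  have h2 : 0 ≤ mu D (S ∩ S') := mu_nonneg hD (Finset.inter_subset_left.trans hS)
  linarith

theorem nonempty_of_mu_pos {D : ℕ} {S : Finset ℕ} (h : 0 < mu D S) : S.Nonempty := by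
  rw [Finset.nonempty_iff_ne_empty]
  rintro rfl
  simp [mu] at h

/-! ### heights -/

/-- numerator and denominator are at most `X` -/
def Ht (X : ℕ) (z : ℚ) : Prop := z.den ≤ X ∧ z.num.natAbs ≤ X

theorem Ht.mul {X Y : ℕ} {z w : ℚ} (hz : Ht X z) (hw : Ht Y w) :
    Ht (X * Y) (z * w) := by
  constructor
  · have h1 := Nat.le_of_dvd (Nat.mul_pos z.pos w.pos) (Rat.mul_den_dvd z w)
    exact h1.trans (Nat.mul_le_mul hz.1 hw.1)
  · rw [Rat.mul_num]
    refine (Int.natAbs_ediv_le_natAbs _ _).trans ?_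
    rw [Int.natAbs_mul]
    exact Nat.mul_le_mul hz.2 hw.2

theorem Ht.inv {X : ℕ} {z : ℚ} (hz0 : z ≠ 0) (hz : Ht X z) : Ht X z⁻¹ := by
  have h1 : z.num ≠ 0 := Rat.num_ne_zero.mpr hz0
  constructor
  · rw [Rat.den_inv_of_ne_zero hz0]
    exact hz.2
  · rw [Rat.num_inv, Int.natAbs_mul, Int.natAbs_natCast]
    have h2 : (Int.sign z.num).natAbs = 1 := Int.natAbs_sign_of_ne_zero h1
    rw [h2, one_mul]
    exact hz.1

theorem Ht.one {X : ℕ} (hX : 1 ≤ X) : Ht X 1 := ⟨by simpa using hX, by simpa using hX⟩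

theorem Ht.pow {X : ℕ} {z : ℚ} (hz : Ht X z) (m : ℕ) : Ht (X ^ m) (z ^ m) := by
  induction m with
  | zero => simpa using Ht.one (le_refl 1)
  | succ m ih =>
    rw [pow_succ, pow_succ]
    exact ih.mul hz

theorem Ht.zpow {X : ℕ} {z : ℚ} (hz0 : z ≠ 0) (hz : Ht X z) (m : ℤ) :
    Ht (X ^ m.natAbs) (z ^ m) := by
  obtain ⟨k, rfl | rfl⟩ := m.eq_nat_or_neg
  · rw [zpow_natCast, Int.natAbs_natCast]
    exact hz.pow k
  · rw [zpow_neg, zpow_natCast, Int.natAbs_neg, Int.natAbs_natCast]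
    exact (hz.pow k).inv (pow_ne_zero _ hz0)

theorem Ht.mono {X Y : ℕ} {z : ℚ} (hz : Ht X z) (hXY : X ≤ Y) : Ht Y z :=
  ⟨hz.1.trans hXY, hz.2.trans hXY⟩

/-! ### the relation for a group -/

/-- the bound of the heights -/
def Yb (D : ℕ) : ℕ := (6 * D ^ 2) ^ 4

/-- there is a number `f ≠ ± 1`, composed of the primes of the other groups, with `f ^ 2 ≡ 1` modulo
the components of the group `S` -/
def Rl (D : ℕ) (S : Finset ℕ) : Prop :=
  ∃ f : ℚ, f ≠ 0 ∧ f ≠ 1 ∧ f ≠ -1 ∧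
    (∀ q : ℕ, ∀ _ : Fact q.Prime, q ∉ At D \ S → q ≠ 2 → padicNorm q f = 1) ∧
    Ht (Yb D) f ∧ ∀ r ∈ S, ∀ _ : Fact r.Prime, padicNorm r (f ^ 2 - 1) ≤ (B D r)⁻¹

/-! ### windows -/

/-- the window with the given signs -/
def c8 (b0 b1 b2 b3 b4 b5 b6 b7 : Bool) : ℕ → Bool
  | 0 => b0
  | 1 => b1
  | 2 => b2
  | 3 => b3
  | 4 => b4
  | 5 => b5
  | 6 => b6
  | 7 => b7
  | _ => false

/-- the window of a prime at a position -/
noncomputable def wd (r : ℕ) (x : ℕ → ℚ) (p : ℕ) : ℕ → Bool :=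
  c8 (cl r x p) (cl r x (p + 1)) (cl r x (p + 2)) (cl r x (p + 3)) (cl r x (p + 4))
    (cl r x (p + 5)) (cl r x (p + 6)) (cl r x (p + 7))

theorem wd_spec (r : ℕ) (x : ℕ → ℚ) (p : ℕ) : ∀ t ≤ 7, wd r x p t = cl r x (p + t) := by
  intro t ht
  interval_cases t <;> rfl

/-- a value is `± 1` -/
def zr (o : Option (ℤ × Bool)) : Bool :=
  match o with
  | none => false
  | some v => v.1 == 0

/-- a value is `1` -/
def zp (o : Option (ℤ × Bool)) : Bool :=
  match o with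
  | none => false
  | some v => v.1 == 0 && !v.2

/-- a value is possible for a number equal to `sg s` -/
def okv (o : Option (ℤ × Bool)) (s : Bool) : Bool :=
  match o with
  | none => true
  | some v => v.1 == 0 && v.2 == s

/-- the degree of a monomial -/
def mdeg (f : Mon) : ℕ := (f.map fun t => t.2.2.natAbs).sum

namespace Cyc

variable {c : ℚ} {n : ℕ} {x : ℕ → ℚ} {D : ℕ}

section eval

variable (h : Cyc c n x) (hn : 3 ≤ n) (hc : c.den = D ^ 2) (hD : D ≠ 0)

include h hn hc hD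

theorem mv_ne_zero {p : ℕ} {f : Mon} (hf : ∀ t ∈ f, ¬ p + t.1 ≡ p + t.2.1 [MOD n]) :
    mv x p f ≠ 0 := by
  unfold mv
  apply List.prod_ne_zero
  intro h0
  rw [List.mem_map] at h0
  obtain ⟨t, ht, h1⟩ := h0
  exact zpow_ne_zero _ (h.add_ne_zero (hf t ht)) h1

theorem norm_mv {q : ℕ} [hq : Fact q.Prime] {p : ℕ} {f : Mon}
    (hf : ∀ t ∈ f, ¬ p + t.1 ≡ p + t.2.1 [MOD n])
    (hs : ∀ t ∈ f, padicNorm q (x (p + t.1) + x (p + t.2.1)) = 1) : padicNorm q (mv x p f) = 1 := by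
  induction f with
  | nil => simp [mv]
  | cons t f ih =>
    have e1 : mv x p (t :: f) = (x (p + t.1) + x (p + t.2.1)) ^ t.2.2 * mv x p f := by
      simp [mv]
    rw [e1, padicNorm.mul, norm_zpow, hs t List.mem_cons_self, one_zpow, one_mul]
    exact ih (fun t ht => hf t (List.mem_cons_of_mem _ ht))
      (fun t ht => hs t (List.mem_cons_of_mem _ ht))

theorem ht_add {i j : ℕ} : Ht (6 * D ^ 2) (x i + x j) := by
  obtain ⟨h1, m, hm⟩ := h.height_add hn hc hD i j
  have hD1 : 1 ≤ D := Nat.one_le_iff_ne_zero.mpr hD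
  have hDq : (0 : ℚ) ≤ D := Nat.cast_nonneg D
  obtain ⟨k1, k2⟩ := height_of (Y := 6 * D ^ 2) hD hm (by
    push_cast
    calc (D : ℚ) * |x i + x j| ≤ D * (6 * D) := mul_le_mul_of_nonneg_left h1 hDq
      _ = 6 * (D : ℚ) ^ 2 := by ring)
  refine ⟨?_, k2⟩
  have h2 := Nat.le_of_dvd (by omega) k1
  nlinarith

theorem ht_mv {p : ℕ} {f : Mon} (hf : ∀ t ∈ f, ¬ p + t.1 ≡ p + t.2.1 [MOD n]) :
    Ht ((6 * D ^ 2) ^ mdeg f) (mv x p f) := by
  induction f with
  | nil =>
    have e1 : mv x p [] = 1 := by simp [mv]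
    rw [e1]
    simpa [mdeg] using Ht.one (le_refl 1)
  | cons t f ih =>
    have e1 : mv x p (t :: f) = (x (p + t.1) + x (p + t.2.1)) ^ t.2.2 * mv x p f := by
      simp [mv]
    have e2 : mdeg (t :: f) = t.2.2.natAbs + mdeg f := by simp [mdeg]
    have hf' : ∀ t ∈ f, ¬ p + t.1 ≡ p + t.2.1 [MOD n] :=
      fun t ht => hf t (List.mem_cons_of_mem _ ht)
    have h0 := h.add_ne_zero (hf t List.mem_cons_self)
    rw [e1, e2, pow_add]
    exact Ht.mul ((h.ht_add hn hc hD).zpow h0 _) (ih hf')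

/-- a value `± 1` in the window gives the congruence -/
theorem ap_of_zr {r : ℕ} [hr : Fact r.Prime] (hrA : r ∈ At D) {p : ℕ} {f : Mon}
    (hz : zr (ev 7 (wd r x p) f) = true) : ∃ s, padicNorm r (mv x p f - sg s) * B D r ≤ 1 := by
  obtain ⟨h1, h2, h3, h4⟩ := mem_At hD hrA
  unfold zr at hz
  cases h5 : ev 7 (wd r x p) f with
  | none => rw [h5] at hz; simp at hz
  | some v =>
    rw [h5] at hz
    simp only [beq_iff_eq] at hz
    have h6 := h.ap_ev hn hc hD h2 h3 (wd_spec r x p) f v h5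
    have e : vl (2 * x 0) v = sg v.2 := by
      unfold vl
      rw [hz, zpow_zero, mul_one]
    rw [e] at h6
    refine ⟨v.2, ?_⟩
    have h7 := h6.2
    rwa [norm_sg] at h7

theorem ap_of_zp {r : ℕ} [hr : Fact r.Prime] (hrA : r ∈ At D) {p : ℕ} {f : Mon}
    (hz : zp (ev 7 (wd r x p) f) = true) : padicNorm r (mv x p f - 1) * B D r ≤ 1 := by
  obtain ⟨h1, h2, h3, h4⟩ := mem_At hD hrA
  unfold zp at hz
  cases h5 : ev 7 (wd r x p) f with
  | none => rw [h5] at hz; simp at hz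
  | some v =>
    rw [h5] at hz
    simp only [Bool.and_eq_true, beq_iff_eq, Bool.not_eq_true'] at hz
    have h6 := h.ap_ev hn hc hD h2 h3 (wd_spec r x p) f v h5
    have e : vl (2 * x 0) v = 1 := by
      unfold vl
      rw [hz.1, zpow_zero, mul_one, hz.2]
      rfl
    rw [e] at h6
    have h7 := h6.2
    rwa [padicNorm.one] at h7

/-- exact values restrict the windows -/
theorem okv_of_eq {r : ℕ} (hrA : r ∈ At D) {p : ℕ} {f : Mon} {s : Bool}
    (hf : mv x p f = sg s) : okv (ev 7 (wd r x p) f) s = true := by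
  obtain ⟨h1, h2, h3, h4⟩ := mem_At hD hrA
  have hr : Fact r.Prime := ⟨h1⟩
  unfold okv
  cases h5 : ev 7 (wd r x p) f with
  | none => rfl
  | some v =>
    simp only [Bool.and_eq_true, beq_iff_eq]
    have h6 := h.ap_ev hn hc hD h2 h3 (wd_spec r x p) f v h5
    rw [hf] at h6
    have h7 := h6.norm_eq h3
    rw [norm_sg, norm_vl, h.norm_y hn hc hD h2] at h7
    have h8 : v.1 = 0 := by
      by_contra hne
      rcases lt_or_gt_of_ne hne with h9 | h9
      · have := zpow_lt_one_of_neg₀ h3 h9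
        linarith
      · have := one_lt_zpow₀ h3 h9
        linarith
    refine ⟨h8, ?_⟩
    by_contra hne
    have e : vl (2 * x 0) v = sg v.2 := by
      unfold vl
      rw [h8, zpow_zero, mul_one]
    have h9 := h6.2
    rw [e, norm_sg] at h9
    have h10 : sg s - sg v.2 = 2 * sg s := by
      have h11 : v.2 = !s := Bool.eq_not.mpr hne
      rw [h11, sg_not]
      ring
    rw [h10, padicNorm.mul, norm_sg, mul_one] at h9
    have h11 := half_le_norm_two r
    nlinarith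

/-- the relation from a monomial -/
theorem rl_of {p : ℕ} {f : Mon} (hf : ∀ t ∈ f, ¬ p + t.1 ≡ p + t.2.1 [MOD n])
    (hdeg : mdeg f ≤ 4) (h1 : mv x p f ≠ 1) (h2 : mv x p f ≠ -1) {S : Finset ℕ} (hS : S ⊆ At D)
    (hz : ∀ r ∈ S, zr (ev 7 (wd r x p) f) = true) : Rl D S := by
  have hD1 : 1 ≤ 6 * D ^ 2 := by
    have : 1 ≤ D ^ 2 := Nat.one_le_iff_ne_zero.mpr (pow_ne_zero _ hD)
    omega
  refine ⟨mv x p f, h.mv_ne_zero hn hc hD hf, h1, h2, ?_,
    (h.ht_mv hn hc hD hf).mono (Nat.pow_le_pow_right hD1 hdeg), ?_⟩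
  · intro q hq hqS hq2
    by_cases hqA : q ∈ Act D
    · have hqA' : q ∈ At D := by
        refine Finset.mem_filter.mpr ⟨hqA, ?_⟩
        obtain ⟨k1, k2, k3⟩ := (mem_Act hD).mp hqA
        have k4 : (q : ℚ) ≤ B D q := by
          rw [← Bn_cast k1 hD k2]
          have k5 : 1 < Bn D q := by
            rw [← Bn_cast k1 hD k2] at k3
            exact_mod_cast k3
          have k6 : q ≤ Bn D q := by
            unfold Bn at k5 ⊢
            apply Nat.le_self_pow
            intro h0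
            rw [h0, pow_zero] at k5
            omega
          exact_mod_cast k6
        have k5 : 3 ≤ q := by
          have := k1.two_le
          omega
        have k6 : (3 : ℚ) ≤ q := by exact_mod_cast k5
        linarith
      have hqS' : q ∈ S := by
        by_contra hcon
        exact hqS (Finset.mem_sdiff.mpr ⟨hqA', hcon⟩)
      obtain ⟨k1, k2, k3, k4⟩ := mem_At hD hqA'
      obtain ⟨s, hs⟩ := h.ap_of_zr hn hc hD hqA' (hz q hqS')
      have h6 : Ap q (B D q) (mv x p f) (sg s) := ⟨sg_ne s, by rw [norm_sg]; exact hs⟩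
      rw [h6.norm_eq k3, norm_sg]
    · exact h.norm_mv hn hc hD hf fun t ht =>
        h.norm_add_inactive (by omega) hc hD hqA (hf t ht)
  · intro r hrS hr
    obtain ⟨k1, k2, k3, k4⟩ := mem_At hD (hS hrS)
    obtain ⟨s, hs⟩ := h.ap_of_zr hn hc hD (hS hrS) (hz r hrS)
    have h6 : Ap r (B D r) (mv x p f) (sg s) := ⟨sg_ne s, by rw [norm_sg]; exact hs⟩
    have h7 := (h6.pow k3 2).2
    rw [sg_sq, padicNorm.one] at h7
    have hB0 : 0 < B D r := by linarith
    rw [← one_div, le_div_iff₀ hB0]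
    exact h7

end eval

end Cyc

end Pool.Agent.Poonen40
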